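import Pool.Agent.MP_3df3be_co.Top1

/-! Embedding and hosting of latin squares. -/

namespace Pool.Agent.MP_3df3be_co

open Finset

/-- A subsquare of order `m`. -/
def Sub {X : Type} (op : X → X → X) (m : ℕ) : Prop :=
  ∃ R C S : Finset X, #R = m ∧ #C = m ∧ #S = m ∧ ∀ r ∈ R, ∀ c ∈ C, op r c ∈ S

/-- A square of order `n` with subsquares of all orders with `P`. -/
def Hs (n : ℕ) (P : ℕ → Prop) : Prop :=
  ∃ op : Fin n → Fin n → Fin n, Qg op ∧ ∀ m, P m → Sub op m

theorem Hs.mono {n : ℕ} {P Q : ℕ → Prop} (h : Hs n P) (k : ∀ m, Q m → P m) : Hs n Q :=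
  h.imp fun _ p => ⟨p.1, fun m u => p.2 m (k m u)⟩

theorem Sub.map {X Y : Type} {op : X → X → X} {op' : Y → Y → Y} {m : ℕ} (h : Sub op m)
    (f g k : X ↪ Y) (e : ∀ x y, op' (f x) (g y) = k (op x y)) : Sub op' m := by
  obtain ⟨R, C, S, h1, h2, h3, h4⟩ := h
  refine ⟨R.map f, C.map g, S.map k, by rwa [card_map], by rwa [card_map], by rwa [card_map],
    fun r hr c hc => ?_⟩
  obtain ⟨x, hx, rfl⟩ := mem_map.1 hr
  obtain ⟨y, hy, rfl⟩ := mem_map.1 hc
  exact e x y ▸ mem_map_of_mem k (h4 x hx y hy)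

theorem ofType {X : Type} [Fintype X] {op : X → X → X} (q : Qg op) {n : ℕ}
    (hn : Fintype.card X = n) : Hs n (Sub op) := by
  let e := Fintype.equivFinOfCardEq hn
  exact ⟨fun i j => e (op (e.symm i) (e.symm j)),
    ⟨fun i => e.injective.comp ((q.l _).comp e.symm.injective),
      fun j => e.injective.comp ((q.r (e.symm j)).comp e.symm.injective)⟩,
    fun m h => h.map e.toEmbedding e.toEmbedding e.toEmbedding fun x y => by simp⟩

theorem single (m : ℕ) : Hs m fun k => k = m := by
  have : ∃ op : Fin m → Fin m → Fin m, Qg op := by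
    cases m with
    | zero => exact ⟨fun i _ => i, fun i => i.elim0, fun i => i.elim0⟩
    | succ m => exact ⟨(· + ·), add_right_injective, add_left_injective⟩
  obtain ⟨op, q⟩ := this
  exact ⟨op, q, fun k e => ⟨univ, univ, univ, by simp [e], by simp [e], by simp [e],
    fun _ _ _ _ => mem_univ _⟩⟩

theorem host {M : ℕ} {P : ZMod 5 → ZMod 5 → ℕ → Prop} (h : ∀ i j, Hs M (P i j)) :
    Hs (5 * M) fun m => ∃ i j, P i j m := by
  choose op q hs using h
  refine (ofType (X := ZMod 5 × Fin M) (op := fun x y => (x.1 + y.1, op x.1 y.1 x.2 y.2))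
    ⟨fun x y z e => ?_, fun x y z e => ?_⟩ (by simp)).mono fun m ⟨i, j, k⟩ =>
    (hs i j m k).map ⟨fun x => (i, x), Prod.mk_right_injective i⟩
      ⟨fun x => (j, x), Prod.mk_right_injective j⟩
      ⟨fun x => (i + j, x), Prod.mk_right_injective _⟩ fun _ _ => rfl
  · obtain ⟨e1, e2⟩ := Prod.mk.inj e
    have e3 := add_left_cancel e1
    rw [e3] at e2
    exact Prod.ext e3 ((q _ _).l _ e2)
  · obtain ⟨e1, e2⟩ := Prod.mk.inj e
    have e3 := add_right_cancel e1
    rw [e3] at e2
    exact Prod.ext e3 ((q _ _).r _ e2)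

/-- Latin rectangles with `k` rows. -/
def Rect {n : ℕ} (k : ℕ) (f : ℕ → Fin n → Fin n) : Prop :=
  (∀ i < k, Function.Injective (f i)) ∧ ∀ c, ∀ i < k, ∀ j < k, f i c = f j c → i = j

theorem Rect.step {n k : ℕ} {f : ℕ → Fin n → Fin n} (h : Rect k f) (hk : k < n) :
    ∃ g : ℕ → Fin n → Fin n, Rect (k + 1) g ∧ ∀ i < k, g i = f i := by
  let t : Fin n → Finset (Fin n) := fun c => ((range k).image fun i => f i c)ᶜ
  have t1 : ∀ c, #(t c) = n - k := fun c => by
    rw [card_compl, card_image_of_injOn fun i hi j hj =>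
      h.2 c i (mem_range.1 hi) j (mem_range.1 hj), card_range, Fintype.card_fin]
  have t2 : ∀ s, #(univ.filter fun c => s ∈ t c) ≤ n - k := fun s => by
    have ex : ∀ i, ∃ c, i < k → f i c = s := fun i => by
      by_cases u : i < k
      · obtain ⟨c, e⟩ := Finite.surjective_of_injective (h.1 i u) s
        exact ⟨c, fun _ => e⟩
      · exact ⟨s, fun v => absurd v u⟩
    choose c hc using ex
    have h1 := card_le_card_of_injOn (s := range k) (t := univ.filter fun c => ¬s ∈ t c) c
      (fun i hi => by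
        simp only [t, coe_filter, mem_univ, true_and, mem_compl, not_not, Set.mem_ofPred_eq]
        exact mem_image.2 ⟨i, hi, hc i (mem_range.1 hi)⟩)
      fun i hi j hj e => h.2 (c i) i (mem_range.1 hi) j (mem_range.1 hj) (by
        rw [hc i (mem_range.1 hi), e, hc j (mem_range.1 hj)])
    have h2 := card_filter_add_card_filter_not (s := univ) fun c => s ∈ t c
    rw [card_range] at h1
    rw [card_univ, Fintype.card_fin] at h2
    omega
  obtain ⟨g, g1, g2⟩ := (all_card_le_biUnion_card_iff_exists_injective t).1 fun A =>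
    Nat.le_of_mul_le_mul_right (card_mul_le_card_mul (fun c s => s ∈ t c) (m := n - k) (n := n - k)
      (fun c hc => (t1 c).ge.trans (card_le_card fun s hs =>
        mem_filter.2 ⟨mem_biUnion.2 ⟨c, hc, hs⟩, hs⟩))
      fun s _ => (card_le_card (filter_subset_filter _ (subset_univ A))).trans (t2 s)) (by omega)
  have g3 : ∀ c, ∀ i < k, f i c ≠ g c := fun c i hi e =>
    mem_compl.1 (g2 c) (mem_image.2 ⟨i, mem_range.2 hi, e⟩)
  refine ⟨fun i => if i < k then f i else g, ⟨fun i _ => ?_, fun c i hi j hj e => ?_⟩,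
    fun i hi => if_pos hi⟩
  · dsimp only
    split_ifs with u
    exacts [h.1 i u, g1]
  · dsimp only at e
    split_ifs at e with u v v
    · exact h.2 c i u j v e
    · exact absurd e (g3 c i u)
    · exact absurd e.symm (g3 c j v)
    · omega

theorem Rect.full {n k : ℕ} {f : ℕ → Fin n → Fin n} (h : Rect k f) (d : ℕ) (hd : k + d ≤ n) :
    ∃ g : ℕ → Fin n → Fin n, Rect (k + d) g ∧ ∀ i < k, g i = f i := by
  induction d with
  | zero => exact ⟨f, h, fun _ _ => rfl⟩
  | succ d ih =>
    obtain ⟨g, g1, g2⟩ := ih (by omega)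
    obtain ⟨g', g3, g4⟩ := g1.step (by omega)
    exact ⟨g', g3, fun i hi => (g4 i (by omega)).trans (g2 i hi)⟩

theorem mod_inj {w a x y : ℕ} (hx : x < w) (hy : y < w) (e : (a + x) % w = (a + y) % w) : x = y :=
  (Nat.ModEq.add_left_cancel' a e).eq_of_lt_of_lt hx hy

theorem Hs.embed {m n : ℕ} {P : ℕ → Prop} (h : Hs m P) (hn : 2 * m ≤ n) : Hs n P := by
  obtain ⟨op, q, hs⟩ := h
  have le : m ≤ n := by omega
  let f : ℕ → Fin n → Fin n := fun i c =>
    if u : i < m then
      if v : c.1 < m then Fin.castLE le (op ⟨i, u⟩ ⟨c, v⟩)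
      else ⟨m + (i + (c - m)) % (n - m), by
        have := Nat.mod_lt (i + (c - m)) (show 0 < n - m by omega); omega⟩
    else c
  have r : Rect m f := by
    refine ⟨fun i hi c d e => ?_, fun c i hi j hj e => ?_⟩
    · simp only [f, dif_pos hi] at e
      split_ifs at e with u v v
      · exact Fin.ext (Fin.mk.inj (q.l _ (Fin.castLE_injective le e)))
      · have := Fin.val_eq_of_eq e
        have := (op ⟨i, hi⟩ ⟨c, u⟩).2
        simp only [Fin.val_castLE] at *
        omega
      · have := Fin.val_eq_of_eq e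
        have := (op ⟨i, hi⟩ ⟨d, v⟩).2
        simp only [Fin.val_castLE] at *
        omega
      · have := mod_inj (by omega) (by omega) (Nat.add_left_cancel (Fin.mk.inj e))
        omega
    · simp only [f, dif_pos hi, dif_pos hj] at e
      split_ifs at e with u
      · exact Fin.mk.inj (q.r _ (Fin.castLE_injective le e))
      · have := Nat.add_left_cancel (Fin.mk.inj e)
        rw [add_comm i, add_comm j] at this
        exact mod_inj (by omega) (by omega) this
  obtain ⟨g, g1, g2⟩ := r.full (n - m) (by omega)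
  rw [show m + (n - m) = n by omega] at g1
  refine ⟨fun i => g i, ⟨fun i => g1.1 i i.2, fun c i j e => Fin.ext (g1.2 c i i.2 j j.2 e)⟩,
    fun k hk => (hs k hk).map (Fin.castLEEmb le) (Fin.castLEEmb le) (Fin.castLEEmb le)
      fun x y => ?_⟩
  change g x _ = _
  rw [g2 x x.2]
  simp [f]

end Pool.Agent.MP_3df3be_co
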