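import Pool.Agent.MP_3df3be_co.Low1
import Pool.Agent.MP_3df3be_co.Tab

/-! Weights `a` and `a + 1` on the points of an affine space over the field with five elements. -/

set_option linter.unusedSectionVars false

namespace Pool.Agent.MP_3df3be_co

open Finset

theorem tb_ok {a k p q : ℕ} (a1 : 1 ≤ a) (a4 : a ≤ 4) (hk : k ≤ 5) (hp : p < 25) (hq : q < 25)
    (vp : vl a k p = true) (vq : vl a k q = true) (n : p / 5 ≠ q / 5) :
    (tb a k p q < 25 ∧ vl a k (tb a k p q) = true ∧ tb a k p q / 5 ≠ p / 5 ∧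
      tb a k p q / 5 ≠ q / 5) ∧ ∀ r < q, vl a k r = true → p / 5 ≠ r / 5 →
        tb a k p r ≠ tb a k p q ∧ tb a k r p ≠ tb a k q p := by
  have h := chk_all
  simp only [List.all_eq_true, List.mem_range] at h
  have h := h (a - 1) (by omega) k (by omega)
  rw [show a - 1 + 1 = a by omega, chk] at h
  simp only [List.all_eq_true, List.mem_range] at h
  have h := h p hp q hq
  simp only [vp, vq, Bool.true_and, Bool.or_eq_true, Bool.not_eq_true', bne_eq_false_iff_eq, n,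
    false_or, Bool.and_eq_true, decide_eq_true_eq, bne_iff_ne, List.all_eq_true,
    List.mem_range] at h
  refine ⟨⟨h.1.1.1.1, h.1.1.1.2, h.1.1.2, h.1.2⟩, fun r hr vr m => (h.2 r hr).resolve_left ?_⟩
  simp [vr, m]

variable {V : Type} [DecidableEq V]

theorem sort5 (l : Finset V) (S : V → Prop) [DecidablePred S] (h : #l = 5) :
    ∃ (k : ℕ) (e : ℕ → V) (i : V → ℕ), k ≤ 5 ∧ (∀ u < 5, e u ∈ l ∧ i (e u) = u ∧ (S (e u) ↔ u < k)) ∧
      ∀ x ∈ l, i x < 5 ∧ e (i x) = x := by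
  obtain ⟨x₀, -⟩ := card_pos.1 (show 0 < #l by omega)
  have c := card_filter_add_card_filter_not (s := l) S
  set L := (l.filter S).toList ++ (l.filter fun x => ¬S x).toList with hL
  have len : L.length = 5 := by rw [hL, List.length_append, length_toList, length_toList, c, h]
  have mem : ∀ x, x ∈ L ↔ x ∈ l := fun x => by
    simp only [hL, List.mem_append, mem_toList, mem_filter]
    tauto
  have nd : L.Nodup := List.Nodup.append (nodup_toList _) (nodup_toList _) fun x h1 h2 =>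
    (mem_filter.1 (mem_toList.1 h2)).2 (mem_filter.1 (mem_toList.1 h1)).2
  refine ⟨#(l.filter S), fun u => L.getD u x₀, L.idxOf, by omega, fun u hu => ?_, fun x hx => ?_⟩
  · have hu' : u < L.length := by omega
    dsimp only
    rw [List.getD_eq_getElem _ _ hu']
    refine ⟨(mem _).1 (List.getElem_mem hu'), nd.idxOf_getElem u hu', ?_⟩
    simp only [hL, List.getElem_append, length_toList]
    split_ifs with v
    · exact iff_of_true (mem_filter.1 (mem_toList.1 (List.getElem_mem _))).2 v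
    · exact iff_of_false (mem_filter.1 (mem_toList.1
        (List.getElem_mem (l := (l.filter fun x => ¬S x).toList) _))).2 v
  · have := List.idxOf_lt_length_of_mem ((mem x).2 hx)
    dsimp only
    rw [List.getD_eq_getElem _ _ this]
    exact ⟨by omega, List.getElem_idxOf _⟩

/-- The cells outside the holes over a set `l` of points with weights `w`. -/
structure Ing (w : V → ℕ) (l : Finset V) (f : V × ℕ → V × ℕ → V × ℕ) : Prop where
  cl : ∀ p q, p.1 ∈ l → q.1 ∈ l → p.2 < w p.1 → q.2 < w q.1 → p.1 ≠ q.1 →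
    (f p q).1 ∈ l ∧ (f p q).2 < w (f p q).1 ∧ (f p q).1 ≠ p.1 ∧ (f p q).1 ≠ q.1
  inj : ∀ p q r, p.1 ∈ l → q.1 ∈ l → r.1 ∈ l → p.2 < w p.1 → q.2 < w q.1 → r.2 < w r.1 →
    p.1 ≠ q.1 → p.1 ≠ r.1 → (f p r = f p q → r = q) ∧ (f r p = f q p → r = q)

theorem ing {a : ℕ} (a1 : 1 ≤ a) (a4 : a ≤ 4) (S : V → Prop) [DecidablePred S] (l : Finset V)
    (h : #l = 5) : ∃ f, Ing (fun x => a + if S x then 1 else 0) l f := by
  obtain ⟨k, e, i, hk, he, hi⟩ := sort5 l S h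
  have c : ∀ p : V × ℕ, p.1 ∈ l → (p.2 < a + if S p.1 then 1 else 0) → 5 * i p.1 + p.2 < 25 ∧
      vl a k (5 * i p.1 + p.2) = true ∧ (5 * i p.1 + p.2) / 5 = i p.1 := fun p h1 h2 => by
    obtain ⟨b1, b2⟩ := hi _ h1
    have b3 := (he _ b1).2.2
    have b4 : p.2 < 5 := by split_ifs at h2 <;> omega
    rw [b2] at b3
    rw [vl, decide_eq_true_eq, show (5 * i p.1 + p.2) / 5 = i p.1 by omega,
      show (5 * i p.1 + p.2) % 5 = p.2 by omega, ← if_congr b3 rfl rfl]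
    exact ⟨by omega, h2, rfl⟩
  have ne : ∀ x ∈ l, ∀ y ∈ l, i x = i y → x = y := fun x hx y hy u => by
    rw [← (hi x hx).2, u, (hi y hy).2]
  have dec : ∀ r < 25, ∀ s < 25, (e (r / 5), r % 5) = (e (s / 5), s % 5) → r = s :=
    fun r hr s hs u => by
      obtain ⟨u1, u2⟩ := Prod.mk.inj u
      have := congrArg i u1
      rw [(he _ (by omega)).2.1, (he _ (by omega)).2.1] at this
      omega
  refine ⟨fun p q => (e (tb a k (5 * i p.1 + p.2) (5 * i q.1 + q.2) / 5),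
    tb a k (5 * i p.1 + p.2) (5 * i q.1 + q.2) % 5), fun p q h1 h2 h3 h4 n => ?_,
    fun p q r h1 h2 h3 h4 h5 h6 n n' => ?_⟩
  · obtain ⟨p1, p2, p3⟩ := c p h1 h3
    obtain ⟨q1, q2, q3⟩ := c q h2 h4
    obtain ⟨t1, t2, t3, t4⟩ := (tb_ok a1 a4 hk p1 q1 p2 q2 (by
      rw [p3, q3]; exact fun u => n (ne _ h1 _ h2 u))).1
    generalize tb a k (5 * i p.1 + p.2) (5 * i q.1 + q.2) = t at *
    obtain ⟨s1, s2, s3⟩ := he (t / 5) (by omega)
    rw [vl, decide_eq_true_eq, ← if_congr s3 rfl rfl] at t2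
    exact ⟨s1, t2, fun u => t3 (by rw [p3, ← u, s2]), fun u => t4 (by rw [q3, ← u, s2])⟩
  · obtain ⟨p1, p2, p3⟩ := c p h1 h4
    obtain ⟨q1, q2, q3⟩ := c q h2 h5
    obtain ⟨r1, r2, r3⟩ := c r h3 h6
    have n1 : (5 * i p.1 + p.2) / 5 ≠ (5 * i q.1 + q.2) / 5 := by
      rw [p3, q3]; exact fun u => n (ne _ h1 _ h2 u)
    have n2 : (5 * i p.1 + p.2) / 5 ≠ (5 * i r.1 + r.2) / 5 := by
      rw [p3, r3]; exact fun u => n' (ne _ h1 _ h3 u)
    have t1 := tb_ok a1 a4 hk p1 q1 p2 q2 n1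
    have t2 := tb_ok a1 a4 hk p1 r1 p2 r2 n2
    have fin : 5 * i r.1 + r.2 = 5 * i q.1 + q.2 → r = q := fun u =>
      Prod.ext (ne _ h3 _ h2 (by omega)) (by omega)
    refine ⟨fun u => fin ?_, fun u => fin ?_⟩
    · have := dec _ t2.1.1 _ t1.1.1 u
      rcases lt_trichotomy (5 * i r.1 + r.2) (5 * i q.1 + q.2) with v | v | v
      exacts [absurd this (t1.2 _ v r2 n2).1, v, absurd this.symm (t2.2 _ v q2 n1).1]
    · have := dec _ (tb_ok a1 a4 hk r1 p1 r2 p2 n2.symm).1.1 _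
        (tb_ok a1 a4 hk q1 p1 q2 p2 n1.symm).1.1 u
      rcases lt_trichotomy (5 * i r.1 + r.2) (5 * i q.1 + q.2) with v | v | v
      exacts [absurd this (t1.2 _ v r2 n2).2, v, absurd this.symm (t2.2 _ v q2 n1).2]

instance fact5 : Fact (Nat.Prime 5) := ⟨by norm_num⟩

variable [AddCommGroup V] [Module (ZMod 5) V]

/-- The line through two points. -/
def ln (x y : V) : Finset V := univ.image fun t : ZMod 5 => x + t • (y - x)

theorem ln_card {x y : V} (h : x ≠ y) : #(ln x y) = 5 := by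
  rw [ln, card_image_of_injective _ fun s t e =>
    smul_left_injective (ZMod 5) (sub_ne_zero.2 h.symm) (add_left_cancel e)]
  rfl

theorem ln_l (x y : V) : x ∈ ln x y := mem_image.2 ⟨0, mem_univ _, by simp⟩

theorem ln_r (x y : V) : y ∈ ln x y := mem_image.2 ⟨1, mem_univ _, by simp⟩

theorem ln_eq {x y u v : V} (h : x ≠ y) (hu : u ∈ ln x y) (hv : v ∈ ln x y) (n : u ≠ v) :
    ln u v = ln x y := by
  refine eq_of_subset_of_card_le (fun z hz => ?_) (by rw [ln_card h, ln_card n])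
  obtain ⟨s, -, rfl⟩ := mem_image.1 hu
  obtain ⟨s', -, rfl⟩ := mem_image.1 hv
  obtain ⟨t, -, rfl⟩ := mem_image.1 hz
  exact mem_image.2 ⟨s + t * (s' - s), mem_univ _, by module⟩

theorem weights [Fintype V] {a : ℕ} (a1 : 1 ≤ a) (a4 : a ≤ 4) (S : V → Prop) [DecidablePred S] :
    ∃ n ≤ 5 * Fintype.card V, Hs n fun m => ∃ U : Finset V, (∀ x ∈ U, ∀ y ∈ U, ln x y ⊆ U) ∧
      m = a * #U + #(U.filter S) := by
  set w : V → ℕ := fun x => a + if S x then 1 else 0 with hw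
  have ex : ∀ l : Finset V, ∃ f, #l = 5 → Ing w l f := fun l => by
    by_cases h : #l = 5
    · exact (ing a1 a4 S l h).imp fun _ u _ => u
    · exact ⟨fun p _ => p, fun u => absurd u h⟩
  choose F hF using ex
  have w0 : ∀ x, 0 < w x := fun x => by simp only [hw]; omega
  let o : V × ℕ → V × ℕ → V × ℕ := fun p q =>
    if p.1 = q.1 then (p.1, (p.2 + q.2) % w p.1) else F (ln p.1 q.1) p q
  have o1 : ∀ p q : V × ℕ, p.1 = q.1 → o p q = (p.1, (p.2 + q.2) % w p.1) := fun p q h => if_pos h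
  have o2 : ∀ p q : V × ℕ, p.1 ≠ q.1 → o p q = F (ln p.1 q.1) p q := fun p q h => if_neg h
  have c : ∀ p q : V × ℕ, p.2 < w p.1 → q.2 < w q.1 → p.1 ≠ q.1 → (o p q).1 ∈ ln p.1 q.1 ∧
      (o p q).2 < w (o p q).1 ∧ (o p q).1 ≠ p.1 ∧ (o p q).1 ≠ q.1 := fun p q h1 h2 n => by
    rw [o2 p q n]
    exact (hF _ (ln_card n)).cl p q (ln_l _ _) (ln_r _ _) h1 h2 n
  have c' : ∀ p q : V × ℕ, p.2 < w p.1 → q.2 < w q.1 →
      (o p q).1 ∈ ln p.1 q.1 ∧ (o p q).2 < w (o p q).1 := fun p q h1 h2 => by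
    by_cases n : p.1 = q.1
    · rw [o1 p q n]; exact ⟨ln_l _ _, Nat.mod_lt _ (w0 _)⟩
    · exact ⟨(c p q h1 h2 n).1, (c p q h1 h2 n).2.1⟩
  have il : ∀ p q r : V × ℕ, p.2 < w p.1 → q.2 < w q.1 → r.2 < w r.1 → o p r = o p q → r = q := by
    intro p q r h1 h2 h3 e
    by_cases n : p.1 = q.1 <;> by_cases n' : p.1 = r.1
    · rw [o1 p q n, o1 p r n'] at e
      exact Prod.ext (n'.symm.trans n) (mod_inj (n' ▸ h3) (n ▸ h2) (Prod.mk.inj e).2)
    · exact absurd (by rw [e, o1 p q n]) (c p r h1 h3 n').2.2.1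
    · exact absurd (by rw [← e, o1 p r n']) (c p q h1 h2 n).2.2.1
    · have a := c p q h1 h2 n
      have b := c p r h1 h3 n'
      have l : ln p.1 r.1 = ln p.1 q.1 := (ln_eq n' (ln_l _ _) b.1 b.2.2.1.symm).symm.trans
        (e ▸ ln_eq n (ln_l _ _) a.1 a.2.2.1.symm)
      rw [o2 p q n, o2 p r n', l] at e
      exact ((hF _ (ln_card n)).inj p q r (ln_l _ _) (ln_r _ _) (l ▸ ln_r _ _) h1 h2 h3 n n').1 e
  have ir : ∀ p q r : V × ℕ, p.2 < w p.1 → q.2 < w q.1 → r.2 < w r.1 → o r p = o q p → r = q := by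
    intro p q r h1 h2 h3 e
    by_cases n : q.1 = p.1 <;> by_cases n' : r.1 = p.1
    · rw [o1 q p n, o1 r p n', add_comm r.2, add_comm q.2, n, n'] at e
      exact Prod.ext (n'.trans n.symm) (mod_inj (n' ▸ h3) (n ▸ h2) (Prod.mk.inj e).2)
    · exact absurd (by rw [e, o1 q p n, n]) (c r p h3 h1 n').2.2.2
    · exact absurd (by rw [← e, o1 r p n', n']) (c q p h2 h1 n).2.2.2
    · have a := c q p h2 h1 n
      have b := c r p h3 h1 n'
      have l : ln r.1 p.1 = ln q.1 p.1 := (ln_eq n' (ln_r _ _) b.1 b.2.2.2.symm).symm.trans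
        (e ▸ ln_eq n (ln_r _ _) a.1 a.2.2.2.symm)
      rw [o2 q p n, o2 r p n', l] at e
      exact ((hF _ (ln_card n)).inj p q r (ln_r _ _) (ln_l _ _) (l ▸ ln_l _ _) h1 h2 h3
        (Ne.symm n) (Ne.symm n')).2 e
  let j : (Σ x, Fin (w x)) → V × ℕ := fun p => (p.1, p.2)
  have j1 : Function.Injective j := fun p q e => by
    obtain ⟨x, u⟩ := p
    obtain ⟨y, v⟩ := q
    obtain ⟨rfl, e2⟩ := Prod.mk.inj e
    exact congrArg (Sigma.mk x) (Fin.ext e2)
  let op : (Σ x, Fin (w x)) → (Σ x, Fin (w x)) → Σ x, Fin (w x) := fun p q =>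
    ⟨(o (j p) (j q)).1, (o (j p) (j q)).2, (c' (j p) (j q) p.2.2 q.2.2).2⟩
  refine ⟨_, ?_, (ofType (op := op)
    ⟨fun p r q e => j1 (il (j p) (j q) (j r) p.2.2 q.2.2 r.2.2 (congrArg j e)),
      fun p r q e => j1 (ir (j p) (j q) (j r) p.2.2 q.2.2 r.2.2 (congrArg j e))⟩ rfl).mono ?_⟩
  · rw [Fintype.card_sigma, mul_comm]
    refine sum_le_card_nsmul _ _ _ fun x _ => ?_
    rw [Fintype.card_fin]
    simp only [hw]
    split_ifs <;> omega
  · rintro m ⟨U, hU, rfl⟩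
    have e : #(U.sigma fun x => (univ : Finset (Fin (w x)))) = a * #U + #(U.filter S) := by
      rw [card_sigma, card_filter, mul_comm, ← smul_eq_mul, ← sum_const, ← sum_add_distrib]
      exact sum_congr rfl fun x _ => by rw [card_univ, Fintype.card_fin]
    exact ⟨_, _, _, e, e, e, fun p hp q hq => mem_sigma.2 ⟨hU _ (mem_sigma.1 hp).1 _
      (mem_sigma.1 hq).1 (c' (j p) (j q) p.2.2 q.2.2).1, mem_univ _⟩⟩

end Pool.Agent.MP_3df3be_co
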