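import Pool.Agent.MP_3df3be_co.Low2

/-! Graphs of affine maps that meet one set in every number of points. -/

namespace Pool.Agent.MP_3df3be_co

open Finset

/-- Affine maps. -/
def Aff {ι κ : Type} (φ : (ι → ZMod 5) → κ → ZMod 5) : Prop :=
  ∀ x y (t : ZMod 5), φ (x + t • (y - x)) = φ x + t • (φ y - φ x)

/-- The set `S` avoids the origin and the unit vectors, and meets graphs in all small numbers of
points. -/
def Dig (s D : ℕ) : Prop := ∃ (ι : Type) (_ : Fintype ι) (_ : DecidableEq ι)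
  (S : (ι → ZMod 5) → (Fin (s + 1) → ZMod 5) → Bool), Fintype.card ι = D ∧ (∀ c, S 0 c = false) ∧
    (∀ i c, S (Pi.single i 1) c = false) ∧ ∀ j, 5 * j < 4 * 5 ^ D →
      ∃ φ, Aff φ ∧ ∑ x, (if S x (φ x) then 1 else 0) = j

theorem dig0 : Dig 0 1 := by
  refine ⟨Fin 1, inferInstance, inferInstance,
    fun x c => decide (2 ≤ (x 0).val ∧ (x 0).val < 2 + (c 0).val), rfl, by decide, by decide,
    fun j hj => ⟨fun _ _ => j, fun x y t => by simp, ?_⟩⟩
  have : j < 4 := by omega
  interval_cases j <;> decide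

theorem Dig.step {s D g : ℕ} (h : Dig s D) (hg : g ≤ D) (h1 : 1 ≤ D) : Dig (s + 1) (D + g) := by
  obtain ⟨ι, _, _, S, hc, s0, s1, hS⟩ := h
  obtain ⟨r⟩ : Nonempty (Fin g ↪ ι) := Function.Embedding.nonempty_of_card_le (by simpa [hc])
  have ex : ∀ N, ∃ B : Finset (Fin g → ZMod 5), 0 ∉ B ∧ (N < 5 ^ g → #B = N) := fun N => by
    by_cases u : N < 5 ^ g
    · obtain ⟨B, b1, b2⟩ := exists_subset_card_eq (s := univ.erase (0 : Fin g → ZMod 5)) (n := N)
        (by rw [card_erase_of_mem (mem_univ _), card_univ]; simp; omega)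
      exact ⟨B, fun v => notMem_erase _ _ (b1 v), fun _ => b2⟩
    · exact ⟨∅, notMem_empty _, fun v => absurd v u⟩
  choose B b0 b1 using ex
  have z : ∀ i : ι, (0 : ι → ZMod 5) ≠ Pi.single i 1 := fun i e => by
    simpa using congrFun e i
  refine ⟨ι ⊕ Fin g, inferInstance, inferInstance, fun x c => S (x ∘ Sum.inl) (Fin.tail c) ||
    decide (∃ k : Fin g, x ∘ Sum.inl = Pi.single (r k) 1 ∧ x ∘ Sum.inr ∈ B ((c 0).val * 5 ^ k.1)),
    by simp [hc], fun c => ?_, fun i c => ?_, fun j hj => ?_⟩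
  · exact Bool.or_eq_false_iff.2 ⟨s0 _, decide_eq_false fun ⟨k, u, _⟩ => z _ u⟩
  · rcases i with i | i
    · have e1 : (Pi.single (Sum.inl i) 1 : ι ⊕ Fin g → ZMod 5) ∘ Sum.inl = Pi.single i 1 := by
        funext a; simp [Pi.single_apply]
      have e2 : (Pi.single (Sum.inl i) 1 : ι ⊕ Fin g → ZMod 5) ∘ Sum.inr = 0 := by
        funext a; simp
      simp only [e1, e2, s1, b0, and_false, exists_false, decide_false, Bool.or_false]
    · have e1 : (Pi.single (Sum.inr i) 1 : ι ⊕ Fin g → ZMod 5) ∘ Sum.inl = 0 := by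
        funext a; simp
      simp only [e1, s0, z, false_and, exists_false, decide_false, Bool.or_false]
  have p : 0 < 5 ^ g := by positivity
  obtain ⟨φ, a1, a2⟩ := hS (j / 5 ^ g) (by
    obtain ⟨D, rfl⟩ : ∃ E, D = E + 1 := ⟨D - 1, by omega⟩
    have : j / 5 ^ g < 4 * 5 ^ D := (Nat.div_lt_iff_lt_mul p).2 (by
      rw [pow_add, pow_succ] at hj; nlinarith)
    rw [pow_succ]; omega)
  let t : Fin g → ZMod 5 := finFunctionFinEquiv.symm ⟨j % 5 ^ g, Nat.mod_lt _ p⟩
  have ht : ∑ k : Fin g, (t k).val * 5 ^ k.1 = j % 5 ^ g :=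
    congrArg Fin.val (finFunctionFinEquiv.apply_symm_apply ⟨j % 5 ^ g, Nat.mod_lt _ p⟩)
  refine ⟨fun x => Fin.cons (∑ k, t k * x (Sum.inl (r k))) (φ (x ∘ Sum.inl)), fun x y u => ?_, ?_⟩
  · funext c
    refine Fin.cases ?_ (fun c => ?_) c
    · simp only [Fin.cons_zero, Pi.add_apply, Pi.smul_apply, Pi.sub_apply, smul_eq_mul,
        ← sum_sub_distrib, mul_sum, ← sum_add_distrib]
      exact sum_congr rfl fun k _ => by ring
    · exact congrFun (a1 (x ∘ Sum.inl) (y ∘ Sum.inl) u) c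
  rw [← (Equiv.sumArrowEquivProdArrow ι (Fin g) (ZMod 5)).symm.sum_comp, Fintype.sum_prod_type,
    ← Nat.div_add_mod' j (5 ^ g), ← a2, ← ht, sum_mul]
  have e : ∑ k : Fin g, (t k).val * 5 ^ k.1 = ∑ x : ι → ZMod 5, ∑ k : Fin g,
      if x = Pi.single (r k) 1 then (t k).val * 5 ^ k.1 else 0 := by
    rw [sum_comm]; simp
  rw [e, ← sum_add_distrib]
  refine sum_congr rfl fun x _ => ?_
  change ∑ y : Fin g → ZMod 5, (if (S x (φ x) || decide (∃ k : Fin g, x = Pi.single (r k) 1 ∧
    y ∈ B ((∑ k, t k * x (r k)).val * 5 ^ k.1))) = true then 1 else 0) = _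
  by_cases u : ∃ k, x = Pi.single (r k) 1
  · obtain ⟨k, rfl⟩ := u
    have i1 : ∀ l, (Pi.single (r k) 1 : ι → ZMod 5) = Pi.single (r l) 1 ↔ l = k := fun l =>
      ⟨fun v => by_contra fun n => by
        simpa [Pi.single_apply, Ne.symm n] using congrFun v (r k), fun v => by rw [v]⟩
    have i2 : ∑ l, t l * (Pi.single (r k) 1 : ι → ZMod 5) (r l) = t k := by
      simp [Pi.single_apply]
    have i3 : (t k).val * 5 ^ k.1 < 5 ^ g := by
      have h1 : (t k).val < 5 := ZMod.val_lt _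
      have h2 : 5 ^ (k.1 + 1) ≤ 5 ^ g := Nat.pow_le_pow_right (by norm_num) k.2
      have h3 : 0 < 5 ^ k.1 := by positivity
      rw [pow_succ] at h2
      nlinarith
    simp [s1, i1, i2, b1 _ i3]
  · have i1 : ∀ k, x ≠ Pi.single (r k) 1 := fun k v => u ⟨k, v⟩
    simp [i1]

theorem dig (s : ℕ) : ∀ D, 1 ≤ D → D ≤ 2 ^ s → Dig s D := by
  induction s with
  | zero => intro D h1 h2; rw [show D = 1 by omega]; exact dig0
  | succ s ih =>
    intro D h1 h2
    rw [show D = D - D / 2 + D / 2 by omega]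
    exact (ih _ (by omega) (by rw [pow_succ] at h2; omega)).step (by omega) (by omega)

theorem win {s D a : ℕ} (h : Dig s D) (a1 : 1 ≤ a) (a4 : a ≤ 4) (b : Bool) :
    Hs (10 * 5 ^ (D + s + 1)) fun m => ∃ j, 5 * j < 4 * 5 ^ D ∧
      m = a * 5 ^ D + if b then j else 5 ^ D - j := by
  obtain ⟨ι, _, _, S, hc, -, -, hS⟩ := h
  obtain ⟨n, h1, h2⟩ := weights (V := (ι → ZMod 5) × (Fin (s + 1) → ZMod 5)) a1 a4
    fun p => S p.1 p.2 = b
  refine (h2.embed ?_).mono ?_
  · simp only [Fintype.card_prod, Fintype.card_pi, ZMod.card, prod_const, card_univ, hc,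
      Fintype.card_fin, ← pow_add, ← add_assoc] at h1
    omega
  · rintro m ⟨j, hj, rfl⟩
    obtain ⟨φ, p1, p2⟩ := hS j hj
    have i : Function.Injective fun x => (x, φ x) := fun x y e => (Prod.mk.inj e).1
    have c : #(univ : Finset (ι → ZMod 5)) = 5 ^ D := by simp [hc]
    refine ⟨univ.image fun x => (x, φ x), fun u hu v hv z hz => ?_, ?_⟩
    · obtain ⟨x, -, rfl⟩ := mem_image.1 hu
      obtain ⟨y, -, rfl⟩ := mem_image.1 hv
      obtain ⟨t, -, rfl⟩ := mem_image.1 hz
      exact mem_image.2 ⟨x + t • (y - x), mem_univ _, Prod.ext rfl (p1 x y t)⟩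
    · rw [filter_image, card_image_of_injective _ i, card_image_of_injective _ i, c]
      rw [← card_filter] at p2
      have := card_filter_add_card_filter_not (s := univ) fun x => S x (φ x) = true
      cases b
      · simp only [Bool.not_eq_true] at this
        simp only [Bool.false_eq_true, if_false]
        omega
      · simp only [if_true, p2]

theorem all (s D : ℕ) (h : D ≤ 2 ^ s) :
    Hs (10 * 5 ^ (D + s + 2)) fun m => 1 ≤ m ∧ m < 5 ^ (D + 1) := by
  have e : 10 * 5 ^ (D + s + 2) = 5 * (10 * 5 ^ (D + s + 1)) := by ring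
  rw [e]
  induction D with
  | zero =>
    have p : 0 < 5 ^ (0 + s + 1) := by positivity
    refine (host (P := fun i _ m => m = i.val) fun i _ => (single _).embed (by
      have : i.val < 5 := ZMod.val_lt _
      omega)).mono fun m hm => ⟨m, 0, (ZMod.val_cast_of_lt (by simpa using hm.2)).symm⟩
  | succ D ih =>
    refine (host (P := fun i j m => if i = 0 then 1 ≤ m ∧ m < 5 ^ (D + 1) else
      ∃ k, 5 * k < 4 * 5 ^ (D + 1) ∧ m = i.val * 5 ^ (D + 1) +
        if decide (j = 0) then k else 5 ^ (D + 1) - k) fun i j => ?_).mono fun m hm => ?_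
    · by_cases u : i = 0
      · simp only [if_pos u]
        have := ih (by omega) (by ring)
        rwa [show 5 * (10 * 5 ^ (D + s + 1)) = 10 * 5 ^ (D + 1 + s + 1) by ring] at this
      · simp only [if_neg u]
        have : i.val < 5 := ZMod.val_lt _
        exact win (dig s _ (by omega) h) (Nat.pos_of_ne_zero fun v => u ((ZMod.val_eq_zero i).1 v))
          (by omega) _
    · by_cases u : m < 5 ^ (D + 1)
      · exact ⟨0, 0, by rw [if_pos rfl]; exact ⟨hm.1, u⟩⟩
      have h2 := hm.2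
      rw [pow_succ] at h2
      generalize 5 ^ (D + 1) = q at *
      have q0 : 0 < q := by omega
      have a5 : m / q < 5 := (Nat.div_lt_iff_lt_mul q0).2 (by omega)
      have a1 : 0 < m / q := Nat.div_pos (by omega) q0
      have v : ((m / q : ℕ) : ZMod 5).val = m / q := ZMod.val_cast_of_lt a5
      have n : ((m / q : ℕ) : ZMod 5) ≠ 0 := fun w => by rw [w, ZMod.val_zero] at v; omega
      have d := Nat.div_add_mod' m q
      have l := Nat.mod_lt m q0
      by_cases w : 5 * (m % q) < 4 * q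
      · exact ⟨_, 0, by rw [if_neg n, v]; exact ⟨_, w, by simp [d]⟩⟩
      · exact ⟨_, 1, by
          rw [if_neg n, v]
          exact ⟨q - m % q, by omega, by rw [if_neg (by decide)]; omega⟩⟩

end Pool.Agent.MP_3df3be_co
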