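import Pool.Agent.MP_3df3be_co.Low3

/-! Squares of every order `n` with subsquares of all small orders. -/

namespace Pool.Agent.MP_3df3be_co

theorem lowN {n s : ℕ} (h : n ≤ 2 ^ 2 ^ s) : Hs n fun m => 1 ≤ m ∧ 500 * 5 ^ s * m ≤ n := by
  have p : 0 < 500 * 5 ^ s := by positivity
  by_cases u : n < 500 * 5 ^ s
  · exact (single n).mono fun m hm =>
      absurd ((Nat.le_mul_of_pos_right _ hm.1).trans hm.2) (by omega)
  have k0 : n / (500 * 5 ^ s) ≠ 0 := (Nat.div_pos (by omega) p).ne'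
  have k1 := Nat.pow_log_le_self 5 k0
  have k2 := Nat.lt_pow_succ_log_self (b := 5) (by omega) (n / (500 * 5 ^ s))
  generalize Nat.log 5 (n / (500 * 5 ^ s)) = D at k1 k2
  have k3 := (Nat.le_div_iff_mul_le p).1 k1
  have k4 : D ≤ 2 ^ s := (Nat.pow_le_pow_iff_right (a := 2) (by omega)).1
    ((Nat.pow_le_pow_left (by omega) D).trans (k1.trans ((Nat.div_le_self _ _).trans h)))
  refine ((all s D k4).embed ?_).mono fun m hm => ⟨hm.1, lt_of_le_of_lt ?_ k2⟩
  · rwa [show 2 * (10 * 5 ^ (D + s + 2)) = 5 ^ D * (500 * 5 ^ s) by ring]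
  · exact (Nat.le_div_iff_mul_le p).2 (mul_comm _ m ▸ hm.2)

theorem lowS {n : ℕ} (h : 2 ≤ n) : ∃ s, n ≤ 2 ^ 2 ^ s ∧ (2 : ℝ) ^ s ≤ 6 * Real.log n := by
  have a1 := Nat.le_pow_clog (b := 2) (by omega) n
  have a2 := Nat.pow_pred_clog_lt_self (b := 2) (by omega) (show 1 < n by omega)
  have a3 := Nat.clog_pos (b := 2) (by omega) (show 1 < n by omega)
  generalize Nat.clog 2 n = l at a1 a2 a3
  have b1 := Nat.le_pow_clog (b := 2) (by omega) l
  refine ⟨Nat.clog 2 l, a1.trans (Nat.pow_le_pow_right (by omega) b1), ?_⟩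
  have b2 : 2 ^ Nat.clog 2 l ≤ 2 * l := by
    rcases Nat.lt_or_ge 1 l with u | u
    · have := Nat.pow_pred_clog_lt_self (b := 2) (by omega) u
      have v := Nat.clog_pos (b := 2) (by omega) u
      generalize Nat.clog 2 l = s at *
      obtain ⟨s, rfl⟩ : ∃ t, s = t + 1 := ⟨s - 1, by omega⟩
      rw [Nat.pred_succ] at this
      omega
    · rw [Nat.clog_of_right_le_one u]
      omega
  obtain ⟨l, rfl⟩ : ∃ t, l = t + 1 := ⟨l - 1, by omega⟩
  rw [Nat.pred_succ] at a2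
  have c1 : Real.log (2 ^ l) ≤ Real.log n :=
    Real.log_le_log (by positivity) (by exact_mod_cast a2.le)
  have c2 : Real.log 2 ≤ Real.log n := Real.log_le_log two_pos (by exact_mod_cast h)
  have c3 := Real.log_two_gt_d9
  have c4 : (2 : ℝ) ^ Nat.clog 2 (l + 1) ≤ 2 * (l + 1) := by exact_mod_cast b2
  rw [Real.log_pow] at c1
  have : (0 : ℝ) ≤ l := Nat.cast_nonneg l
  nlinarith

theorem low {n : ℕ} (h : 2 ≤ n) : Hs n fun m => 1 ≤ m ∧
    (m : ℝ) * Real.log n ^ Real.logb 2 5 ≤ (500 * 6 ^ Real.logb 2 5)⁻¹ * n := by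
  obtain ⟨s, h1, h2⟩ := lowS h
  refine (lowN h1).mono fun m hm => ⟨hm.1, ?_⟩
  have a : 0 ≤ Real.logb 2 5 := Real.logb_nonneg (by norm_num) (by norm_num)
  have l : 0 ≤ Real.log n := Real.log_natCast_nonneg n
  have e : (5 : ℝ) ^ s ≤ 6 ^ Real.logb 2 5 * Real.log n ^ Real.logb 2 5 := by
    rw [← Real.mul_rpow (by norm_num) l]
    refine le_trans (le_of_eq ?_) (Real.rpow_le_rpow (by positivity) h2 a)
    rw [← Real.rpow_natCast 2, ← Real.rpow_mul (by norm_num), mul_comm,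
      Real.rpow_mul (by norm_num), Real.rpow_logb (by norm_num) (by norm_num) (by norm_num),
      Real.rpow_natCast]
  have k := hm.2
  rw [inv_mul_eq_div, le_div_iff₀ (by positivity)] at k
  have : (500 : ℝ) * 5 ^ s * m ≤ n := by
    refine le_trans ?_ k
    have := mul_le_mul_of_nonneg_left e (Nat.cast_nonneg (α := ℝ) m)
    linarith
  exact_mod_cast this

end Pool.Agent.MP_3df3be_co
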