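import Pool.Agent.MP_3df3be_co.So3

/-! Almost closed sets, and the almost closed hull of a large part of a family of closed sets. -/

set_option linter.unusedSectionVars false

namespace Pool.Agent.MP_3df3be_co.So

open Finset
open scoped BigOperators

section
variable {α ι : Type}

/-- The mean over pairs. -/
noncomputable def e2 (D : Finset α) (k : α → α → ℝ) : ℝ := 𝔼 x ∈ D, 𝔼 y ∈ D, k x y

variable {D : Finset α} {k k' : α → α → ℝ}

theorem e2_add (D : Finset α) (k k' : α → α → ℝ) :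
    e2 D (fun x y => k x y + k' x y) = e2 D k + e2 D k' := by
  simp only [e2, expect_add_distrib]

theorem e2_sub (D : Finset α) (k k' : α → α → ℝ) :
    e2 D (fun x y => k x y - k' x y) = e2 D k - e2 D k' := by
  simp only [e2, expect_sub_distrib]

theorem e2_mul (D : Finset α) (a : ℝ) (k : α → α → ℝ) :
    e2 D (fun x y => a * k x y) = a * e2 D k := by
  simp only [e2, mul_expect]

theorem e2_const (ne : D.Nonempty) (a : ℝ) : e2 D (fun _ _ => a) = a := by
  simp only [e2, expect_const ne]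

theorem e2_le (h : ∀ x ∈ D, ∀ y ∈ D, k x y ≤ k' x y) : e2 D k ≤ e2 D k' :=
  expect_le_expect fun x hx => expect_le_expect (h x hx)

theorem e2_xy (D : Finset α) (f g : α → ℝ) :
    e2 D (fun x y => f x * g y) = (𝔼 x ∈ D, f x) * 𝔼 x ∈ D, g x :=
  (expect_mul_expect D D f g).symm

theorem e2_ex (D : Finset α) (Y : Finset ι) (k : ι → α → α → ℝ) :
    e2 D (fun x y => 𝔼 l ∈ Y, k l x y) = 𝔼 l ∈ Y, e2 D (k l) := by
  unfold e2
  rw [expect_comm Y]
  exact expect_congr rfl fun x _ => expect_comm _ _ _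

/-- The mean of a family of functions. -/
noncomputable def av (φ : ι → α → ℝ) (Y : Finset ι) (x : α) : ℝ := 𝔼 l ∈ Y, φ l x

theorem ip_av (T : Finset α) (φ : ι → α → ℝ) (Y : Finset ι) (g : α → ℝ) :
    ip T g (av φ Y) = 𝔼 l ∈ Y, ip T g (φ l) := by
  simp only [ip, av, mul_expect]
  exact expect_comm _ _ _

theorem abs_av {φ : ι → α → ℝ} (h : ∀ l x, |φ l x| ≤ 1) (Y : Finset ι) (x : α) :
    |av φ Y x| ≤ 1 := by
  rcases Y.eq_empty_or_nonempty with rfl | ne
  · simp [av]
  · exact abs_le.2 ⟨le_expect ne fun l _ => (abs_le.1 (h l x)).1,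
      expect_le ne fun l _ => (abs_le.1 (h l x)).2⟩

/-- A large part of a family is concentrated against every test function. -/
theorem stab (T : Finset α) (φ : ι → α → ℝ) (h : ∀ l x, |φ l x| ≤ 1) (V : Finset ι)
    (ne : V.Nonempty) {w : ℝ} (w0 : 0 < w) : ∃ Y ⊆ V, Y.Nonempty ∧
      (#V : ℝ) ≤ Real.exp (4 / w ^ 2) * #Y ∧ ∀ g, ip T g g ≤ 1 →
        ∑ l ∈ Y, |ip T g (φ l) - ip T g (av φ Y)| ≤ w * #Y := by
  classical
  obtain ⟨Y, hY, mx⟩ := exists_max_image {Y ∈ V.powerset | Y.Nonempty}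
    (fun Y => (#Y : ℝ) * Real.exp (4 / w ^ 2 * ip T (av φ Y) (av φ Y)))
    ⟨V, mem_filter.2 ⟨mem_powerset_self V, ne⟩⟩
  obtain ⟨s, n⟩ := mem_filter.1 hY
  rw [mem_powerset] at s
  have L0 : 0 < 4 / w ^ 2 := by positivity
  have n0 : (0 : ℝ) < #Y := by exact_mod_cast n.card_pos
  refine ⟨Y, s, n, ?_, fun g hg => ?_⟩
  · have a := mx V (mem_filter.2 ⟨mem_powerset_self V, ne⟩)
    have b := Real.one_le_exp (mul_nonneg L0.le (ip_nonneg T (av φ V)))
    have c := Real.exp_le_exp.2
      (mul_le_of_le_one_right L0.le (ip_le_one (T := T) (abs_av h Y)))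
    nlinarith [mul_le_mul_of_nonneg_left b (Nat.cast_nonneg (α := ℝ) #V),
      mul_le_mul_of_nonneg_left c n0.le]
  set d : ι → ℝ := fun l => ip T g (φ l) - ip T g (av φ Y) with hd
  have sm : ∀ Z : Finset ι, ∑ l ∈ Z, d l = #Z * (ip T g (av φ Z) - ip T g (av φ Y)) := fun Z => by
    rw [mul_sub, ip_av T φ Z, card_mul_expect, sum_sub_distrib, sum_const, nsmul_eq_mul]
  have s0 := sm Y
  rw [sub_self, mul_zero] at s0
  have s1 := sum_filter_add_sum_filter_not Y (fun l => 0 < d l) d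
  have s2 : ∑ l ∈ Y, |d l| = ∑ l ∈ Y with 0 < d l, d l - ∑ l ∈ Y with ¬0 < d l, d l := by
    rw [← sum_filter_add_sum_filter_not Y (fun l => 0 < d l), sub_eq_add_neg, ← sum_neg_distrib]
    congr 1
    · exact sum_congr rfl fun l hl => abs_of_pos (mem_filter.1 hl).2
    · exact sum_congr rfl fun l hl => abs_of_nonpos (not_lt.1 (mem_filter.1 hl).2)
  rw [s2]
  have p : 0 ≤ w * #Y := by positivity
  rcases ({l ∈ Y | 0 < d l} : Finset ι).eq_empty_or_nonempty with u | u
  · rw [u, sum_empty] at s1 ⊢; linarith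
  rcases ({l ∈ Y | ¬0 < d l} : Finset ι).eq_empty_or_nonempty with v | v
  · rw [v, sum_empty] at s1 ⊢; linarith
  have cn : (#{l ∈ Y | 0 < d l} : ℝ) + #{l ∈ Y | ¬0 < d l} = #Y := by
    exact_mod_cast card_filter_add_card_filter_not (s := Y) fun l => 0 < d l
  have pw : ∀ x, (#{l ∈ Y | 0 < d l} : ℝ) * av φ {l ∈ Y | 0 < d l} x +
      #{l ∈ Y | ¬0 < d l} * av φ {l ∈ Y | ¬0 < d l} x = #Y * av φ Y x := fun x => by
    simp only [av, card_mul_expect]
    exact sum_filter_add_sum_filter_not _ _ _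
  have bd : ∀ Z ⊆ Y, Z.Nonempty → (#Z : ℝ) + 4 / w ^ 2 *
      (#Z * ip T (av φ Z) (av φ Z) - #Z * ip T (av φ Y) (av φ Y)) ≤ #Y := fun Z z m => by
    have a := mx Z (mem_filter.2 ⟨mem_powerset.2 (z.trans s), m⟩)
    have b := Real.add_one_le_exp (4 / w ^ 2 * ip T (av φ Z) (av φ Z) -
      4 / w ^ 2 * ip T (av φ Y) (av φ Y))
    rw [Real.exp_sub, le_div_iff₀ (Real.exp_pos _)] at b
    refine le_of_mul_le_mul_right ?_ (Real.exp_pos (4 / w ^ 2 * ip T (av φ Y) (av φ Y)))
    nlinarith [mul_le_mul_of_nonneg_left b (Nat.cast_nonneg (α := ℝ) #Z)]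
  have b1 := bd _ (filter_subset _ Y) u
  have b2 := bd _ (filter_subset _ Y) v
  have sm1 := sm {l ∈ Y | 0 < d l}
  generalize ({l ∈ Y | 0 < d l} : Finset ι) = Y1 at *
  generalize ({l ∈ Y | ¬0 < d l} : Finset ι) = Y2 at *
  have n1 : (0 : ℝ) ≤ #Y1 := Nat.cast_nonneg _
  have n2 : (0 : ℝ) ≤ #Y2 := Nat.cast_nonneg _
  have pa : #Y * ip T (av φ Y) (av φ Y) + #Y1 * ip T (fun x => 1 * av φ Y1 x + -1 * av φ Y x)
      (fun x => 1 * av φ Y1 x + -1 * av φ Y x) ≤
      #Y1 * ip T (av φ Y1) (av φ Y1) + #Y2 * ip T (av φ Y2) (av φ Y2) := by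
    simp only [ip, mul_expect, ← expect_add_distrib]
    refine expect_le_expect fun x _ => ?_
    have a := pw x
    rw [← cn] at a ⊢
    nlinarith [mul_nonneg n2 (sq_nonneg (av φ Y2 x - av φ Y x)), congrArg (· * av φ Y x) a]
  have c1 := cs T g fun x => 1 * av φ Y1 x + -1 * av φ Y x
  rw [ip_lin] at c1
  have c2 := ip_nonneg T fun x => 1 * av φ Y1 x + -1 * av φ Y x
  generalize ip T (fun x => 1 * av φ Y1 x + -1 * av φ Y x)
    (fun x => 1 * av φ Y1 x + -1 * av φ Y x) = N at *
  have c3 : 4 / w ^ 2 * (#Y1 * N) ≤ #Y := by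
    rw [← cn] at pa
    nlinarith [mul_le_mul_of_nonneg_left pa L0.le]
  rw [div_mul_eq_mul_div, div_le_iff₀ (by positivity)] at c3
  have c4 : (ip T g (av φ Y1) - ip T g (av φ Y)) ^ 2 ≤ N := by nlinarith
  have c5 : (2 * ∑ l ∈ Y1, d l) ^ 2 ≤ (w * #Y) ^ 2 := by
    rw [sm1]
    have a := mul_le_mul_of_nonneg_left c4 (mul_nonneg n1 n1)
    have b := mul_le_mul c3 (show (#Y1 : ℝ) ≤ #Y by linarith) n1 (by positivity)
    nlinarith
  linarith [(abs_le_of_sq_le_sq' c5 p).2]

end

variable {X ι : Type} [DecidableEq X] {op : X → X → X} {A : ι → Finset X} {D H H' : Finset X}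

theorem e2_xz (q : Qg op) (hD : Cl op D) (k : X → X → ℝ) :
    e2 D (fun x y => k x (op x y)) = e2 D k :=
  expect_congr rfl fun x hx => shiftL q hD hx (k x)

theorem e2_yz (q : Qg op) (hD : Cl op D) (k : X → X → ℝ) :
    e2 D (fun x y => k y (op x y)) = e2 D k := by
  unfold e2
  rw [expect_comm]
  exact expect_congr rfl fun y hy => shiftR q hD hy (k y)

/-- The probability that a product of two elements of `H` is not in `H`. -/
noncomputable def gap (op : X → X → X) (D H : Finset X) : ℝ :=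
  e2 D fun x y => one H x * one H y * (1 - one H (op x y))

/-- An almost closed set is almost everything or at most about half of another one. -/
theorem hv (q : Qg op) (hD : Cl op D) (H H' : Finset X) :
    0 ≤ (dn D H - dn D (H ∩ H')) * (dn D H - 2 * dn D (H ∩ H')) +
      9 * (gap op D H + gap op D H') := by
  have a1 : ∀ B C : Finset X, e2 D (fun x y => one B x * one C y) = dn D B * dn D C :=
    fun B C => by rw [e2_xy, ex_one, ex_one]
  have a2 : ∀ B C : Finset X, e2 D (fun x y => one B x * one C (op x y)) = dn D B * dn D C :=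
    fun B C => (e2_xz q hD fun x y => one B x * one C y).trans (a1 B C)
  have a3 : ∀ B C : Finset X, e2 D (fun x y => one B y * one C (op x y)) = dn D B * dn D C :=
    fun B C => (e2_yz q hD fun x y => one B x * one C y).trans (a1 B C)
  have k := e2_le (D := D) (k := fun x y => one (H ∩ H') x * one H y + one H x * one (H ∩ H') y +
      one H x * one (H ∩ H') (op x y) + 5 * (one H x * one H y) + 6 * (one H' x * one H' y))
    (k' := fun x y => one (H ∩ H') y * one (H ∩ H') (op x y) +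
      one (H ∩ H') x * one (H ∩ H') (op x y) +
      9 * (one H x * one H y * (1 - one H (op x y))) + 3 * (one H x * one H (op x y)) +
      3 * (one H y * one H (op x y)) + 9 * (one H' x * one H' y * (1 - one H' (op x y))) +
      3 * (one H' x * one H' (op x y)) + 3 * (one H' y * one H' (op x y))) fun x _ y _ => by
    simp only [← one_mul_one]
    unfold one
    split_ifs <;> norm_num
  simp only [e2_add, e2_mul, a1, a2, a3] at k
  unfold gap
  linarith

end Pool.Agent.MP_3df3be_co.So
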