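import Pool.Agent.MP_3df3be_co.Pl1

/-! The almost closed hull of a large part of a family of closed sets. -/

set_option linter.unusedSectionVars false

namespace Pool.Agent.MP_3df3be_co.So

open Finset
open scoped BigOperators

variable {X ι : Type} [DecidableEq X] {op : X → X → X} {A : ι → Finset X} {D H H' : Finset X}
  {Y : Finset ι}

theorem one_nonneg (B : Finset X) (x : X) : 0 ≤ one B x := by unfold one; split_ifs <;> norm_num

theorem dn_sd (D H B : Finset X) : dn D (D \ H ∩ B) = dn D (B \ H) := by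
  unfold dn
  congr 3
  ext x
  simp only [mem_inter, mem_sdiff]
  tauto

theorem dn_split (D B H : Finset X) : dn D B = dn D (B ∩ H) + dn D (B \ H) := by
  unfold dn
  rw [← add_div, ← inter_assoc, ← inter_sdiff_assoc]
  congr 1
  exact_mod_cast (card_inter_add_card_sdiff (D ∩ B) H).symm

theorem dn_mono {B C : Finset X} (D : Finset X) (h : B ⊆ C) : dn D B ≤ dn D C :=
  div_le_div_of_nonneg_right (by exact_mod_cast card_le_card (inter_subset_inter_left h))
    (Nat.cast_nonneg _)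

/-- The mean indicator of a concentrated family is almost multiplicative. -/
theorem prod3 (q : Qg op) (hD : Cl op D) (ne : D.Nonempty) (hA : ∀ i, Cl op (A i))
    (n : Y.Nonempty) {ω : ℝ} (ω0 : 0 < ω) (F : X → ℝ) (hF : F = av (fun l => one (A l)) Y)
    (st : ∀ g, ip D g g ≤ 1 → ∑ l ∈ Y, |ip D g (one (A l)) - ip D g F| ≤ ω ^ 2 / 2 * #Y) :
    e2 D (fun x y => |F x * F y - F x * F (op x y)|) ≤ 2 * ω ∧
      e2 D (fun x y => |F x * F y - F y * F (op x y)|) ≤ 2 * ω := by
  have n0 : (0 : ℝ) < #Y := by exact_mod_cast n.card_pos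
  have F1 : ∀ x, |F x| ≤ 1 := hF ▸ abs_av (fun l => abs_one (A l)) Y
  let G : X → X → ℝ := fun x y => 𝔼 l ∈ Y, one (A l) x * one (A l) y
  have var : ∀ g : X → ℝ, (∀ x, |g x| ≤ 1) →
      0 ≤ e2 D (fun x y => (G x y - F x * F y) * (g x * g y)) ∧
      e2 D (fun x y => (G x y - F x * F y) * (g x * g y)) ≤ ω ^ 2 := fun g hg => by
    have m : 𝔼 l ∈ Y, ip D g (one (A l)) = ip D g F := by rw [hF, ip_av]
    have e : e2 D (fun x y => (G x y - F x * F y) * (g x * g y)) =
        𝔼 l ∈ Y, (ip D g (one (A l)) - ip D g F) ^ 2 := by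
      have a : e2 D (fun x y => (G x y - F x * F y) * (g x * g y)) = e2 D fun x y =>
          (𝔼 l ∈ Y, g x * one (A l) x * (g y * one (A l) y)) - g x * F x * (g y * F y) := by
        congr 1
        ext x y
        rw [sub_mul, expect_mul]
        congr 1
        · exact expect_congr rfl fun l _ => by ring
        · ring
      have b : ∀ l, (ip D g (one (A l)) - ip D g F) ^ 2 = ip D g (one (A l)) * ip D g (one (A l)) -
          2 * ip D g F * ip D g (one (A l)) + ip D g F ^ 2 := fun l => by ring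
      rw [a, e2_sub, e2_ex]
      simp only [b, expect_add_distrib, expect_sub_distrib, ← mul_expect, expect_const n, m]
      rw [e2_xy D (fun x => g x * F x) fun x => g x * F x, expect_congr rfl fun l _ =>
        e2_xy D (fun x => g x * one (A l) x) fun x => g x * one (A l) x]
      simp only [ip]
      ring
    rw [e]
    refine ⟨expect_nonneg fun _ _ => sq_nonneg _, ?_⟩
    have a := st g (ip_le_one hg)
    have b : ∑ l ∈ Y, (ip D g (one (A l)) - ip D g F) ^ 2 ≤
        ∑ l ∈ Y, 2 * |ip D g (one (A l)) - ip D g F| := sum_le_sum fun l _ => by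
      have u := abs_ip_le (T := D) (ip_le_one hg) (ip_le_one (abs_one (A l)))
      have v := abs_ip_le (T := D) (ip_le_one hg) (ip_le_one F1)
      have w := abs_sub (ip D g (one (A l))) (ip D g F)
      rw [← sq_abs]
      nlinarith [abs_nonneg (ip D g (one (A l)) - ip D g F)]
    rw [← mul_sum] at b
    rw [expect_eq_sum_div_card, div_le_iff₀ n0]
    linarith
  have hs : e2 D (fun x y => (G x y - F x * F y) ^ 2) ≤ ω ^ 2 := by
    have a : e2 D (fun x y => (G x y - F x * F y) ^ 2) = e2 D fun x y =>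
        (𝔼 k ∈ Y, (G x y - F x * F y) * (one (A k) x * one (A k) y)) -
          (G x y - F x * F y) * (F x * F y) := by
      congr 1
      ext x y
      rw [← mul_expect]
      ring
    rw [a, e2_sub, e2_ex]
    linarith [expect_le n fun k _ => (var _ (abs_one (A k))).2, (var F F1).1]
  have l1 : e2 D (fun x y => |G x y - F x * F y|) ≤ ω := by
    have a := e2_le (D := D) (k := fun x y => 2 * ω * |G x y - F x * F y|)
      (k' := fun x y => (G x y - F x * F y) ^ 2 + ω ^ 2) fun x _ y _ => by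
        rw [← sq_abs]
        nlinarith [sq_nonneg (|G x y - F x * F y| - ω)]
    rw [e2_mul, e2_add, e2_const ne] at a
    nlinarith
  have g1 : ∀ x y, G x (op x y) = G x y := fun x y => expect_congr rfl fun l _ => by
    by_cases u : x ∈ A l
    · rw [one_op q (hA l) u]
    · simp [one, u]
  have g2 : ∀ x y, G y (op x y) = G x y := fun x y => expect_congr rfl fun l _ => by
    by_cases u : y ∈ A l
    · have : op x y ∈ A l ↔ x ∈ A l := ⟨(hA l).left q u, fun v => hA l x v y u⟩
      simp [one, u, this]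
    · simp [one, u]
  have l2 := e2_xz q hD fun x y => |G x y - F x * F y|
  have l3 := e2_yz q hD fun x y => |G x y - F x * F y|
  simp only [g1] at l2
  simp only [g2] at l3
  constructor
  · have a := e2_le (D := D) (k := fun x y => |F x * F y - F x * F (op x y)|)
      (k' := fun x y => |G x y - F x * F y| + |G x y - F x * F (op x y)|) fun x _ y _ => by
        rw [abs_sub_comm (G x y)]
        exact abs_sub_le _ _ _
    rw [e2_add] at a
    linarith
  · have a := e2_le (D := D) (k := fun x y => |F x * F y - F y * F (op x y)|)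
      (k' := fun x y => |G x y - F x * F y| + |G x y - F y * F (op x y)|) fun x _ y _ => by
        rw [abs_sub_comm (G x y)]
        exact abs_sub_le _ _ _
    rw [e2_add] at a
    linarith

/-- An almost multiplicative function is almost a multiple of an indicator. -/
theorem two (hD : Cl op D) (ne : D.Nonempty) {c κ : ℝ} (κ0 : 0 < κ) (κc : κ ≤ c) (F : X → ℝ)
    (F0 : ∀ x, 0 ≤ F x) (F1 : ∀ x, F x ≤ 1) (hc : c ≤ 𝔼 x ∈ D, F x)
    (h1 : e2 D (fun x y => |F x * F y - F x * F (op x y)|) ≤ 2 * (c ^ 2 * κ ^ 2 / 20))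
    (h2 : e2 D (fun x y => |F x * F y - F y * F (op x y)|) ≤ 2 * (c ^ 2 * κ ^ 2 / 20))
    (q : Qg op) : ∃ (H : Finset X) (ρ : ℝ), 0 ≤ ρ ∧ ρ ≤ 1 ∧ c ^ 2 * gap op D H ≤ 5 * κ ∧
      𝔼 x ∈ D, |F x - ρ * one H x| ≤ κ := by
  have c0 := κ0.trans_le κc
  obtain ⟨b, hb⟩ : ∃ b, b = 𝔼 x ∈ D, F x := ⟨_, rfl⟩
  obtain ⟨s, hs⟩ : ∃ s, s = 𝔼 x ∈ D, F x ^ 2 := ⟨_, rfl⟩
  obtain ⟨t, ht⟩ : ∃ t, t = 𝔼 x ∈ D, F x ^ 3 := ⟨_, rfl⟩
  rw [← hb] at hc
  have b0 := c0.trans_le hc
  have b1 : b ≤ 1 := hb ▸ expect_le ne fun x _ => F1 x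
  have sb : s ≤ b := by
    rw [hs, hb]; exact expect_le_expect fun x _ => by nlinarith [F0 x, F1 x]
  have bs : b ^ 2 ≤ s := by
    have a := cs D F fun _ => 1
    simp only [ip, mul_one, expect_const ne, ← sq, one_pow] at a
    rwa [hs, hb]
  have m1 : t * b - s * s ≤ c ^ 2 * κ ^ 2 / 10 := by
    have a := e2_le (D := D) (k := fun x y => F x ^ 3 * F y + F x * F y ^ 3)
      (k' := fun x y => 2 * (F x ^ 2 * F y ^ 2) + |F x * F y - F x * F (op x y)| +
        |F x * F y - F y * F (op x y)|) fun x _ y _ => by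
      have a0 := F0 x
      have a1 := F1 x
      have b0 := F0 y
      have b1 := F1 y
      have e : F x * F y * (F x - F y) = F x * (F x * F y - F y * F (op x y)) -
          F y * (F x * F y - F x * F (op x y)) := by ring
      have u : |F x * F y * (F x - F y)| ≤ |F x * F y - F y * F (op x y)| +
          |F x * F y - F x * F (op x y)| := by
        rw [e]
        refine (abs_sub _ _).trans (add_le_add ?_ ?_) <;> rw [abs_mul]
        · exact mul_le_of_le_one_left (abs_nonneg _) (by rwa [abs_of_nonneg a0])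
        · exact mul_le_of_le_one_left (abs_nonneg _) (by rwa [abs_of_nonneg b0])
      have v : F x * F y * (F x - F y) * (F x - F y) ≤ |F x * F y * (F x - F y)| := by
        refine (le_abs_self _).trans ?_
        rw [abs_mul]
        exact mul_le_of_le_one_right (abs_nonneg _) (abs_le.2 ⟨by linarith, by linarith⟩)
      nlinarith
    rw [e2_add, e2_add, e2_add, e2_mul, e2_xy D (fun x => F x ^ 3) F, e2_xy D F fun x => F x ^ 3,
      e2_xy D (fun x => F x ^ 2) fun x => F x ^ 2, ← hb, ← hs, ← ht] at a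
    linarith
  obtain ⟨ρ, hρ⟩ : ∃ ρ, ρ * b = s := ⟨s / b, div_mul_cancel₀ _ b0.ne'⟩
  have ρ1 : ρ ≤ 1 := le_of_mul_le_mul_right (by linarith) b0
  have ρc : c ≤ ρ := hc.trans (le_of_mul_le_mul_right (by nlinarith) b0)
  have m2 : 𝔼 x ∈ D, F x * (F x - ρ) ^ 2 ≤ c * κ ^ 2 / 10 := by
    have e : ∀ x, F x * (F x - ρ) ^ 2 = F x ^ 3 - 2 * ρ * F x ^ 2 + ρ ^ 2 * F x := fun x => by ring
    have p : 0 ≤ 𝔼 x ∈ D, F x * (F x - ρ) ^ 2 :=
      expect_nonneg fun x _ => mul_nonneg (F0 x) (sq_nonneg _)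
    simp only [e, expect_add_distrib, expect_sub_distrib, ← mul_expect] at p ⊢
    rw [← hb, ← hs, ← ht] at p ⊢
    refine le_of_mul_le_mul_left ?_ c0
    have : (t - 2 * ρ * s + ρ ^ 2 * b) * b = t * b - s * s := by rw [← hρ]; ring
    nlinarith [mul_le_mul_of_nonneg_left hc p]
  have m3 : 𝔼 x ∈ D, |F x - ρ * one {x ∈ D | ρ / 2 ≤ F x} x| ≤ κ := by
    have a : 𝔼 x ∈ D, c * κ * |F x - ρ * one {x ∈ D | ρ / 2 ≤ F x} x| ≤
        𝔼 x ∈ D, (5 * (F x * (F x - ρ) ^ 2) + c * κ ^ 2 / 2) := expect_le_expect fun x hx => by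
      have a0 := F0 x
      have p := mul_nonneg a0 (sq_nonneg (F x - ρ))
      simp only [one, mem_filter, hx, true_and]
      split_ifs with u
      · rw [mul_one, ← sq_abs (F x - ρ)] at *
        nlinarith [mul_nonneg c0.le (sq_nonneg (|F x - ρ| - κ)),
          mul_nonneg (show 0 ≤ 2 * F x - c by linarith) (sq_nonneg |F x - ρ|)]
      · rw [mul_zero, sub_zero, abs_of_nonneg a0]
        have v : c * κ ≤ 4 * (F x - ρ) ^ 2 := by nlinarith
        nlinarith [mul_le_mul_of_nonneg_right v a0, mul_pos c0 (pow_pos κ0 2)]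
    rw [← mul_expect, expect_add_distrib, ← mul_expect, expect_const ne] at a
    refine le_of_mul_le_mul_left ?_ (mul_pos c0 κ0)
    linarith
  refine ⟨_, ρ, by linarith, ρ1, ?_, m3⟩
  generalize hH : ({x ∈ D | ρ / 2 ≤ F x} : Finset X) = H at m3 ⊢
  have a := e2_le (D := D)
    (k := fun x y => c ^ 2 / 2 * (one H x * one H y * (1 - one H (op x y))))
    (k' := fun x y => |F x * F y - F x * F (op x y)| + 1 * |F y - ρ * one H y| +
      1 * |F (op x y) - ρ * one H (op x y)|) fun x _ y _ => by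
    have p1 := abs_nonneg (F x * F y - F x * F (op x y))
    have p2 := abs_nonneg (F y - ρ * one H y)
    have p3 := abs_nonneg (F (op x y) - ρ * one H (op x y))
    by_cases u : x ∈ H ∧ y ∈ H ∧ op x y ∉ H
    · have v : ρ / 2 ≤ F x := by
        have := u.1
        rw [← hH] at this
        exact (mem_filter.1 this).2
      simp only [one, u.1, u.2.1, u.2.2, if_true, if_false, mul_one, mul_zero, sub_zero] at p2 ⊢
      have w1 := le_abs_self (F x * F y - F x * F (op x y))
      have w2 := neg_abs_le (F y - ρ)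
      rw [abs_of_nonneg (F0 (op x y))]
      nlinarith [mul_le_mul_of_nonneg_left w2 (F0 x), mul_le_of_le_one_left p2 (F1 x),
        mul_le_of_le_one_left (F0 (op x y)) (F1 x), mul_le_mul v ρc c0.le (F0 x)]
    · have : one H x * one H y * (1 - one H (op x y)) = 0 := by
        unfold one
        split_ifs <;> simp_all
      rw [this]
      linarith
  rw [e2_mul, e2_add, e2_add, e2_xz q hD fun _ y => 1 * |F y - ρ * one H y|,
    e2_xy D (fun _ => 1) fun y => |F y - ρ * one H y|, expect_const ne] at a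
  have c1 : c ≤ 1 := hc.trans b1
  have : c ^ 2 * κ ^ 2 ≤ κ := by
    nlinarith [mul_le_one₀ (pow_le_one₀ (n := 2) c0.le c1) κ0.le (κc.trans c1)]
  unfold gap
  linarith

/-- A family of sets almost contained in an almost closed set. -/
def Clu (op : X → X → X) (A : ι → Finset X) (c e : ℝ) (D : Finset X) (T : Finset ι)
    (H : Finset X) : Prop :=
  gap op D H ≤ e ∧ c / 2 ≤ dn D H ∧ ∀ l ∈ T, dn D (A l \ H) ≤ e

/-- The cost of the hull. -/
noncomputable def Kc (c e : ℝ) : ℝ :=
  2 * Real.exp (4 / ((c ^ 2 * (c ^ 2 * e / 12) ^ 2 / 20) ^ 2 / 2) ^ 2)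

theorem hull (q : Qg op) (hD : Cl op D) (hA : ∀ i, Cl op (A i)) {c e : ℝ} (c0 : 0 < c)
    (e0 : 0 < e) (e1 : e ≤ 1) {V : Finset ι} (n : V.Nonempty) (hc : ∀ l ∈ V, c ≤ dn D (A l)) :
    ∃ Y ⊆ V, ∃ H, Y.Nonempty ∧ (#V : ℝ) ≤ Kc c e * #Y ∧ Clu op A c e D Y H ∧ ∀ B B', ∃ l ∈ Y,
      |dn D H * dn D (B ∩ A l) - dn D (A l) * dn D (B ∩ H)| ≤ e ∧
      |dn D H * dn D (B' ∩ A l) - dn D (A l) * dn D (B' ∩ H)| ≤ e := by
  classical
  obtain ⟨i, hi⟩ := id n
  have c1 := (hc i hi).trans (dn_le_one D _)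
  have ne : D.Nonempty := (ne_of_dn (c0.trans_le (hc i hi))).mono inter_subset_left
  have c2 : c ^ 2 ≤ c := by nlinarith
  unfold Kc
  obtain ⟨κ, hκ⟩ : ∃ κ, κ = c ^ 2 * e / 12 := ⟨_, rfl⟩
  rw [← hκ]
  have κ0 : 0 < κ := by rw [hκ]; positivity
  have κe : 12 * κ ≤ c * e := by rw [hκ]; nlinarith
  have κc : 12 * κ ≤ c := by nlinarith
  obtain ⟨Y, s, m, cY, st⟩ := stab D (fun l => one (A l)) (fun l => abs_one (A l)) V n
    (w := (c ^ 2 * κ ^ 2 / 20) ^ 2 / 2) (by positivity)
  have n0 : (0 : ℝ) < #Y := by exact_mod_cast m.card_pos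
  obtain ⟨h1, h2⟩ := prod3 q hD ne hA m (by positivity) _ rfl st
  generalize hF : av (fun l => one (A l)) Y = F at st h1 h2
  have F0 : ∀ x, 0 ≤ F x := fun x => hF ▸ expect_nonneg fun l _ => one_nonneg _ _
  have F1 : ∀ x, F x ≤ 1 := fun x => hF ▸ (abs_le.1 (abs_av (fun l => abs_one (A l)) Y x)).2
  have Fc : c ≤ ip D (fun _ => 1) F := by
    rw [← hF, ip_av]
    exact le_expect m fun l hl => by rw [ip_comm, ip_one_c]; exact hc l (s hl)
  obtain ⟨H, ρ, ρ0, ρ1, g, m3⟩ := two hD ne κ0 (by linarith) F F0 F1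
    (by simpa only [ip, one_mul] using Fc) h1 h2 q
  have cl : ∀ g : X → ℝ, (∀ x, |g x| ≤ 1) → |ip D g F - ρ * ip D g (one H)| ≤ κ := fun g hg => by
    rw [← ip_smul, ip, ip, ← expect_sub_distrib]
    refine (abs_expect_le _ _).trans (le_trans (expect_le_expect fun x _ => ?_) m3)
    rw [← mul_sub, abs_mul]
    exact mul_le_of_le_one_left (abs_nonneg _) (hg x)
  have u1 := cl (fun _ => 1) fun _ => by simp
  rw [ip_comm D _ (one H), ip_one_c] at u1
  have h0 := dn_nonneg D H
  have hH : c / 2 ≤ dn D H := by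
    linarith [(abs_le.1 u1).2, mul_le_of_le_one_left h0 ρ1]
  have w : (c ^ 2 * κ ^ 2 / 20) ^ 2 ≤ κ := by
    have a : c ^ 2 * κ ^ 2 / 20 ≤ κ := by nlinarith [mul_le_mul c2 (show κ ≤ 1 by linarith) κ0.le c0.le]
    nlinarith [show 0 ≤ c ^ 2 * κ ^ 2 / 20 by positivity]
  have dv : ∀ B, ∑ l ∈ Y, |dn D H * dn D (B ∩ A l) - dn D (A l) * dn D (B ∩ H)| ≤ 3 * κ * #Y :=
    fun B => by
      have a := st (one B) (ip_le_one (abs_one B))
      have b := st (fun _ => 1) (ip_le_one fun _ => by simp)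
      have u2 := cl _ (abs_one B)
      rw [ip_one_one] at u2
      have d := sum_le_sum (s := Y)
        (f := fun l => |dn D H * dn D (B ∩ A l) - dn D (A l) * dn D (B ∩ H)|)
        (g := fun l => |ip D (one B) (one (A l)) - ip D (one B) F| +
          |ip D (fun _ => 1) (one (A l)) - ip D (fun _ => 1) F| + 2 * κ) fun l _ => by
        rw [ip_one_one, ip_comm D _ (one (A l)), ip_one_c]
        have e : dn D H * dn D (B ∩ A l) - dn D (A l) * dn D (B ∩ H) =
            dn D H * (dn D (B ∩ A l) - ip D (one B) F) +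
            dn D H * (ip D (one B) F - ρ * dn D (B ∩ H)) -
            dn D (B ∩ H) * (ip D (fun _ => 1) F - ρ * dn D H) -
            dn D (B ∩ H) * (dn D (A l) - ip D (fun _ => 1) F) := by ring
        have f : ∀ (C : Finset X) (y : ℝ), |dn D C * y| ≤ |y| := fun C y => by
          rw [abs_mul, abs_of_nonneg (dn_nonneg D C)]
          exact mul_le_of_le_one_left (abs_nonneg _) (dn_le_one D C)
        rw [e]
        refine (abs_sub _ _).trans ?_
        refine (add_le_add ((abs_sub _ _).trans (add_le_add ((abs_add_le _ _).trans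
          (add_le_add (f _ _) (f _ _))) (f _ _))) (f _ _)).trans ?_
        linarith
      rw [sum_add_distrib, sum_add_distrib, sum_const, nsmul_eq_mul] at d
      nlinarith [mul_le_mul_of_nonneg_right w n0.le]
  have bad : c * e / 2 * #{l ∈ Y | ¬dn D (A l \ H) ≤ e} ≤ 3 * κ * #Y := by
    have a := card_nsmul_le_sum {l ∈ Y | ¬dn D (A l \ H) ≤ e}
      (fun l => |dn D H * dn D (D \ H ∩ A l) - dn D (A l) * dn D (D \ H ∩ H)|) (c * e / 2)
      fun l hl => by
        have := (not_le.1 (mem_filter.1 hl).2).le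
        rw [dn_sd, dn_sd, sdiff_self, show dn D ⊥ = 0 by simp [dn], mul_zero, sub_zero]
        exact le_trans (by nlinarith [mul_le_mul hH this e0.le h0]) (le_abs_self _)
    rw [nsmul_eq_mul, mul_comm] at a
    exact a.trans ((sum_le_sum_of_subset_of_nonneg (filter_subset _ Y)
      fun _ _ _ => abs_nonneg _).trans (dv _))
  have cn : (#{l ∈ Y | dn D (A l \ H) ≤ e} : ℝ) + #{l ∈ Y | ¬dn D (A l \ H) ≤ e} = #Y := by
    exact_mod_cast card_filter_add_card_filter_not (s := Y) fun l => dn D (A l \ H) ≤ e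
  have hf : (#Y : ℝ) ≤ 2 * #{l ∈ Y | dn D (A l \ H) ≤ e} := by
    have : c * e / 2 * #{l ∈ Y | ¬dn D (A l \ H) ≤ e} ≤ c * e / 2 * (#Y / 2) := by
      nlinarith [mul_le_mul_of_nonneg_right κe n0.le]
    linarith [le_of_mul_le_mul_left this (by positivity)]
  have m' : ({l ∈ Y | dn D (A l \ H) ≤ e} : Finset ι).Nonempty :=
    card_pos.1 (by exact_mod_cast (by linarith : (0 : ℝ) < #{l ∈ Y | dn D (A l \ H) ≤ e}))
  refine ⟨_, (filter_subset _ Y).trans s, H, m', ?_, ⟨?_, hH, fun l hl => (mem_filter.1 hl).2⟩,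
    fun B B' => ?_⟩
  · nlinarith [mul_le_mul_of_nonneg_left hf
      (Real.exp_pos (4 / ((c ^ 2 * κ ^ 2 / 20) ^ 2 / 2) ^ 2)).le]
  · refine le_of_mul_le_mul_left ?_ (pow_pos c0 2)
    nlinarith
  · obtain ⟨l, hl, p⟩ := exists_le_of_sum_le m'
      (f := fun l => |dn D H * dn D (B ∩ A l) - dn D (A l) * dn D (B ∩ H)| +
        |dn D H * dn D (B' ∩ A l) - dn D (A l) * dn D (B' ∩ H)|) (g := fun _ => e) (by
      refine (sum_le_sum_of_subset_of_nonneg (filter_subset _ Y) fun _ _ _ => by positivity).trans ?_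
      rw [sum_add_distrib, sum_const, nsmul_eq_mul]
      have : 12 * κ ≤ e := by nlinarith
      nlinarith [dv B, dv B', mul_le_mul_of_nonneg_right this n0.le,
        mul_le_mul_of_nonneg_left hf e0.le])
    exact ⟨l, hl, by linarith [abs_nonneg (dn D H * dn D (B' ∩ A l) - dn D (A l) * dn D (B' ∩ H))],
      by linarith [abs_nonneg (dn D H * dn D (B ∩ A l) - dn D (A l) * dn D (B ∩ H))]⟩

end Pool.Agent.MP_3df3be_co.So
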