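import Pool.Agent.MP_3df3be_co.Pl2

/-! Tight clusters and moments of lifts. -/

set_option linter.unusedSectionVars false

namespace Pool.Agent.MP_3df3be_co.So

open Finset
open scoped BigOperators

variable {X ι : Type} [DecidableEq X] {op : X → X → X} {A : ι → Finset X} {D H B : Finset X}
  {T V : Finset ι} {c e θ t h Φ : ℝ} {a m : ℕ}

/-- The weight of a lift. -/
noncomputable def psi (a : ℕ) (t u : ℝ) : ℝ := if t < |u - 1| then max u 2 ^ a else 0

theorem psi_nonneg (a : ℕ) (t u : ℝ) : 0 ≤ psi a t u := by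
  unfold psi
  split_ifs <;> positivity

theorem psi_ge {u : ℝ} (k : t < |u - 1|) : 2 ^ a ≤ psi a t u := by
  rw [psi, if_pos k]
  exact pow_le_pow_left₀ two_pos.le (le_max_right _ _) a

/-- The relative lift. -/
noncomputable def rel (D : Finset X) (h : ℝ) (B C : Finset X) : ℝ :=
  h * dn D (B ∩ C) / (dn D B * dn D C)

theorem rel_comm (D : Finset X) (h : ℝ) (B C : Finset X) : rel D h B C = rel D h C B := by
  rw [rel, rel, inter_comm, mul_comm (dn D B)]

theorem rel_nonneg (h0 : 0 ≤ h) (D B C : Finset X) : 0 ≤ rel D h B C :=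
  div_nonneg (mul_nonneg h0 (dn_nonneg _ _)) (mul_nonneg (dn_nonneg _ _) (dn_nonneg _ _))

theorem rel_mul {C : Finset X} (h : ℝ) (b : 0 < dn D B) (k : 0 < dn D C) :
    rel D h B C * (dn D B * dn D C) = h * dn D (B ∩ C) :=
  div_mul_cancel₀ _ (mul_pos b k).ne'

/-- No large cluster in a much smaller almost closed set. -/
def Tight (op : X → X → X) (A : ι → Finset X) (c e : ℝ) (D : Finset X) (a : ℕ) (T : Finset ι)
    (h Φ : ℝ) : Prop :=
  ∀ Y ⊆ T, ∀ H, Y.Nonempty → Clu op A c e D Y H → dn D H ≤ 11 / 20 * h → (#Y : ℝ) ≤ Φ * dn D H ^ a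

theorem harm (g f : ι → ℝ) (f0 : ∀ l, 0 ≤ f l) (Z : ℝ) (W : Finset ι) :
    (∀ l ∈ W, f l * #{k ∈ W | g l ≤ g k} ≤ Z) → ∑ l ∈ W, f l ≤ Z * harmonic #W := by
  classical
  induction W using Finset.induction_on_min_value g with
  | empty => simp
  | insert x s hx mn ih =>
    intro k
    have a := ih fun l hl => le_trans (mul_le_mul_of_nonneg_left (by
      exact_mod_cast card_le_card (filter_subset_filter _ (subset_insert x s))) (f0 l))
      (k l (mem_insert_of_mem hl))
    have b := k x (mem_insert_self x s)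
    rw [filter_true_of_mem fun y hy => (mem_insert.1 hy).elim (fun e => e ▸ le_rfl) (mn y),
      card_insert_of_notMem hx, ← le_div_iff₀ (by positivity)] at b
    rw [sum_insert hx, card_insert_of_notMem hx, harmonic_succ]
    push_cast at b ⊢
    rw [mul_add, ← div_eq_mul_inv]
    linarith

/-- In a tight cluster the lifts against a set have a bounded moment. -/
theorem heavy (q : Qg op) (hD : Cl op D) (hA : ∀ i, Cl op (A i)) (c0 : 0 < c) (c1 : c ≤ 1)
    (θ0 : 0 < θ) (θ1 : θ ≤ 1 / 10) (he : e = θ * c ^ 5 / 300) (hc : ∀ l ∈ T, c ≤ dn D (A l))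
    (cl : Clu op A c e D T H) (tg : Tight op A c e D a T (dn D H) Φ) (Φ0 : 0 ≤ Φ)
    (hm : #T ≤ 2 ^ m) (hB : c ^ 3 ≤ dn D B) (hB' : dn D (B \ H) ≤ e) :
    ∑ l ∈ T, psi a θ (rel D (dn D H) B (A l)) ≤
      (m + 2) * (Kc c e * (1 + θ) ^ a * (Φ * dn D H ^ a)) := by
  classical
  have cp : ∀ {k l : ℕ}, k ≤ l → c ^ l ≤ c ^ k := fun h => pow_le_pow_of_le_one c0.le c1 h
  have c5 := pow_pos c0 5
  have e0 : 0 < e := by rw [he]; positivity
  have e5 : 300 * e = θ * c ^ 5 := by rw [he]; ring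
  have e1 : e ≤ 1 := by nlinarith [cp (show 0 ≤ 5 by norm_num)]
  have h0 : 0 < dn D H := by linarith [cl.2.1]
  have B0 : 0 < dn D B := (pow_pos c0 3).trans_le hB
  have K0 : 0 < Kc c e := by unfold Kc; positivity
  have key : ∀ W ⊆ T, ∀ s : ℝ, 2 ≤ s → (∀ l ∈ W, ∀ H', gap op D H' ≤ e →
      |dn D H' * dn D (B ∩ A l) - dn D (A l) * dn D (B ∩ H')| ≤ e →
      dn D (A l) * dn D (H' \ H) ≤ dn D H' * dn D (A l \ H) + e →
      dn D H' * s ≤ (1 + θ) * dn D H) →
      s ^ a * #W ≤ Kc c e * (1 + θ) ^ a * (Φ * dn D H ^ a) := fun W sW s s2 k => by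
    rcases W.eq_empty_or_nonempty with rfl | n
    · simp; positivity
    obtain ⟨Y, sY, H', nY, cY, cl', dv⟩ := hull q hD hA c0 e0 e1 n fun l hl => hc l (sW hl)
    obtain ⟨l, hl, d1, d2⟩ := dv B (D \ H)
    rw [dn_sd, dn_sd] at d2
    have u := k l (sY hl) H' cl'.1 d1 (by linarith [(abs_le.1 d2).1])
    have p := dn_nonneg D H'
    have v := tg Y (sY.trans sW) H' nY cl' (by nlinarith)
    have w := pow_le_pow_left₀ (by positivity) u a
    rw [mul_pow, mul_pow] at w
    have s0 : 0 ≤ s ^ a := by positivity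
    calc s ^ a * #W ≤ s ^ a * (Kc c e * (Φ * dn D H' ^ a)) :=
          mul_le_mul_of_nonneg_left (cY.trans (mul_le_mul_of_nonneg_left v K0.le)) s0
      _ = Kc c e * Φ * (dn D H' ^ a * s ^ a) := by ring
      _ ≤ Kc c e * Φ * ((1 + θ) ^ a * dn D H ^ a) := mul_le_mul_of_nonneg_left w (by positivity)
      _ = _ := by ring
  have bb : ∀ l ∈ T, c ^ 4 ≤ dn D B * dn D (A l) := fun l hl => by
    rw [pow_succ]; exact mul_le_mul hB (hc l hl) c0.le B0.le
  have k1 := key {l ∈ T | θ < |rel D (dn D H) B (A l) - 1|} (filter_subset _ T) 2 le_rfl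
    fun l hl H' g d1 d2 => by
      obtain ⟨hl, nt⟩ := mem_filter.1 hl
      have b0 := c0.trans_le (hc l hl)
      have x1 : c * dn D (H' \ H) ≤ 2 * e := by
        nlinarith [mul_le_mul_of_nonneg_right (hc l hl) (dn_nonneg D (H' \ H)),
          mul_le_of_le_one_left (dn_nonneg D (A l \ H)) (dn_le_one D H'), cl.2.2 l hl]
      have x2 := hv q hD H H'
      have x3 := dn_split D H' H
      have x4 := dn_split D H H'
      rw [inter_comm] at x3
      have x5 := cl.1
      have x6 := cl.2.1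
      have x7 := dn_nonneg D (H \ H')
      have x8 := dn_nonneg D (H' \ H)
      by_cases u : 4 * dn D (H \ H') ≤ dn D H
      · exfalso
        have y1 : c * dn D (H \ H') ≤ 72 * e := by nlinarith
        have y2 := dn_split D B H
        have y3 := dn_split D (B ∩ H) H'
        have y4 := dn_mono D (show B ∩ H ∩ H' ⊆ B ∩ H' from
          inter_subset_inter inter_subset_left Subset.rfl)
        have y5 := dn_mono D (show (B ∩ H) \ H' ⊆ H \ H' from
          sdiff_subset_sdiff inter_subset_right Subset.rfl)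
        have y6 := dn_mono D (show B ∩ H' ⊆ B from inter_subset_left)
        have y7 := rel_mul (dn D H) B0 b0
        have y8 := dn_nonneg D (B ∩ A l)
        have y9 := dn_le_one D (B ∩ A l)
        have z1 := dn_le_one D (A l)
        have z2 : |(rel D (dn D H) B (A l) - 1) * (dn D B * dn D (A l))| ≤
            2 * e + 2 * dn D (H \ H') + dn D (H' \ H) := by
          rw [sub_mul, y7, one_mul]
          obtain ⟨d3, d4⟩ := abs_le.1 d1
          have z3 := mul_le_of_le_one_right x7 y9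
          have z4 := mul_le_of_le_one_right x8 y9
          have z5 := mul_nonneg x7 y8
          have z6 := mul_nonneg x8 y8
          have z7 := mul_le_mul_of_nonneg_left y6 b0.le
          have z8 := mul_le_of_le_one_left (sub_nonneg.2 y6) z1
          have z9 : dn D H * dn D (B ∩ A l) = dn D H' * dn D (B ∩ A l) +
              dn D (H \ H') * dn D (B ∩ A l) - dn D (H' \ H) * dn D (B ∩ A l) := by
            rw [x3, x4]; ring
          rw [z9]
          exact abs_le.2 ⟨by linarith, by linarith⟩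
        rw [abs_mul, abs_of_pos (mul_pos B0 b0)] at z2
        have z3 := mul_le_mul nt.le (bb l hl) (by positivity) (abs_nonneg _)
        nlinarith [mul_le_mul_of_nonneg_left (z3.trans z2) c0.le, mul_le_of_le_one_left e0.le c1]
      · have y1 : c * (2 * dn D (H ∩ H') - dn D H) ≤ 144 * e := by
          rcases le_total (2 * dn D (H ∩ H') - dn D H) 0 with v | v
          · nlinarith
          · nlinarith
        refine le_of_mul_le_mul_left ?_ c0
        have y2 := mul_le_mul_of_nonneg_left (cp (show 2 ≤ 5 by norm_num)) θ0.le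
        nlinarith [mul_le_mul_of_nonneg_left x6 (mul_pos θ0 c0).le]
  have k2 := harm (fun l => rel D (dn D H) B (A l)) (fun l => max (rel D (dn D H) B (A l)) 2 ^ a)
    (fun l => by positivity) (Kc c e * (1 + θ) ^ a * (Φ * dn D H ^ a))
    {l ∈ T | 2 ≤ rel D (dn D H) B (A l)} fun l hl => by
      rw [max_eq_left (mem_filter.1 hl).2]
      refine key _ ((filter_subset _ _).trans (filter_subset _ T)) _ (mem_filter.1 hl).2
        fun k hk H' _ d1 _ => ?_
      obtain ⟨hk, u⟩ := mem_filter.1 hk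
      have hk := (mem_filter.1 hk).1
      have b0 := c0.trans_le (hc k hk)
      have y1 := rel_mul (dn D H) B0 b0
      have y2 := mul_le_mul_of_nonneg_left (dn_mono D (show B ∩ H' ⊆ B from inter_subset_left)) b0.le
      have y3 := mul_le_mul_of_nonneg_left (bb k hk) θ0.le
      have y4 := mul_le_mul_of_nonneg_left (cp (show 4 ≤ 5 by norm_num)) θ0.le
      have y5 : dn D H' * dn D (B ∩ A k) ≤ (1 + θ) * (dn D B * dn D (A k)) := by
        linarith [(abs_le.1 d1).2]
      refine le_of_mul_le_mul_right ?_ (mul_pos B0 b0)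
      linarith [mul_le_mul_of_nonneg_left y5 h0.le, mul_le_mul_of_nonneg_right
        (mul_le_mul_of_nonneg_left u (dn_nonneg D H')) (mul_pos B0 b0).le,
        congrArg (dn D H' * ·) y1]
  have k3 : (harmonic #{l ∈ T | 2 ≤ rel D (dn D H) B (A l)} : ℝ) ≤ 1 + m := by
    refine (harmonic_le_one_add_log _).trans (add_le_add le_rfl ?_)
    rcases Nat.eq_zero_or_pos #{l ∈ T | 2 ≤ rel D (dn D H) B (A l)} with u | u
    · rw [u]; simp
    · rw [Real.log_le_iff_le_exp (by exact_mod_cast u), ← mul_one (m : ℝ), Real.exp_nat_mul]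
      refine le_trans ?_ (pow_le_pow_left₀ two_pos.le
        (show (2 : ℝ) ≤ Real.exp 1 by linarith [Real.add_one_le_exp 1]) m)
      exact_mod_cast (card_le_card (filter_subset _ T)).trans hm
  have k4 : ∑ l ∈ T, psi a θ (rel D (dn D H) B (A l)) ≤
      ∑ l ∈ T, ((if θ < |rel D (dn D H) B (A l) - 1| then (2 : ℝ) ^ a else 0) +
        if 2 ≤ rel D (dn D H) B (A l) then max (rel D (dn D H) B (A l)) 2 ^ a else 0) :=
    sum_le_sum fun l _ => by
      unfold psi
      split_ifs with u v v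
      · exact le_add_of_nonneg_left (by positivity)
      · rw [max_eq_right (not_le.1 v).le, add_zero]
      · positivity
      · simp
  rw [sum_add_distrib, ← sum_filter, ← sum_filter, sum_const, nsmul_eq_mul] at k4
  nlinarith [mul_le_mul_of_nonneg_left k3
    (show 0 ≤ Kc c e * (1 + θ) ^ a * (Φ * dn D H ^ a) by positivity)]

theorem descent (P Q : Finset ι → Finset X → Prop)
    (st : ∀ T H, P T H → ¬Q T H → ∃ T' H', P T' H' ∧ dn D H' < dn D H) (p : P T H) :
    ∃ T H, P T H ∧ Q T H := by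
  induction hn : #(D ∩ H) using Nat.strong_induction_on generalizing T H with
  | _ n ih =>
    by_cases u : Q T H
    · exact ⟨T, H, p, u⟩
    · obtain ⟨T', H', p', v⟩ := st T H p u
      refine ih _ (hn ▸ ?_) p' rfl
      by_contra! w
      exact v.not_ge (div_le_div_of_nonneg_right (by exact_mod_cast w) (Nat.cast_nonneg _))

/-- Every cluster holds a tight cluster of at least the same weight. -/
theorem tighten (a : ℕ) (c0 : 0 < c) (n : T.Nonempty) (cl : Clu op A c e D T H) :
    ∃ T' H', (T' ⊆ T ∧ T'.Nonempty ∧ Clu op A c e D T' H' ∧ dn D H' ≤ dn D H ∧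
      #T * dn D H' ^ a ≤ #T' * dn D H ^ a) ∧
      Tight op A c e D a T' (dn D H') (#T' / dn D H' ^ a) := by
  refine descent (D := D) _ _ (fun T' H' p u => ?_) ⟨Subset.rfl, n, cl, le_rfl, le_rfl⟩
  obtain ⟨p1, -, p3, p4, p5⟩ := p
  simp only [Tight, not_forall, not_le] at u
  obtain ⟨Y, y1, G, y2, y3, y4, y5⟩ := u
  have h0 : 0 < dn D H' := by linarith [p3.2.1]
  have h1 := pow_pos h0 a
  refine ⟨Y, G, ⟨y1.trans p1, y2, y3, by linarith, ?_⟩, by linarith⟩
  rw [div_mul_eq_mul_div, div_lt_iff₀ h1] at y5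
  refine le_of_mul_le_mul_right ?_ h1
  nlinarith [mul_le_mul_of_nonneg_right p5 (pow_nonneg (dn_nonneg D G) a),
    mul_le_mul_of_nonneg_right y5.le (pow_nonneg (dn_nonneg D H) a)]

/-- A tight cluster with an exponent that is large for its share. -/
theorem tightTop {a0 : ℝ} (a2 : 2 ≤ a0) (c0 : 0 < c) (s : T ⊆ V) (n : T.Nonempty)
    (cl : Clu op A c e D T H) (k : (#V : ℝ) ≤ 2 ^ ⌈a0 / dn D H ^ 9⌉₊ * #T) :
    ∃ T H, (T ⊆ V ∧ T.Nonempty ∧ Clu op A c e D T H ∧ (#V : ℝ) ≤ 2 ^ ⌈a0 / dn D H ^ 9⌉₊ * #T) ∧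
      Tight op A c e D (32 * ⌈a0 / dn D H ^ 9⌉₊) T (dn D H)
        (#T / dn D H ^ (32 * ⌈a0 / dn D H ^ 9⌉₊)) := by
  refine descent (D := D) _ _ (fun T' H' p u => ?_) ⟨s, n, cl, k⟩
  obtain ⟨p1, -, p3, p4⟩ := p
  simp only [Tight, not_forall, not_le] at u
  obtain ⟨Y, y1, G, y2, y3, y4, y5⟩ := u
  have h0 : 0 < dn D H' := by linarith [p3.2.1]
  have g0 : 0 < dn D G := by linarith [y3.2.1]
  refine ⟨Y, G, ⟨y1.trans p1, y2, y3, p4.trans ?_⟩, by linarith⟩
  obtain ⟨r, hr⟩ : ∃ r, dn D H' = r * dn D G := ⟨dn D H' / dn D G, by field_simp⟩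
  have r1 : 20 / 11 ≤ r := le_of_mul_le_mul_right (by linarith) g0
  have b1 : 2 ≤ a0 / dn D H' ^ 9 := by
    rw [le_div_iff₀ (pow_pos h0 9)]
    linarith [pow_le_one₀ (n := 9) h0.le (dn_le_one D H')]
  have b2 := Nat.ceil_lt_add_one (zero_le_two.trans b1)
  have b3 := Nat.le_ceil (a0 / dn D G ^ 9)
  have b4 : a0 / dn D G ^ 9 = a0 / dn D H' ^ 9 * r ^ 9 := by
    rw [hr]
    have : 0 < r := by linarith
    field_simp
  generalize ⌈a0 / dn D H' ^ 9⌉₊ = b at *
  generalize ⌈a0 / dn D G ^ 9⌉₊ = b' at *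
  have b0 : (0 : ℝ) ≤ b := Nat.cast_nonneg _
  have r8 : 119 ≤ r ^ 8 := le_trans (by norm_num) (pow_le_pow_left₀ (by norm_num) r1 8)
  have b5 : b / 2 * (119 * r) ≤ b' := by
    rw [b4] at b3
    refine le_trans (mul_le_mul (by linarith) ?_ (by linarith) (by linarith)) b3
    rw [pow_succ]
    exact mul_le_mul_of_nonneg_right r8 (by linarith)
  have b6 : (2 : ℝ) ^ b * r ^ (32 * b) ≤ 2 ^ b' := by
    have l2 := Real.log_two_gt_d9
    have e2 : ∀ k : ℕ, (2 : ℝ) ^ k = Real.exp (k * Real.log 2) := fun k => by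
      rw [Real.exp_nat_mul, Real.exp_log two_pos]
    have e3 : r ^ (32 * b) ≤ Real.exp ((32 * b : ℕ) * r) := by
      rw [Real.exp_nat_mul]
      exact pow_le_pow_left₀ (by linarith) (by linarith [Real.add_one_le_exp r]) _
    refine (mul_le_mul_of_nonneg_left e3 (by positivity)).trans ?_
    rw [e2, e2, ← Real.exp_add]
    push_cast
    have br : (b : ℝ) ≤ b * r := le_mul_of_one_le_right b0 (by linarith)
    exact Real.exp_le_exp.2 (by nlinarith)
  rw [hr, mul_pow, div_mul_eq_mul_div, mul_div_mul_right _ _ (pow_pos g0 _).ne',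
    div_lt_iff₀ (pow_pos (by linarith) _)] at y5
  nlinarith [mul_le_mul_of_nonneg_left y5.le (pow_pos (two_pos (α := ℝ)) b).le,
    mul_le_mul_of_nonneg_right b6 (Nat.cast_nonneg (α := ℝ) #Y)]

end Pool.Agent.MP_3df3be_co.So
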