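import Pool.Agent.MP_3df3be_co.Pl3

/-! One intersection: growth of the moment, and the passage from a tight cluster to a member. -/

set_option linter.unusedSectionVars false

namespace Pool.Agent.MP_3df3be_co.So

open Finset
open scoped BigOperators

variable {X ι : Type} [DecidableEq X] {op : X → X → X} {A : ι → Finset X} {D H B : Finset X}
  {T U V : Finset ι} {c e θ t h Φ Λ : ℝ} {a m : ℕ} {w : ι → ι → ℝ}

theorem pw (a : ℕ) {l u p r : ℝ} (θ0 : 0 ≤ θ) (θ1 : θ ≤ 1 / 10) (t0 : 0 ≤ t) (t1 : t ≤ 1 / 20)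
    (l0 : 0 ≤ l) (u0 : 0 ≤ u) (hp : |p - 1| ≤ t) (hr : |r - 1| ≤ t) :
    psi a (θ + 5 * t) (l * u / (p * r)) ≤
      (1 + 5 * t) ^ a * (psi a θ l * (1 + psi a t u) + (1 + θ) ^ a * psi a t u) := by
  obtain ⟨p1, p2⟩ := abs_le.1 hp
  obtain ⟨r1, r2⟩ := abs_le.1 hr
  have pr : (1 - t) * (1 - t) ≤ p * r :=
    mul_le_mul (by linarith) (by linarith) (by linarith) (by linarith)
  have pr' : p * r ≤ (1 + t) * (1 + t) :=
    mul_le_mul (by linarith) (by linarith) (by linarith) (by linarith)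
  have p0 : 0 < p * r := by nlinarith
  have lu := mul_nonneg l0 u0
  have up : l * u / (p * r) ≤ (1 + 3 * t) * (l * u) := by
    rw [div_le_iff₀ p0]
    have : 1 ≤ (1 + 3 * t) * (p * r) := by nlinarith [mul_nonneg t0 (sq_nonneg t)]
    nlinarith
  have lo : (1 - 2 * t) * (l * u) ≤ l * u / (p * r) := by
    rw [le_div_iff₀ p0]
    have : (1 - 2 * t) * (p * r) ≤ 1 := by nlinarith [mul_nonneg t0 (sq_nonneg t)]
    nlinarith
  generalize l * u / (p * r) = v at up lo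
  have k : ∀ y : ℝ, 2 ≤ y → v ≤ (1 + 5 * t) * y → psi a (θ + 5 * t) v ≤ (1 + 5 * t) ^ a * y ^ a :=
    fun y y2 hv => by
      unfold psi
      split_ifs
      · rw [← mul_pow]
        exact pow_le_pow_left₀ (by positivity) (max_le hv (by nlinarith)) a
      · positivity
  have m1 := le_max_left l 2
  have m2 := le_max_right l 2
  have m3 := le_max_left u 2
  have m4 := le_max_right u 2
  by_cases x : θ < |l - 1| <;> by_cases y : t < |u - 1| <;>
    simp only [psi, x, y, if_true, if_false, add_zero, mul_zero, mul_one, zero_mul, zero_add]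
  · refine (k (max l 2 * max u 2) (by nlinarith) ?_).trans
      (mul_le_mul_of_nonneg_left ?_ (by positivity))
    · have := mul_le_mul m1 m3 u0 (by linarith)
      nlinarith
    · rw [mul_pow, mul_add]
      have : 0 ≤ max l 2 ^ a * 1 + (1 + θ) ^ a * max u 2 ^ a := by positivity
      linarith
  · have := mul_le_mul m1 (show u ≤ 1 + t by linarith [(abs_le.1 (not_lt.1 y)).2]) u0 (by linarith)
    refine k (max l 2) m2 (up.trans ?_)
    nlinarith [mul_le_mul_of_nonneg_left this (show 0 ≤ 1 + 3 * t by linarith),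
      mul_nonneg (mul_nonneg t0 (show 0 ≤ 1 - 3 * t by linarith)) (show 0 ≤ max l 2 by linarith)]
  · have := mul_le_mul (show l ≤ 1 + θ by linarith [(abs_le.1 (not_lt.1 x)).2]) m3 u0 (by linarith)
    rw [← mul_pow]
    refine k _ (by nlinarith) (up.trans ?_)
    exact mul_le_mul (by linarith) this lu (by linarith)
  · obtain ⟨x1, x2⟩ := abs_le.1 (not_lt.1 x)
    obtain ⟨y1, y2⟩ := abs_le.1 (not_lt.1 y)
    have z1 := mul_le_mul (show l ≤ 1 + θ by linarith) (show u ≤ 1 + t by linarith) u0 (by linarith)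
    have z2 := mul_le_mul (show 1 - θ ≤ l by linarith) (show 1 - t ≤ u by linarith) (by linarith) l0
    have z3 := mul_nonneg θ0 t0
    rw [if_neg (not_lt.2 (abs_le.2 ⟨?_, ?_⟩))]
    · nlinarith [mul_le_mul_of_nonneg_left z2 (show 0 ≤ 1 - 2 * t by linarith),
        mul_nonneg z3 (show 0 ≤ 3 - 2 * t by linarith)]
    · nlinarith [mul_le_mul_of_nonneg_left z1 (show 0 ≤ 1 + 3 * t by linarith),
        mul_le_mul θ1 t1 t0 (by norm_num), mul_nonneg t0 t0]

theorem dn_in {C : Finset X} (b : 0 < dn D B) : dn (D ∩ B) C = dn D (C ∩ B) / dn D B := by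
  rw [inter_comm C, ← dn_inter, mul_div_cancel_right₀ _ b.ne']

theorem step1 (c0 : 0 < c) (c1 : c ≤ 1 / 2) (h0 : 0 < h) (h1 : h ≤ 1) (θ0 : 0 ≤ θ)
    (θ1 : θ ≤ 1 / 10) (t0 : 0 ≤ t) (t1 : t ≤ 1 / 20) (Λ0 : 0 ≤ Λ) (hc : ∀ l ∈ T, c ≤ dn D (A l))
    {B C : Finset X} (hB : c ≤ dn D B) (hC : c ≤ dn D C)
    (hΛ : c ^ 3 ≤ dn D (B ∩ C) → ∑ l ∈ T, psi a t (rel D h (B ∩ C) (A l)) ≤ Λ * #T) :
    ∑ l ∈ T, (if |rel D h B (A l) - 1| ≤ t ∧ |rel D h C (A l) - 1| ≤ t then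
      psi a (θ + 5 * t) (rel (D ∩ A l) 1 B C) else 0) ≤
      #T * ((1 + 5 * t) ^ a * ((1 + Λ) * psi a θ (rel D h B C) + (1 + θ) ^ a * Λ)) := by
  have B0 := c0.trans_le hB
  have C0 := c0.trans_le hC
  have R1 : 1 ≤ (1 + 5 * t) ^ a := one_le_pow₀ (by linarith)
  have lo : ∀ l ∈ T, ∀ E, 0 < dn D E → |rel D h E (A l) - 1| ≤ t →
      (1 - t) * (dn D E * dn D (A l)) ≤ dn D (E ∩ A l) := fun l hl E E0 g => by
    have b0 := c0.trans_le (hc l hl)
    nlinarith [rel_mul h E0 b0, mul_le_of_le_one_left (dn_nonneg D (E ∩ A l)) h1,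
      mul_le_mul_of_nonneg_right (abs_le.1 g).1 (mul_pos E0 b0).le]
  rcases le_or_gt (c ^ 3) (dn D (B ∩ C)) with u | u
  · have d0 := (pow_pos c0 3).trans_le u
    refine (sum_le_sum (g := fun l => (1 + 5 * t) ^ a * (psi a θ (rel D h B C) *
      (1 + psi a t (rel D h (B ∩ C) (A l))) + (1 + θ) ^ a * psi a t (rel D h (B ∩ C) (A l))))
      fun l hl => ?_).trans ?_
    · split_ifs with g
      · have b0 := c0.trans_le (hc l hl)
        have g1 : 0 < dn D (B ∩ A l) := lt_of_lt_of_le (by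
          have : 0 < 1 - t := by linarith
          positivity) (lo l hl B B0 g.1)
        have g2 : 0 < dn D (C ∩ A l) := lt_of_lt_of_le (by
          have : 0 < 1 - t := by linarith
          positivity) (lo l hl C C0 g.2)
        have e : rel (D ∩ A l) 1 B C = rel D h B C * rel D h (B ∩ C) (A l) /
            (rel D h B (A l) * rel D h C (A l)) := by
          simp only [rel, dn_in b0]
          field_simp
        rw [e]
        exact pw a θ0 θ1 t0 t1 (rel_nonneg h0.le _ _ _) (rel_nonneg h0.le _ _ _) g.1 g.2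
      · have := psi_nonneg a θ (rel D h B C)
        have := psi_nonneg a t (rel D h (B ∩ C) (A l))
        positivity
    · rw [← mul_sum, sum_add_distrib, ← mul_sum, ← mul_sum, sum_add_distrib, sum_const, nsmul_eq_mul,
        mul_left_comm]
      refine mul_le_mul_of_nonneg_left ?_ (by positivity)
      nlinarith [mul_le_mul_of_nonneg_left (hΛ u) (psi_nonneg a θ (rel D h B C)),
        mul_le_mul_of_nonneg_left (hΛ u) (show 0 ≤ (1 + θ) ^ a by positivity)]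
  · have bc := mul_le_mul hB hC c0.le B0.le
    have p : 2 ^ a ≤ psi a θ (rel D h B C) := psi_ge (lt_of_lt_of_le (by
      have v : rel D h B C ≤ 1 / 2 := le_of_mul_le_mul_right (by
        rw [rel_mul h B0 C0]
        nlinarith [mul_le_of_le_one_left (dn_nonneg D (B ∩ C)) h1, mul_pos c0 c0]) (mul_pos B0 C0)
      linarith) (neg_le_abs _))
    refine (sum_le_card_nsmul _ _ (2 ^ a) fun l hl => ?_).trans ?_
    · split_ifs with g
      · have b0 := c0.trans_le (hc l hl)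
        have g1 := lo l hl B B0 g.1
        have g2 := lo l hl C C0 g.2
        have g3 : 9 / 10 * (c * dn D (A l)) ≤ dn D (B ∩ A l) := by
          nlinarith [mul_le_mul_of_nonneg_right hB b0.le, mul_pos c0 b0]
        have g4 : 9 / 10 * (c * dn D (A l)) ≤ dn D (C ∩ A l) := by
          nlinarith [mul_le_mul_of_nonneg_right hC b0.le, mul_pos c0 b0]
        have g5 := mul_le_mul g3 g4 (by positivity) (dn_nonneg _ _)
        have g6 : 0 < dn D (B ∩ A l) := lt_of_lt_of_le (by positivity) g3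
        have g7 : 0 < dn D (C ∩ A l) := lt_of_lt_of_le (by positivity) g4
        have e : rel (D ∩ A l) 1 B C = dn D (B ∩ C ∩ A l) * dn D (A l) /
            (dn D (B ∩ A l) * dn D (C ∩ A l)) := by
          simp only [rel, dn_in b0]
          field_simp
        have f : rel (D ∩ A l) 1 B C ≤ 2 := by
          rw [e, div_le_iff₀ (mul_pos g6 g7)]
          have := (dn_mono D (inter_subset_left (s₁ := B ∩ C) (s₂ := A l))).trans u.le
          nlinarith [mul_le_mul_of_nonneg_right this b0.le, mul_le_mul_of_nonneg_left (hc l hl)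
            (show 0 ≤ c ^ 2 * dn D (A l) by positivity), mul_pos (pow_pos c0 3) b0]
        unfold psi
        split_ifs
        · rw [max_eq_right f]
        · positivity
      · positivity
    · rw [nsmul_eq_mul]
      refine mul_le_mul_of_nonneg_left ?_ (Nat.cast_nonneg _)
      have p0 := psi_nonneg a θ (rel D h B C)
      have : 0 ≤ Λ * psi a θ (rel D h B C) + (1 + θ) ^ a * Λ := by positivity
      nlinarith

/-- The weighted moment of the lifts. -/
noncomputable def ms (A : ι → Finset X) (a : ℕ) (θ h : ℝ) (w : ι → ι → ℝ) (D : Finset X)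
    (T : Finset ι) : ℝ :=
  ∑ k ∈ T, ∑ i ∈ T, w k i * psi a θ (rel D h (A k) (A i))

theorem ms_mono (w0 : ∀ i k, 0 ≤ w i k) (s : U ⊆ T) : ms A a θ h w D U ≤ ms A a θ h w D T :=
  (sum_le_sum fun _ _ => sum_le_sum_of_subset_of_nonneg s fun _ _ _ =>
    mul_nonneg (w0 _ _) (psi_nonneg _ _ _)).trans (sum_le_sum_of_subset_of_nonneg s fun _ _ _ =>
      sum_nonneg fun _ _ => mul_nonneg (w0 _ _) (psi_nonneg _ _ _))

theorem step (c0 : 0 < c) (c1 : c ≤ 1 / 2) (h0 : 0 < h) (h1 : h ≤ 1) (θ0 : 0 ≤ θ)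
    (θ1 : θ ≤ 1 / 10) (t0 : 0 ≤ t) (t1 : t ≤ 1 / 20) (Λ0 : 0 ≤ Λ) (hc : ∀ l ∈ T, c ≤ dn D (A l))
    (w0 : ∀ i k, 0 ≤ w i k) (hΛ : ∀ k ∈ T, ∀ i ∈ T, c ^ 3 ≤ dn D (A k ∩ A i) →
      ∑ l ∈ T, psi a t (rel D h (A k ∩ A i) (A l)) ≤ Λ * #T) :
    ∑ l ∈ T, ms A a (θ + 5 * t) 1 w (D ∩ A l) {k ∈ T | |rel D h (A k) (A l) - 1| ≤ t} ≤
      #T * ((1 + 5 * t) ^ a * ((1 + Λ) * ms A a θ h w D T +
        (1 + θ) ^ a * Λ * ∑ k ∈ T, ∑ i ∈ T, w k i)) := by
  have e : ∀ l, ms A a (θ + 5 * t) 1 w (D ∩ A l) {k ∈ T | |rel D h (A k) (A l) - 1| ≤ t} =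
      ∑ k ∈ T, ∑ i ∈ T, w k i * if |rel D h (A k) (A l) - 1| ≤ t ∧ |rel D h (A i) (A l) - 1| ≤ t then
        psi a (θ + 5 * t) (rel (D ∩ A l) 1 (A k) (A i)) else 0 := fun l => by
    simp only [ms, sum_filter]
    refine sum_congr rfl fun k _ => ?_
    split_ifs with u <;> simp [u]
  simp only [e]
  rw [sum_comm, ms]
  simp only [mul_sum, ← sum_add_distrib]
  refine sum_le_sum fun k hk => ?_
  rw [sum_comm]
  refine sum_le_sum fun i hi => ?_
  rw [← mul_sum]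
  refine (mul_le_mul_of_nonneg_left (step1 c0 c1 h0 h1 θ0 θ1 t0 t1 Λ0 hc (hc k hk) (hc i hi)
    (hΛ k hk i hi)) (w0 k i)).trans_eq ?_
  ring

theorem cov_le {C : Finset X} (b : 0 < dn D B) (k : 0 < dn D C) :
    |cov D B C| ≤ |rel D 1 B C - 1| := by
  have e : cov D B C = (rel D 1 B C - 1) * (dn D B * dn D C) := by
    rw [sub_mul, rel_mul 1 b k, cov]; ring
  rw [e, abs_mul, abs_of_pos (mul_pos b k)]
  exact mul_le_of_le_one_right (abs_nonneg _) (mul_le_one₀ (dn_le_one _ _) k.le (dn_le_one _ _))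

theorem cnt_psi (T : Finset ι) (u : ι → ℝ) :
    (#{l ∈ T | t < |u l - 1|} : ℝ) * 2 ^ a ≤ ∑ l ∈ T, psi a t (u l) := by
  have d := card_nsmul_le_sum {l ∈ T | t < |u l - 1|} (fun l => psi a t (u l)) (2 ^ a)
    fun l hl => psi_ge (mem_filter.1 hl).2
  rw [nsmul_eq_mul] at d
  exact d.trans (sum_le_sum_of_subset_of_nonneg (filter_subset _ T) fun _ _ _ => psi_nonneg _ _ _)

/-- From a tight cluster to a member. -/
theorem trans (q : Qg op) (hD : Cl op D) (hA : ∀ i, Cl op (A i)) (c0 : 0 < c) (c1 : c ≤ 1 / 2)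
    (h0 : 0 < h) (h1 : h ≤ 1) (θ0 : 0 < θ) (θc : 12 * θ ≤ c ^ 4) {β Z Z' x : ℝ} (n : T.Nonempty)
    (hc : ∀ l ∈ T, c ≤ dn D (A l)) (hβ : ∀ l ∈ T, β * h ≤ dn D (A l)) (cβ : 2 * c ≤ β)
    (Z0 : 0 ≤ Z) (hZ : ∀ k ∈ T, ∀ i ∈ T, c ^ 3 ≤ dn D (A k ∩ A i) →
      ∑ l ∈ T, psi a θ (rel D h (A k ∩ A i) (A l)) ≤ Z * #T)
    (ZZ : (1 + 5 * θ) ^ a * ((1 + Z) * Z + (1 + θ) ^ a * Z) ≤ Z') (x0 : 0 < x)
    (xc : 32 * x ≤ c ^ 4) (xZ : Z' ≤ 2 ^ a * x ^ 5) :
    ∃ l ∈ T, ∃ U ⊆ T, (#T : ℝ) ≤ 2 * #U ∧ (∀ k ∈ U, (1 - θ) * β ≤ dn (D ∩ A l) (A k)) ∧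
      (∀ i ∈ U, ∀ k ∈ U, |Real.log (dn D (A i)) - Real.log (dn D (A k))| ≤
        |Real.log (dn (D ∩ A l) (A i)) - Real.log (dn (D ∩ A l) (A k))| + x) ∧
      ms A a (θ + 5 * θ) 1 (fun _ _ => 1) (D ∩ A l) U ≤ Z' * #T ^ 2 := by
  classical
  have c4 : c ^ 4 ≤ 1 / 16 := (pow_le_pow_left₀ c0.le c1 4).trans (by norm_num)
  have n0 : (0 : ℝ) < #T := by exact_mod_cast n.card_pos
  have P0 : (0 : ℝ) < 2 ^ a := by positivity
  have b0 : ∀ l ∈ T, 0 < dn D (A l) := fun l hl => c0.trans_le (hc l hl)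
  have z1 : ∀ k ∈ T, ∑ l ∈ T, psi a θ (rel D h (A k) (A l)) ≤ Z * #T := fun k hk => by
    have := hZ k hk k hk
    rw [inter_self] at this
    exact this ((pow_le_of_le_one c0.le (by linarith) (by norm_num)).trans (hc k hk))
  have R1 : 1 ≤ (1 + 5 * θ) ^ a := one_le_pow₀ (by linarith)
  have R2 : 0 ≤ (1 + θ) ^ a * Z := by positivity
  have x5 : x ^ 5 ≤ x ^ 4 / 32 := by nlinarith [pow_pos x0 4]
  have x4 : x ^ 4 ≤ 1 := pow_le_one₀ x0.le (by linarith)
  have ZP : Z' ≤ 2 ^ a * (x ^ 4 / 32) := xZ.trans (mul_le_mul_of_nonneg_left x5 P0.le)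
  have ZQ : Z ≤ 2 ^ a / 32 := by nlinarith [mul_nonneg Z0 Z0]
  obtain ⟨G, hG⟩ : ∃ G : ι → Finset ι, G = fun l => {k ∈ T | |rel D h (A k) (A l) - 1| ≤ θ} :=
    ⟨_, rfl⟩
  have mG : ∀ l k, k ∈ G l ↔ k ∈ T ∧ |rel D h (A k) (A l) - 1| ≤ θ := fun l k => by
    rw [hG]; exact mem_filter
  have s2 : ∑ l ∈ T, ms A a (θ + 5 * θ) 1 (fun _ _ => 1) (D ∩ A l) (G l) ≤ #T * (Z' * #T ^ 2) := by
    rw [hG]
    refine (step c0 c1 h0 h1 θ0.le (by linarith) θ0.le (by linarith) Z0 hc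
      (fun _ _ => zero_le_one) hZ).trans (mul_le_mul_of_nonneg_left ?_ n0.le)
    have u : ms A a θ h (fun _ _ => 1) D T ≤ #T * (Z * #T) := by
      simp only [ms, one_mul]
      exact (sum_le_card_nsmul _ _ _ z1).trans_eq (nsmul_eq_mul _ _)
    simp only [sum_const, nsmul_eq_mul, mul_one]
    refine le_trans ?_ (mul_le_mul_of_nonneg_right ZZ (sq_nonneg _))
    rw [mul_assoc ((1 + 5 * θ) ^ a)]
    refine mul_le_mul_of_nonneg_left ?_ (by positivity)
    nlinarith [mul_le_mul_of_nonneg_left u (show 0 ≤ 1 + Z by linarith)]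
  have s1 : ∀ l ∈ T, (#(T \ G l) : ℝ) ≤ #T / 32 := fun l hl => by
    have u := (cnt_psi T fun k => rel D h (A l) (A k)).trans (z1 l hl)
    have v : (#(T \ G l) : ℝ) ≤ #{k ∈ T | θ < |rel D h (A l) (A k) - 1|} := by
      exact_mod_cast card_le_card fun k hk => mem_filter.2 ⟨(mem_sdiff.1 hk).1, by
        rw [rel_comm]
        exact not_le.1 fun g => (mem_sdiff.1 hk).2 ((mG l k).2 ⟨(mem_sdiff.1 hk).1, g⟩)⟩
    refine v.trans (le_of_mul_le_mul_right (u.trans ?_) P0)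
    nlinarith
  have s4 : ∀ l ∈ T, ∀ k ∈ T, |rel D h (A k) (A l) - 1| ≤ θ → (1 - θ) * β ≤ dn (D ∩ A l) (A k) :=
    fun l hl k hk g => by
      rw [dn_in (b0 l hl), le_div_iff₀ (b0 l hl)]
      refine le_of_mul_le_mul_left ?_ h0
      rw [← rel_mul h (b0 k hk) (b0 l hl)]
      nlinarith [mul_le_mul_of_nonneg_right (abs_le.1 g).1 (mul_pos (b0 k hk) (b0 l hl)).le,
        mul_le_mul_of_nonneg_right (mul_le_mul_of_nonneg_left (hβ k hk)
          (show 0 ≤ 1 - θ by linarith)) (b0 l hl).le]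
  have cθ : c ≤ (1 - θ) * β := by nlinarith
  have s6 : ∀ B, ∀ j ∈ T, (#{i ∈ T | c * x / 4 < |dn (D ∩ A j ∩ A i) B - dn (D ∩ A j) B|} : ℝ) ≤
      #T / 16 + ms A a (θ + 5 * θ) 1 (fun _ _ => 1) (D ∩ A j) (G j) / (2 ^ a * (x ^ 4 * #T)) :=
    fun B j hj => by
      have dG : ∀ k ∈ G j, c ≤ dn (D ∩ A j) (A k) := fun k hk =>
        cθ.trans (s4 j hj k ((mG j k).1 hk).1 ((mG j k).1 hk).2)
      let dg : ι → ℝ := fun k => #{i ∈ G j | θ + 5 * θ < |rel (D ∩ A j) 1 (A k) (A i) - 1|}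
      have u1 : #{k ∈ G j | x ^ 4 * #T < dg k} * (x ^ 4 * #T) * 2 ^ a ≤
          ms A a (θ + 5 * θ) 1 (fun _ _ => 1) (D ∩ A j) (G j) := by
        refine (mul_le_mul_of_nonneg_right (mark (G j) dg (fun _ _ => Nat.cast_nonneg _) _)
          P0.le).trans ?_
        simp only [ms, one_mul, sum_mul]
        exact sum_le_sum fun k _ => cnt_psi _ _
      have u2 := besselC q (hD.inter (hA j)) (ne_of_dn (b0 j hj)) A {k ∈ G j | ¬x ^ 4 * #T < dg k} hA
        c0 (fun k hk => dG k (mem_filter.1 hk).1) (e := c ^ 4 / 2) (by positivity) le_rfl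
        (S := x ^ 4 * #T) (by positivity) (fun k hk => le_trans (b := dg k)
          (Nat.cast_le.2 (card_le_card fun i hi => by
            obtain ⟨i1, i2⟩ := mem_filter.1 hi
            have i3 := (mem_filter.1 i1).1
            exact mem_filter.2 ⟨i3, lt_of_lt_of_le (by linarith) (cov_le
              (c0.trans_le (dG k (mem_filter.1 hk).1)) (c0.trans_le (dG i i3)))⟩))
          (not_lt.1 (mem_filter.1 hk).2)) (t := c * (c * x / 4)) (by positivity) B
      have u3 : 2 * (x ^ 4 * #T) / (c ^ 4 * (c * (c * x / 4)) ^ 2) ≤ #T / 32 := by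
        rw [div_le_iff₀ (by positivity)]
        have := mul_le_mul_of_nonneg_right (pow_le_pow_left₀ (by positivity) xc 2)
          (show 0 ≤ x ^ 2 * #T by positivity)
        nlinarith
      have u4 : {i ∈ T | c * x / 4 < |dn (D ∩ A j ∩ A i) B - dn (D ∩ A j) B|} ⊆ T \ G j ∪
          {k ∈ G j | x ^ 4 * #T < dg k} ∪ {i ∈ {k ∈ G j | ¬x ^ 4 * #T < dg k} |
            c * (c * x / 4) < |cov (D ∩ A j) B (A i)|} := fun i hi => by
        obtain ⟨i1, i2⟩ := mem_filter.1 hi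
        simp only [mem_union, mem_sdiff, mem_filter]
        by_cases g : i ∈ G j
        · by_cases g' : x ^ 4 * #T < dg i
          · exact .inl (.inr ⟨g, g'⟩)
          · exact .inr ⟨⟨g, g'⟩, not_le.1 fun z => i2.not_ge (dn_step c0 (dG i g) z)⟩
        · exact .inl (.inl ⟨i1, g⟩)
      have u5 := (card_le_card u4).trans ((card_union_le _ _).trans
        (Nat.add_le_add_right (card_union_le _ _) _))
      have u6 := (Nat.cast_le (α := ℝ)).2 u5
      rw [mul_assoc, mul_comm _ (2 ^ a), ← le_div_iff₀ (by positivity)] at u1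
      push_cast at u6
      linarith [s1 j hj]
  obtain ⟨l, hl, ml⟩ := exists_le_of_sum_le n (g := fun _ => Z' * #T ^ 2)
    (s2.trans_eq (by rw [sum_const, nsmul_eq_mul]))
  have s7 : ∑ j ∈ T, (#{i ∈ T | c * x / 4 < |dn (D ∩ A j ∩ A i) (A l) - dn (D ∩ A j) (A l)|} : ℝ) ≤
      #T * (3 / 32 * #T) := by
    refine (sum_le_sum (s6 (A l))).trans ?_
    rw [sum_add_distrib, sum_const, nsmul_eq_mul, ← sum_div]
    have : (∑ j ∈ T, ms A a (θ + 5 * θ) 1 (fun _ _ => 1) (D ∩ A j) (G j)) /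
        (2 ^ a * (x ^ 4 * #T)) ≤ #T * (#T / 32) := by
      rw [div_le_iff₀ (by positivity)]
      nlinarith [mul_le_mul_of_nonneg_right ZP (pow_pos n0 3).le]
    linarith
  obtain ⟨j, -, mj⟩ := exists_le_of_sum_le n
    (f := fun j => (#{i ∈ T | c * x / 2 < |dn (D ∩ A i) (A l) - dn (D ∩ A j) (A l)|} : ℝ))
    (g := fun _ => 3 / 16 * #T) (by
      simp only [← sum_boole] at s7 ⊢
      have s8 := s7
      rw [sum_comm] at s8
      rw [sum_const, nsmul_eq_mul]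
      refine le_trans ?_ ((add_le_add s7 s8).trans_eq (by ring))
      simp only [← sum_add_distrib]
      refine sum_le_sum fun j _ => sum_le_sum fun i _ => ?_
      rw [inter_right_comm D (A i)]
      have := abs_sub_le (dn (D ∩ A i) (A l)) (dn (D ∩ A j ∩ A i) (A l)) (dn (D ∩ A j) (A l))
      rw [abs_sub_comm (dn (D ∩ A i) (A l)) (dn (D ∩ A j ∩ A i) (A l))] at this
      split_ifs <;> linarith)
  have sG : G l ⊆ T := fun k hk => ((mG l k).1 hk).1
  refine ⟨l, hl, G l \ {i ∈ T | c * x / 2 < |dn (D ∩ A i) (A l) - dn (D ∩ A j) (A l)|},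
    sdiff_subset.trans sG, ?_, fun k hk => ?_, fun i hi k hk => ?_,
    (ms_mono (fun _ _ => zero_le_one) sdiff_subset).trans ml⟩
  · have u := (Nat.cast_le (α := ℝ)).2 (card_le_card_sdiff_add_card (s := G l)
      (t := {i ∈ T | c * x / 2 < |dn (D ∩ A i) (A l) - dn (D ∩ A j) (A l)|}))
    have v : (#(T \ G l) : ℝ) + #(G l) = #T := by exact_mod_cast card_sdiff_add_card_eq_card sG
    push_cast at u
    linarith [s1 l hl]
  · exact s4 l hl k (sG (mem_sdiff.1 hk).1) ((mG l k).1 (mem_sdiff.1 hk).1).2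
  · have k1 : ∀ i ∈ G l \ {i ∈ T | c * x / 2 < |dn (D ∩ A i) (A l) - dn (D ∩ A j) (A l)|},
        c ≤ dn (D ∩ A i) (A l) ∧ |dn (D ∩ A i) (A l) - dn (D ∩ A j) (A l)| ≤ c * x / 2 ∧
        Real.log (dn (D ∩ A l) (A i)) = Real.log (dn (D ∩ A i) (A l)) + Real.log (dn D (A i)) -
          Real.log (dn D (A l)) := fun i hi => by
      obtain ⟨i1, i2⟩ := mem_sdiff.1 hi
      have i3 := cθ.trans (s4 i (sG i1) l hl (rel_comm D h _ _ ▸ ((mG l i).1 i1).2))
      refine ⟨i3, not_lt.1 fun z => i2 (mem_filter.2 ⟨sG i1, z⟩), ?_⟩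
      rw [← Real.log_mul (c0.trans_le i3).ne' (b0 i (sG i1)).ne', dn_inter, dn_in (b0 l hl),
        Real.log_div _ (b0 l hl).ne']
      rw [← dn_inter]
      exact (mul_pos (c0.trans_le i3) (b0 i (sG i1))).ne'
    obtain ⟨a1, a2, a3⟩ := k1 i hi
    obtain ⟨b1, b2, b3⟩ := k1 k hk
    have u := abs_log_sub c0 a1 b1
    have v : |dn (D ∩ A i) (A l) - dn (D ∩ A k) (A l)| / c ≤ x := by
      rw [div_le_iff₀ c0]
      have := abs_sub_le (dn (D ∩ A i) (A l)) (dn (D ∩ A j) (A l)) (dn (D ∩ A k) (A l))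
      rw [abs_sub_comm (dn (D ∩ A j) (A l))] at this
      linarith
    obtain ⟨u1, u2⟩ := abs_le.1 (u.trans v)
    rw [a3, b3]
    exact abs_le.2 ⟨by linarith [neg_abs_le (Real.log (dn (D ∩ A i) (A l)) + Real.log (dn D (A i)) -
      Real.log (dn D (A l)) - (Real.log (dn (D ∩ A k) (A l)) + Real.log (dn D (A k)) -
        Real.log (dn D (A l))))], by linarith [le_abs_self (Real.log (dn (D ∩ A i) (A l)) +
      Real.log (dn D (A i)) - Real.log (dn D (A l)) - (Real.log (dn (D ∩ A k) (A l)) +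
        Real.log (dn D (A k)) - Real.log (dn D (A l))))]⟩

end Pool.Agent.MP_3df3be_co.So
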