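import Pool.Agent.MP_3df3be_co.Pl4

/-! The run: repeated intersection, with removal of tight clusters. -/

set_option linter.unusedSectionVars false

namespace Pool.Agent.MP_3df3be_co.So

open Finset
open scoped BigOperators

variable {X ι : Type} [DecidableEq X] {op : X → X → X} {A : ι → Finset X} {D H B : Finset X}
  {T U V : Finset ι} {c e θ t x Y β η π π' N : ℝ} {a m hi : ℕ} {w : ι → ι → ℝ}

/-- The indicator of close densities. -/
noncomputable def cw (A : ι → Finset X) (D : Finset X) (η : ℝ) (k i : ι) : ℝ :=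
  if |Real.log (dn D (A k)) - Real.log (dn D (A i))| ≤ η then 1 else 0

theorem cw_le {D' : Finset X} {η' : ℝ} {i k : ι}
    (h : |Real.log (dn D (A k)) - Real.log (dn D (A i))| ≤ η →
      |Real.log (dn D' (A k)) - Real.log (dn D' (A i))| ≤ η') : cw A D η k i ≤ cw A D' η' k i := by
  unfold cw
  split_ifs with g1 g2
  · exact le_rfl
  · exact absurd (h g1) g2
  · exact zero_le_one
  · exact le_rfl

/-- Tight clusters have many pairs of close densities. -/
def Lv (op : X → X → X) (A : ι → Finset X) (c e : ℝ) (m a : ℕ) (β η π : ℝ) : Prop :=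
  ∀ D, Cl op D → #D < 2 ^ m → ∀ T H, T.Nonempty → #T ≤ 2 ^ m → Clu op A c e D T H →
    Tight op A c e D a T (dn D H) (#T / dn D H ^ a) →
    (∀ l ∈ T, c ≤ dn D (A l) ∧ β * dn D H ≤ dn D (A l)) →
    π * #T ^ 2 ≤ ∑ k ∈ T, ∑ i ∈ T, cw A D η k i

/-- The parameters. -/
structure Par (c θ e t x Y : ℝ) (m hi : ℕ) : Prop where
  c0 : 0 < c
  c1 : c ≤ 1 / 2
  θ0 : 0 < θ
  θc : 14 * θ ≤ c ^ 4
  he : e = θ * c ^ 5 / 300
  ht : 5 * m * t = θ
  KY : Kc c e ≤ Y
  mY : (m : ℝ) + 2 ≤ Y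
  θY : 1 ≤ θ * Y
  pY : (1 + 7 * θ) ^ hi ≤ Y
  x0 : 0 < x
  xY : x * Y ^ 3 ≤ 1

theorem dn_self (ne : D.Nonempty) : dn D D = 1 := by
  rw [dn, inter_self, div_self (by exact_mod_cast ne.card_pos.ne')]

theorem clu_self (hD : Cl op D) (ne : D.Nonempty) (c1 : c ≤ 1) (e0 : 0 ≤ e) (T : Finset ι) :
    Clu op A c e D T D :=
  ⟨(e2_le (k' := fun _ _ => 0) fun x hx y hy => by simp [one, hD x hx y hy]).trans
    ((e2_const ne 0).trans_le e0), by rw [dn_self ne]; linarith, fun l _ => by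
      rwa [dn, show D ∩ (A l \ D) = ∅ by ext; simp, card_empty, Nat.cast_zero, zero_div]⟩

theorem dn_half (q : Qg op) (hD : Cl op D) (hB : Cl op B) (k : dn D B < 1) (ne : D.Nonempty) :
    dn D B ≤ 1 / 2 := by
  have n0 : (0 : ℝ) < #D := by exact_mod_cast ne.card_pos
  have u := half q (hD.inter hB) hD inter_subset_left fun z => by
    rw [dn, z, div_self n0.ne'] at k
    exact k.false
  rw [dn, div_le_iff₀ n0]
  have : (2 : ℝ) * #(D ∩ B) ≤ #D := by exact_mod_cast u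
  linarith

theorem cov_ge {C : Finset X} {p : ℝ} (p0 : 0 < p) (b : 0 < dn D B) (k : 0 < dn D C)
    (u : p ≤ dn D B * dn D C) (v : t < |rel D 1 B C - 1|) : p * t < |cov D B C| := by
  have e : cov D B C = (rel D 1 B C - 1) * (dn D B * dn D C) := by
    rw [sub_mul, rel_mul 1 b k, cov]; ring
  rw [e, abs_mul, abs_of_pos (mul_pos b k), mul_comm]
  exact mul_lt_mul v u p0 (abs_nonneg _)

theorem Par.fact (P : Par c θ e t x Y m hi) (ha : a ≤ hi) : θ ≤ 1 / 224 ∧ 224 ≤ Y ∧ 14 ≤ c ^ 4 * Y ∧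
    (1 + 7 * θ) ^ a ≤ Y ∧ ∀ s : ℝ, 0 ≤ s → (m + 2) * (Kc c e * (1 + θ) ^ a * s) ≤ Y ^ 3 * s := by
  have c4 : c ^ 4 ≤ 1 / 16 := (pow_le_pow_left₀ P.c0.le P.c1 4).trans (by norm_num)
  have θ0 := P.θ0
  have θ1 : θ ≤ 1 / 224 := by linarith [P.θc]
  have Y0 : 0 < Y := by linarith [P.mY, Nat.cast_nonneg (α := ℝ) m]
  have p := (pow_le_pow_right₀ (by linarith) ha).trans P.pY
  refine ⟨θ1, by nlinarith [P.θY], by nlinarith [P.θY, P.θc], p, fun s s0 => ?_⟩
  have u := mul_le_mul P.KY ((pow_le_pow_left₀ (by linarith) (by linarith) a).trans p)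
    (show 0 ≤ (1 + θ) ^ a by positivity) Y0.le
  have K0 : 0 < Kc c e := by unfold Kc; positivity
  calc _ ≤ Y * (Y * Y * s) := mul_le_mul P.mY (mul_le_mul_of_nonneg_right u s0) (by positivity) Y0.le
    _ = _ := by ring

theorem Par.heavy (P : Par c θ e t x Y m hi) (ha : a ≤ hi) (q : Qg op) (hD : Cl op D)
    (hA : ∀ i, Cl op (A i)) (hc : ∀ l ∈ T, c ≤ dn D (A l)) (cl : Clu op A c e D T H) {Φ : ℝ}
    (tg : Tight op A c e D a T (dn D H) Φ) (Φ0 : 0 ≤ Φ) (hm : #T ≤ 2 ^ m) (hB : c ^ 3 ≤ dn D B)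
    (hB' : dn D (B \ H) ≤ e) :
    ∑ l ∈ T, psi a θ (rel D (dn D H) B (A l)) ≤ Y ^ 3 * (Φ * dn D H ^ a) :=
  (So.heavy q hD hA P.c0 (by linarith [P.c1]) P.θ0 (by linarith [(P.fact ha).1]) P.he hc cl tg Φ0 hm
    hB hB').trans ((P.fact ha).2.2.2.2 _ (mul_nonneg Φ0 (pow_nonneg (dn_nonneg _ _) _)))

/-- Removal of the tight clusters. -/
theorem remove (P : Par c θ e t x Y m hi) (ha : a ≤ hi) (q : Qg op) (hD : Cl op D)
    (hA : ∀ i, Cl op (A i)) (ih : Lv op A c e m a (3 / 2 * β) η π') (aπ : 2 * Y ^ 3 ≤ 2 ^ a * π')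
    (dm : #D < 2 ^ m) (vm : #V ≤ 2 ^ m) (cβ : 2 * c ≤ β) (hb : ∀ i ∈ V, 9 / 10 * β ≤ dn D (A i))
    (w0 : ∀ i k, 0 ≤ w i k) (hw : ∀ i ∈ V, ∀ k ∈ V, cw A D η i k ≤ w i k) {ϑ Φ : ℝ} (ϑ1 : ϑ ≤ 1 / 2) :
    ∃ V' ⊆ V, Tight op A c e D a V' 1 Φ ∧
      π' / 2 * (Φ / Y) * (#V - #V') ≤ ms A a ϑ 1 w D V := by
  classical
  obtain ⟨θ1, Y1, -, pY, -⟩ := P.fact ha
  have c0 := P.c0
  have θ0 := P.θ0
  have P0 : (0 : ℝ) < 2 ^ a := by positivity
  have Y0 : 0 < Y := by linarith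
  have π0 : 0 < π' := pos_of_mul_pos_right (lt_of_lt_of_le (by positivity) aπ) P0.le
  obtain ⟨V', s, u, v⟩ := extract (fun S => ∃ H, S.Nonempty ∧ Clu op A c e D S H ∧
      dn D H ≤ 11 / 20 ∧ Φ * dn D H ^ a ≤ #S ∧ Tight op A c e D a S (dn D H) (#S / dn D H ^ a))
    (fun k i => w k i * psi a ϑ (rel D 1 (A k) (A i)))
    (fun k i => mul_nonneg (w0 k i) (psi_nonneg _ _ _)) (π' / 2 * (Φ / Y)) V fun S sS p => by
      obtain ⟨H, n, cl, h1, h2, tg⟩ := p
      have h0 : 0 < dn D H := by linarith [cl.2.1]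
      have n0 : (0 : ℝ) < #S := by exact_mod_cast n.card_pos
      have hc : ∀ l ∈ S, c ≤ dn D (A l) := fun l hl => by linarith [hb l (sS hl)]
      have sm := (card_le_card sS).trans vm
      have k1 := ih D hD dm S H n sm cl tg fun l hl => ⟨hc l hl, by nlinarith [hb l (sS hl)]⟩
      have k2 : ∀ k ∈ S, (#{i ∈ S | θ < |rel D (dn D H) (A k) (A i) - 1|} : ℝ) ≤ π' / 2 * #S :=
        fun k hk => by
          have z := (cnt_psi S _).trans (P.heavy ha q hD hA hc cl tg (by positivity) sm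
            ((pow_le_of_le_one c0.le (by linarith [P.c1]) (by norm_num)).trans (hc k hk))
            (cl.2.2 k hk))
          rw [div_mul_cancel₀ _ (pow_pos h0 a).ne'] at z
          refine le_of_mul_le_mul_right (z.trans ?_) P0
          nlinarith
      have r0 : 0 ≤ ((1 - θ) / dn D H) ^ a := pow_nonneg (div_nonneg (by linarith) h0.le) a
      have k3 : ∀ k ∈ S, ((1 - θ) / dn D H) ^ a * (∑ i ∈ S, cw A D η k i - π' / 2 * #S) ≤
          ∑ i ∈ S, w k i * psi a ϑ (rel D 1 (A k) (A i)) := fun k hk => by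
        refine (mul_le_mul_of_nonneg_left (sub_le_sub_left (k2 k hk) _) r0).trans ?_
        rw [← sum_boole, ← sum_sub_distrib, mul_sum]
        refine sum_le_sum fun i hi => ?_
        have z0 := mul_nonneg (w0 k i) (psi_nonneg a ϑ (rel D 1 (A k) (A i)))
        have z1 := hw k (sS hk) i (sS hi)
        unfold cw at z1 ⊢
        split_ifs at z1 ⊢ with g1 g2 g2
        · simpa using z0
        · have z2 : (1 - θ) / dn D H ≤ rel D 1 (A k) (A i) := by
            rw [div_le_iff₀ h0, show rel D 1 (A k) (A i) * dn D H = rel D (dn D H) (A k) (A i) by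
              unfold rel; ring]
            linarith [(abs_le.1 (not_lt.1 g2)).1]
          have z3 : 17 / 10 ≤ (1 - θ) / dn D H := by rw [le_div_iff₀ h0]; linarith
          have z4 : ((1 - θ) / dn D H) ^ a ≤ psi a ϑ (rel D 1 (A k) (A i)) := by
            rw [psi, if_pos (lt_of_lt_of_le (by linarith) (le_abs_self _))]
            exact pow_le_pow_left₀ (by linarith) (z2.trans (le_max_left _ _)) a
          nlinarith [mul_le_mul_of_nonneg_right z1 (psi_nonneg a ϑ (rel D 1 (A k) (A i)))]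
        · linarith
        · simpa using z0
      refine ⟨n, le_trans ?_ (sum_le_sum k3)⟩
      rw [← mul_sum, sum_sub_distrib, sum_const, nsmul_eq_mul]
      have k4 : Φ / Y ≤ ((1 - θ) / dn D H) ^ a * #S := by
        have z : 1 ≤ (1 - θ) ^ a * Y := le_trans (by
          rw [← mul_pow]; exact one_le_pow₀ (by nlinarith))
          (mul_le_mul_of_nonneg_left pY (pow_nonneg (by linarith) a))
        rw [div_pow, div_mul_eq_mul_div, div_le_div_iff₀ (by linarith) (pow_pos h0 a)]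
        nlinarith [mul_le_mul_of_nonneg_right z n0.le]
      nlinarith [mul_le_mul_of_nonneg_left k4 (mul_pos π0 n0).le, mul_le_mul_of_nonneg_left k1 r0]
  refine ⟨V', s, fun S sS H n cl h1 => not_lt.1 fun z => ?_, v⟩
  obtain ⟨S', H', ⟨p1, p2, p3, p4, p5⟩, p6⟩ := tighten a c0 n cl
  have h0 : 0 < dn D H := by linarith [cl.2.1]
  refine u S' (p1.trans sS) ⟨H', p2, p3, by linarith, le_of_mul_le_mul_right ?_ (pow_pos h0 a), p6⟩
  nlinarith [mul_le_mul_of_nonneg_right z.le (pow_nonneg (dn_nonneg D H') a)]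

/-- The run cannot last. -/
theorem run2 (P : Par c θ e t x Y m hi) (ha : a ≤ hi) (q : Qg op) (hA : ∀ i, Cl op (A i))
    (ih : Lv op A c e m a (3 / 2 * β) η π') (aπ : 2 * Y ^ 3 ≤ 2 ^ a * π') (ax : 1 ≤ 2 ^ a * x ^ 2)
    (cβ : 2 * c ≤ β) (w0 : ∀ i k, 0 ≤ w i k) (N0 : 0 < N) (π0 : 0 ≤ π) (ππ : π * Y ^ 17 ≤ π')
    (s : ℕ) : s ≤ m → ∀ (D : Finset X) (V : Finset ι), Cl op D → #D < 2 ^ s → #V ≤ 2 ^ m →
      N * (m + s) ≤ 4 * m * #V → (∀ i ∈ V, β * (9 / 10 + s * x) ≤ dn D (A i) ∧ dn D (A i) ≤ 1 / 2) →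
      (∀ i ∈ V, ∀ k ∈ V, cw A D (η + 4 * s * x) i k ≤ w i k) →
      ∑ k ∈ V, ∑ i ∈ V, w k i ≤ π * N ^ 2 →
      ((1 + 5 * t) ^ a * (1 + 4 / Y ^ 2)) ^ s * (ms A a (7 * θ - 5 * s * t) 1 w D V +
        s * (4 / Y * π * N ^ 2)) ≤ Y ^ 2 * π * N ^ 2 → False := by
  obtain ⟨θ1, Y1, cY, pY, -⟩ := P.fact ha
  have c0 := P.c0
  have θ0 := P.θ0
  have x0 := P.x0
  have ht := P.ht
  have mY := P.mY
  have Y0 : 0 < Y := by linarith
  have m0 : (0 : ℝ) < m := by
    rcases (Nat.cast_nonneg (α := ℝ) m).eq_or_lt with z | z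
    · rw [← z] at ht; linarith
    · exact z
  have m1 : (1 : ℝ) ≤ m := by exact_mod_cast (by exact_mod_cast m0 : 0 < m)
  have t0 : 0 < t := pos_of_mul_pos_right (ht ▸ θ0 : 0 < 5 * m * t) (by positivity)
  have t1 : 5 * t ≤ θ := by linarith [mul_le_mul_of_nonneg_right m1 t0.le]
  have tY : 1 ≤ 5 * t * Y ^ 2 := by
    linarith [P.θY, mul_le_mul_of_nonneg_left (show (m : ℝ) ≤ Y by linarith) (mul_pos t0 Y0).le,
      congrArg (· * Y) ht]
  have xt : x ≤ t := le_of_mul_le_mul_right (by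
    linarith [P.xY, mul_le_mul_of_nonneg_left Y1 (mul_pos t0 (pow_pos Y0 2)).le]) (pow_pos Y0 3)
  have mx : m * x ≤ 1 / 20 := by linarith [mul_le_mul_of_nonneg_left xt m0.le]
  have P0 : (0 : ℝ) < 2 ^ a := by positivity
  have β0 : 0 < β := by linarith
  have G1 : 1 ≤ (1 + 5 * t) ^ a * (1 + 4 / Y ^ 2) :=
    one_le_mul_of_one_le_of_one_le (one_le_pow₀ (by linarith)) (le_add_of_nonneg_right (by positivity))
  have W0 : 0 ≤ 4 / Y * π * N ^ 2 := by positivity
  have m00 : ∀ ϑ D V, 0 ≤ ms A a ϑ 1 w D V := fun ϑ D V =>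
    sum_nonneg fun _ _ => sum_nonneg fun _ _ => mul_nonneg (w0 _ _) (psi_nonneg _ _ _)
  induction s with
  | zero =>
    intro _ D V _ dm _ hV hb _ _ _
    obtain ⟨i, hi⟩ : V.Nonempty := card_pos.1 (by
      exact_mod_cast (pos_of_mul_pos_right (lt_of_lt_of_le (by positivity) hV) (by positivity) :
        (0 : ℝ) < #V))
    have := ((ne_of_dn (lt_of_lt_of_le (by positivity) (hb i hi).1)).mono inter_subset_left).card_pos
    omega
  | succ s rec =>
    intro sm D V hD dm vm hV hb hw hπ hM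
    have s0 : (0 : ℝ) ≤ s := Nat.cast_nonneg s
    have s1 : (s : ℝ) + 1 ≤ m := by exact_mod_cast sm
    push_cast at hV hb hw hM
    have sx : (s + 1) * x ≤ 1 / 20 := (mul_le_mul_of_nonneg_right s1 x0.le).trans mx
    have st : 5 * (s + 1) * t ≤ θ := by linarith [mul_le_mul_of_nonneg_right s1 t0.le]
    have st' : 0 ≤ 5 * (s + 1) * t := by positivity
    have sx' : 0 ≤ (s + 1) * x := by positivity
    have h9 : ∀ i ∈ V, 9 / 10 * β ≤ dn D (A i) := fun i hi => by
      linarith [(hb i hi).1, mul_nonneg β0.le sx']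
    obtain ⟨V', sV, tg, rm⟩ := remove P ha q hD hA ih aπ
      (dm.trans_le (Nat.pow_le_pow_right two_pos sm)) vm cβ h9 w0 (fun i hi k hk => le_trans
        (cw_le fun g => by linarith) (hw i hi k hk))
      (ϑ := 7 * θ - 5 * (s + 1) * t) (Φ := N / Y ^ 12) (by linarith)
    have M1 : ms A a (7 * θ - 5 * (s + 1) * t) 1 w D V ≤ Y ^ 2 * π * N ^ 2 :=
      le_trans (le_trans (le_add_of_nonneg_right (by positivity)) (le_mul_of_one_le_left
        (add_nonneg (m00 _ _ _) (by positivity)) (one_le_pow₀ G1))) hM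
    have π1 : 0 < π' := pos_of_mul_pos_right (lt_of_lt_of_le (by positivity) aπ) P0.le
    have r1 : 8 * m * ((#V : ℝ) - #V') ≤ N := by
      have z := rm.trans M1
      rw [show π' / 2 * (N / Y ^ 12 / Y) = π' * N / (2 * Y ^ 13) by field_simp, div_mul_eq_mul_div,
        div_le_iff₀ (by positivity)] at z
      have z1 : 16 * m ≤ Y ^ 2 := by linarith [mul_le_mul_of_nonneg_right Y1 Y0.le]
      refine le_of_mul_le_mul_left ?_ (mul_pos π1 N0)
      linarith [mul_le_mul_of_nonneg_left z (show (0 : ℝ) ≤ 8 * m by positivity),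
        mul_le_mul_of_nonneg_right ππ (sq_nonneg N),
        mul_le_mul_of_nonneg_right z1 (show 0 ≤ π * Y ^ 15 * N ^ 2 by positivity)]
    have r2 : N ≤ 4 * #V' := le_of_mul_le_mul_left (by linarith [mul_nonneg N0.le s0]) m0
    have n : V'.Nonempty := card_pos.1 (by exact_mod_cast (by linarith : (0 : ℝ) < #V'))
    have hc : ∀ i ∈ V', c ≤ dn D (A i) := fun i hi => by linarith [h9 i (sV hi)]
    have b0 : ∀ i ∈ V', 0 < dn D (A i) := fun i hi => c0.trans_le (hc i hi)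
    have ne : D.Nonempty := let ⟨i, hi⟩ := n; (ne_of_dn (b0 i hi)).mono inter_subset_left
    have e0 : 0 ≤ e := by rw [P.he]; positivity
    have cl := clu_self (A := A) hD ne (show c ≤ 1 by linarith [P.c1]) e0
    have hy : ∀ B, c ^ 3 ≤ dn D B → ∑ l ∈ V', psi a θ (rel D 1 B (A l)) ≤ N / Y ^ 9 := fun B hB => by
      have z := P.heavy ha q hD hA hc (cl V') (Φ := N / Y ^ 12) (by rwa [dn_self ne]) (by positivity)
        ((card_le_card sV).trans vm) hB ((clu_self (A := fun _ : ι => B) hD ne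
          (show c ≤ 1 by linarith [P.c1]) e0 V').2.2 _ n.choose_spec)
      rw [dn_self ne, one_pow] at z
      exact z.trans_eq (by field_simp)
    have c3 : c ^ 3 ≤ c := pow_le_of_le_one c0.le (by linarith [P.c1]) (by norm_num)
    have bs := fun τ τ0 => besselC q hD ne A V' hA c0 hc (e := c ^ 4 / 2) (by positivity) le_rfl
      (S := N / Y ^ 9 / 2 ^ a) (t := τ) (by positivity) (fun k hk => by
        rw [le_div_iff₀ P0]
        refine le_trans (mul_le_mul_of_nonneg_right (Nat.cast_le.2 (card_le_card fun i hi => ?_))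
          P0.le) ((cnt_psi V' _).trans (hy _ (c3.trans (hc k hk))))
        obtain ⟨i1, i2⟩ := mem_filter.1 hi
        exact mem_filter.2 ⟨i1, lt_of_lt_of_le (by linarith [P.θc]) (cov_le (b0 k hk) (b0 i i1))⟩) τ0
    have hΛ : ∀ k ∈ V', ∀ i ∈ V', c ^ 3 ≤ dn D (A k ∩ A i) →
        ∑ l ∈ V', psi a t (rel D 1 (A k ∩ A i) (A l)) ≤ 4 / Y ^ 2 * #V' := fun k _ i _ hB => by
      have z1 := bs (c ^ 4 * t) (by positivity) (A k ∩ A i)
      have z2 : ∑ l ∈ V', psi a t (rel D 1 (A k ∩ A i) (A l)) ≤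
          ∑ l ∈ V', (psi a θ (rel D 1 (A k ∩ A i) (A l)) +
            2 ^ a * if c ^ 4 * t < |cov D (A k ∩ A i) (A l)| then 1 else 0) :=
        sum_le_sum fun l hl => by
          by_cases g : t < |rel D 1 (A k ∩ A i) (A l) - 1|
          · rw [if_pos (cov_ge (pow_pos c0 4) ((pow_pos c0 3).trans_le hB) (b0 l hl) (by
              rw [pow_succ]; exact mul_le_mul hB (hc l hl) c0.le (dn_nonneg _ _)) g)]
            unfold psi
            rw [if_pos g]
            split_ifs with g'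
            · linarith
            · rw [max_eq_right (by linarith [(abs_le.1 (not_lt.1 g')).2])]
              linarith
          · rw [psi, if_neg g]
            exact add_nonneg (psi_nonneg _ _ _) (by split_ifs <;> positivity)
      rw [sum_add_distrib, ← mul_sum, sum_boole] at z2
      have z3 : 100 ≤ c ^ 4 * (c ^ 4 * t) ^ 2 * Y ^ 7 := by
        linarith [mul_le_mul (pow_le_pow_left₀ (by norm_num) cY 3) (pow_le_pow_left₀ zero_le_one tY 2)
          (by norm_num) (by positivity)]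
      have z4 : 2 ^ a * (2 * (N / Y ^ 9 / 2 ^ a) / (c ^ 4 * (c ^ 4 * t) ^ 2)) ≤ N / Y ^ 2 / 2 := by
        rw [← mul_div_assoc, div_le_iff₀ (by positivity),
          show 2 ^ a * (2 * (N / Y ^ 9 / 2 ^ a)) = N / Y ^ 9 * 2 by field_simp,
          show N / Y ^ 2 / 2 * (c ^ 4 * (c ^ 4 * t) ^ 2) =
            N / Y ^ 9 * (c ^ 4 * (c ^ 4 * t) ^ 2 * Y ^ 7 / 2) by field_simp]
        exact mul_le_mul_of_nonneg_left (by linarith) (by positivity)
      have z5 : N / Y ^ 9 ≤ N / Y ^ 2 / 2 := by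
        rw [div_div]
        refine div_le_div_of_nonneg_left N0.le (by positivity) ?_
        rw [show Y ^ 9 = Y ^ 2 * Y ^ 7 by ring]
        exact mul_le_mul_of_nonneg_left (le_trans (by linarith)
          (le_self_pow₀ (by linarith) (by norm_num))) (by positivity)
      have z6 : N / Y ^ 2 ≤ 4 / Y ^ 2 * #V' := by
        rw [div_mul_eq_mul_div]; exact div_le_div_of_nonneg_right r2 (by positivity)
      linarith [mul_le_mul_of_nonneg_left z1 P0.le, hy _ hB]
    obtain ⟨l, hl, ml⟩ := exists_le_of_sum_le n ((step c0 P.c1 one_pos le_rfl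
      (θ := 7 * θ - 5 * (s + 1) * t) (by linarith) (by linarith) t0.le (by linarith) (by positivity)
      hc w0 hΛ).trans_eq (by rw [← nsmul_eq_mul, ← sum_const]))
    have lam : ∀ i ∈ V', dn (D ∩ A l) (A i) = rel D 1 (A i) (A l) * dn D (A i) := fun i hi => by
      rw [dn_in (b0 l hl), div_eq_iff (b0 l hl).ne', mul_assoc, rel_mul 1 (b0 i hi) (b0 l hl), one_mul]
    have sW : {i ∈ V' | |rel D 1 (A i) (A l) - 1| ≤ x} ⊆ V := (filter_subset _ _).trans sV
    have hD' := hD.inter (hA l)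
    refine rec (by omega) (D ∩ A l) {i ∈ V' | |rel D 1 (A i) (A l) - 1| ≤ x} hD' ?_
      ((card_le_card sW).trans vm) ?_ (fun i hi => ?_) (fun i hi k hk => ?_) ?_ ?_
    · have z := (hb l (sV hl)).2
      rw [dn, div_le_iff₀ (by exact_mod_cast ne.card_pos)] at z
      have : 2 * #(D ∩ A l) ≤ #D := by exact_mod_cast (by linarith : (2 : ℝ) * #(D ∩ A l) ≤ #D)
      omega
    · have z1 := bs (c * c * x) (by positivity) (A l)
      have z2 : (#{i ∈ V' | ¬|rel D 1 (A i) (A l) - 1| ≤ x} : ℝ) ≤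
          #{i ∈ V' | c * c * x < |cov D (A l) (A i)|} := Nat.cast_le.2 (card_le_card fun i hi => by
        obtain ⟨i1, i2⟩ := mem_filter.1 hi
        exact mem_filter.2 ⟨i1, cov_ge (mul_pos c0 c0) (b0 l hl) (b0 i i1)
          (mul_le_mul (hc l hl) (hc i i1) c0.le (dn_nonneg _ _)) (rel_comm D 1 _ _ ▸ not_le.1 i2)⟩)
      have z3 : (#{i ∈ V' | |rel D 1 (A i) (A l) - 1| ≤ x} : ℝ) +
          #{i ∈ V' | ¬|rel D 1 (A i) (A l) - 1| ≤ x} = #V' := by
        exact_mod_cast card_filter_add_card_filter_not (s := V') _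
      have z4 : 8 * m * (2 * (N / Y ^ 9 / 2 ^ a) / (c ^ 4 * (c * c * x) ^ 2)) ≤ N := by
        rw [show 8 * m * (2 * (N / Y ^ 9 / 2 ^ a) / (c ^ 4 * (c * c * x) ^ 2)) =
          N * (16 * m / ((c ^ 4 * Y) ^ 2 * Y * (Y ^ 6 * (2 ^ a * x ^ 2)))) by field_simp; ring]
        refine mul_le_of_le_one_right N0.le (div_le_one_of_le₀ ?_ (by positivity))
        refine le_trans ?_ (le_mul_of_one_le_right (by positivity)
          (one_le_mul_of_one_le_of_one_le (one_le_pow₀ (by linarith)) ax))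
        linarith [mul_le_mul_of_nonneg_right (pow_le_pow_left₀ (by norm_num) cY 2) Y0.le]
      linarith [mul_le_mul_of_nonneg_left (z2.trans z1) (show (0 : ℝ) ≤ 8 * m by positivity),
        congrArg ((m : ℝ) * ·) z3]
    · obtain ⟨i1, i2⟩ := mem_filter.1 hi
      obtain ⟨i3, i4⟩ := abs_le.1 i2
      obtain ⟨i5, i6⟩ := hb i (sV i1)
      refine ⟨?_, dn_half q hD' (hA i) ?_ (ne_of_dn (b0 l hl))⟩ <;> rw [lam i i1]
      · linarith [mul_le_mul (show 1 - x ≤ rel D 1 (A i) (A l) by linarith) i5 (by positivity)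
          (rel_nonneg zero_le_one _ _ _), mul_le_mul_of_nonneg_left sx (mul_pos β0 x0).le,
          mul_pos β0 x0]
      · linarith [mul_le_mul_of_nonneg_right i4 (b0 i i1).le, mul_le_mul_of_nonneg_left i6 x0.le]
    · have lg : ∀ i ∈ ({i ∈ V' | |rel D 1 (A i) (A l) - 1| ≤ x} : Finset ι),
          |Real.log (dn (D ∩ A l) (A i)) - Real.log (dn D (A i))| ≤ 2 * x := fun i hi => by
        obtain ⟨i1, i2⟩ := mem_filter.1 hi
        have i3 : 1 / 2 ≤ rel D 1 (A i) (A l) := by linarith [(abs_le.1 i2).1]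
        have z := abs_log_sub one_half_pos i3 (show (1 / 2 : ℝ) ≤ 1 by norm_num)
        rw [Real.log_one, sub_zero] at z
        rw [lam i i1, Real.log_mul (by linarith) (b0 i i1).ne', add_sub_cancel_right]
        linarith
      obtain ⟨y1, y2⟩ := abs_le.1 (lg i hi)
      obtain ⟨y3, y4⟩ := abs_le.1 (lg k hk)
      exact le_trans (cw_le fun g1 => abs_le.2 ⟨by linarith [(abs_le.1 g1).1],
        by linarith [(abs_le.1 g1).2]⟩) (hw i (sW hi) k (sW hk))
    · exact le_trans ((sum_le_sum fun _ _ => sum_le_sum_of_subset_of_nonneg sW fun _ _ _ =>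
        w0 _ _).trans (sum_le_sum_of_subset_of_nonneg sW fun _ _ _ =>
          sum_nonneg fun _ _ => w0 _ _)) hπ
    · refine le_trans ?_ hM
      rw [pow_succ _ s, mul_assoc (_ ^ s)]
      refine mul_le_mul_of_nonneg_left ?_ (pow_nonneg (zero_le_one.trans G1) s)
      rw [show 7 * θ - 5 * s * t = 7 * θ - 5 * (s + 1) * t + 5 * t by ring]
      have z1 := (ms_mono (A := A) (a := a) (θ := 7 * θ - 5 * (s + 1) * t + 5 * t) (h := 1)
        (D := D ∩ A l) w0 (monotone_filter_right V' fun i _ (g : |rel D 1 (A i) (A l) - 1| ≤ x) =>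
          g.trans xt)).trans ml
      have z2 := ms_mono (A := A) (a := a) (θ := 7 * θ - 5 * (s + 1) * t) (h := 1) (D := D) w0 sV
      have z3 : ∑ k ∈ V', ∑ i ∈ V', w k i ≤ π * N ^ 2 :=
        le_trans ((sum_le_sum fun _ _ => sum_le_sum_of_subset_of_nonneg sV fun _ _ _ =>
          w0 _ _).trans (sum_le_sum_of_subset_of_nonneg sV fun _ _ _ =>
            sum_nonneg fun _ _ => w0 _ _)) hπ
      have z4 : (1 + (7 * θ - 5 * (s + 1) * t)) ^ a * (4 / Y ^ 2) * ∑ k ∈ V', ∑ i ∈ V', w k i ≤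
          4 / Y * π * N ^ 2 :=
        le_trans (b := Y * (4 / Y ^ 2) * (π * N ^ 2)) (mul_le_mul (mul_le_mul_of_nonneg_right
          ((pow_le_pow_left₀ (by linarith) (by linarith) a).trans pY) (by positivity)) z3
          (sum_nonneg fun _ _ => sum_nonneg fun _ _ => w0 _ _) (by positivity))
          (le_of_eq (by field_simp))
      have z5 : 0 ≤ 4 / Y ^ 2 := by positivity
      have z6 : 0 ≤ (1 + 5 * t) ^ a := by positivity
      generalize 4 / Y * π * N ^ 2 = W at *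
      generalize 4 / Y ^ 2 = Λ at *
      have z7 := mul_le_mul_of_nonneg_left (add_le_add
        (mul_le_mul_of_nonneg_left z2 (show 0 ≤ 1 + Λ by linarith)) z4) z6
      linarith [mul_le_mul_of_nonneg_right G1 (mul_nonneg s0 W0),
        mul_nonneg z6 (mul_nonneg z5 W0)]

end Pool.Agent.MP_3df3be_co.So
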