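import Pool.Agent.MP_3df3be_co.Pl5

/-! The induction on the depth, and the choice of the scale. -/

set_option linter.unusedSectionVars false

namespace Pool.Agent.MP_3df3be_co.So

open Finset
open scoped BigOperators

variable {X ι : Type} [DecidableEq X] {op : X → X → X} {A : ι → Finset X} {D H B : Finset X}
  {T U V : Finset ι} {c e θ t x Y β η π π' N : ℝ} {a m hi Δ lo J : ℕ} {w : ι → ι → ℝ}

theorem cw_nonneg (A : ι → Finset X) (D : Finset X) (η : ℝ) (k i : ι) : 0 ≤ cw A D η k i := by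
  unfold cw
  split_ifs <;> norm_num

theorem sum2_mono (w0 : ∀ i k, 0 ≤ w i k) (s : U ⊆ T) :
    ∑ k ∈ U, ∑ i ∈ U, w k i ≤ ∑ k ∈ T, ∑ i ∈ T, w k i :=
  (sum_le_sum fun _ _ => sum_le_sum_of_subset_of_nonneg s fun _ _ _ => w0 _ _).trans
    (sum_le_sum_of_subset_of_nonneg s fun _ _ _ => sum_nonneg fun _ _ => w0 _ _)

theorem psi_shift (a Δ : ℕ) (t u : ℝ) : 2 ^ Δ * psi a t u ≤ psi (a + Δ) t u := by
  unfold psi
  split_ifs
  · rw [pow_add, mul_comm]
    exact mul_le_mul_of_nonneg_left (pow_le_pow_left₀ two_pos.le (le_max_right _ _) Δ)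
      (by positivity)
  · simp

theorem lv_step (P : Par c θ e t x Y m hi) (q : Qg op) (hA : ∀ i, Cl op (A i)) (ha : a + Δ ≤ hi)
    (ih : 3 / 5 ≤ β ∨ Lv op A c e m a (3 / 2 * β) η π') (η0 : 0 ≤ η) (π1 : π' ≤ 1)
    (aπ : 2 * Y ^ 3 ≤ 2 ^ a * π') (ax : Y ^ 8 ≤ 2 ^ a * x ^ 5) (hΔ : Y ^ 26 ≤ 2 ^ Δ * π')
    (cβ : 2 * c ≤ β) : Lv op A c e m (a + Δ) β (η + (4 * m + 1) * x) (π' / Y ^ 18) := by
  classical
  intro D hD dm T H n tm cl tg hb
  obtain ⟨θ1, Y1, cY, pY, -⟩ := P.fact ha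
  have c0 := P.c0
  have θ0 := P.θ0
  have x0 := P.x0
  have mY := P.mY
  have ht := P.ht
  have Y0 : 0 < Y := by linarith
  have Y2 : 1 ≤ Y := by linarith
  have Yp : ∀ {k l : ℕ}, k ≤ l → Y ^ k ≤ Y ^ l := fun h => pow_le_pow_right₀ Y2 h
  have m0 : (0 : ℝ) ≤ m := Nat.cast_nonneg m
  have h0 : 0 < dn D H := by linarith [cl.2.1]
  have n0 : (0 : ℝ) < #T := by exact_mod_cast n.card_pos
  have P0 : (0 : ℝ) < 2 ^ a := by positivity
  have π0 : 0 < π' := pos_of_mul_pos_right (lt_of_lt_of_le (by positivity) aπ) P0.le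
  have YY : 224 * Y ≤ Y ^ 2 := by linarith [mul_le_mul_of_nonneg_right Y1 Y0.le]
  have xY : 224 * (x * Y) ≤ 1 := by
    linarith [P.xY, mul_le_mul_of_nonneg_left YY (mul_pos x0 Y0).le,
      mul_le_mul_of_nonneg_left Y2 (mul_pos x0 Y0).le]
  have x1 : x ≤ 1 := by linarith [mul_le_mul_of_nonneg_left Y2 x0.le]
  have mx : m * x ≤ 1 / 20 := by
    linarith [mul_le_mul_of_nonneg_right (show (m : ℝ) ≤ Y by linarith) x0.le]
  have pw : ∀ s : ℝ, 0 ≤ s → s ≤ 7 * θ → (1 + s) ^ (a + Δ) ≤ Y := fun s s0 s1 =>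
    (pow_le_pow_left₀ (by linarith) (by linarith) _).trans pY
  obtain ⟨l, hl, U, sU, cU, dU, lU, mU⟩ := trans q hD hA c0 P.c1 h0 (dn_le_one D H) θ0
    (by linarith [P.θc]) (Z := Y ^ 3) (Z' := Y ^ 8) (a := a + Δ) n (fun l hl => (hb l hl).1)
    (fun l hl => (hb l hl).2) cβ (by positivity) (fun k hk i _ hB => by
      have z := P.heavy ha q hD hA (fun l hl => (hb l hl).1) cl tg (by positivity) tm hB
        ((dn_mono D (sdiff_subset_sdiff inter_subset_left Subset.rfl)).trans (cl.2.2 k hk))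
      rwa [div_mul_cancel₀ _ (pow_pos h0 _).ne'] at z)
    (le_trans (b := Y * ((1 + Y ^ 3) * Y ^ 3 + Y * Y ^ 3)) (mul_le_mul (pw _ (by linarith) (by linarith))
      (add_le_add le_rfl (mul_le_mul_of_nonneg_right (pw _ θ0.le (by linarith)) (by positivity)))
      (by positivity) Y0.le) (by
      linarith [Yp (show 4 ≤ 7 by norm_num), Yp (show 5 ≤ 7 by norm_num),
        mul_le_mul_of_nonneg_right Y1 (pow_pos Y0 7).le, pow_pos Y0 7])) x0
    (le_of_mul_le_mul_right (by linarith) Y0)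
    (ax.trans (mul_le_mul_of_nonneg_right (pow_le_pow_right₀ one_le_two (Nat.le_add_right a Δ))
      (by positivity)))
  have N0 : (0 : ℝ) < #U := by linarith
  have hD' := hD.inter (hA l)
  have ne := ne_of_dn (c0.trans_le (hb l hl).1)
  have cn : (#{i ∈ U | 1 / 2 < dn (D ∩ A l) (A i)} : ℝ) + #{i ∈ U | ¬1 / 2 < dn (D ∩ A l) (A i)} =
      #U := by exact_mod_cast card_filter_add_card_filter_not (s := U) _
  have TU := pow_le_pow_left₀ n0.le cU 2
  by_cases u : (#U : ℝ) ≤ 4 * #{i ∈ U | 1 / 2 < dn (D ∩ A l) (A i)}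
  · refine le_trans ?_ (sum2_mono (cw_nonneg A D _)
      ((filter_subset (fun i => 1 / 2 < dn (D ∩ A l) (A i)) U).trans sU))
    have f : ∀ i ∈ ({i ∈ U | 1 / 2 < dn (D ∩ A l) (A i)} : Finset ι), dn (D ∩ A l) (A i) = 1 :=
      fun i hi => (dn_le_one _ _).antisymm (not_lt.1 fun z =>
        (mem_filter.1 hi).2.not_ge (dn_half q hD' (hA i) z ne))
    rw [sum_congr rfl fun k hk => sum_congr rfl fun i hi => show cw A D _ k i = 1 from if_pos (by
      have z := lU k (mem_filter.1 hk).1 i (mem_filter.1 hi).1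
      rw [f k hk, f i hi, sub_self, abs_zero] at z
      linarith [mul_nonneg m0 x0.le])]
    simp only [sum_const, nsmul_eq_mul, mul_one]
    have z1 : π' / Y ^ 18 ≤ 1 / 64 := by
      rw [div_le_iff₀ (by positivity)]
      linarith [le_self_pow₀ Y2 (show 18 ≠ 0 by norm_num)]
    linarith [mul_le_mul_of_nonneg_right z1 (sq_nonneg (#T : ℝ)), pow_le_pow_left₀ N0.le u 2]
  rcases ih with ih | ih
  · refine absurd ?_ u
    rw [filter_true_of_mem fun i hi => lt_of_lt_of_le (by nlinarith) (dU i hi)]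
    linarith
  have sV := filter_subset (fun i => ¬1 / 2 < dn (D ∩ A l) (A i)) U
  have m1 : 0 < (m : ℝ) := m0.lt_of_ne fun z => by rw [← z] at ht; linarith
  have t0 : 0 < t := pos_of_mul_pos_right (ht ▸ θ0 : 0 < 5 * m * t) (by positivity)
  by_contra! lt
  refine run2 P (le_trans (Nat.le_add_right a Δ) ha) q hA ih aπ
    ((one_le_pow₀ Y2).trans (ax.trans (mul_le_mul_of_nonneg_left
      (pow_le_pow_of_le_one x0.le x1 (by norm_num)) P0.le))) cβ
    (cw_nonneg A (D ∩ A l) (η + 4 * m * x)) N0 (π := π' / Y ^ 17) (by positivity)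
    (div_mul_cancel₀ _ (by positivity)).le m le_rfl (D ∩ A l) _ hD'
    ((card_le_card inter_subset_left).trans_lt dm) ((card_le_card (sV.trans sU)).trans tm) ?_
    (fun i hi => ⟨le_trans ?_ (dU i (sV hi)), not_lt.1 (mem_filter.1 hi).2⟩) (fun _ _ _ _ => le_rfl)
    ?_ ?_
  · linarith [mul_le_mul_of_nonneg_left (not_le.1 u).le m0, congrArg ((m : ℝ) * ·) cn,
      mul_nonneg m0 N0.le]
  · rw [mul_comm]
    exact mul_le_mul_of_nonneg_right (by linarith) (by linarith)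
  · refine le_trans (sum_le_sum fun k hk => sum_le_sum fun i hi => cw_le (D' := D)
      (η' := η + (4 * m + 1) * x) fun g => by linarith [lU k (sV hk) i (sV hi)]) ?_
    refine (sum2_mono (cw_nonneg A D _) (sV.trans sU)).trans (lt.le.trans ?_)
    rw [show π' / Y ^ 17 = π' / Y ^ 18 * Y by field_simp, mul_assoc]
    refine mul_le_mul_of_nonneg_left ?_ (by positivity)
    linarith [mul_le_mul_of_nonneg_right Y1 (sq_nonneg (#U : ℝ)), sq_nonneg (#U : ℝ)]
  · have g1 : (1 + 5 * t) ^ m ≤ 1 + 7 * θ := by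
      refine (pow_le_pow_left₀ (by linarith) (by linarith [Real.add_one_le_exp (5 * t)] :
        1 + 5 * t ≤ Real.exp (5 * t)) m).trans ?_
      rw [← Real.exp_nat_mul, show m * (5 * t) = θ by linarith]
      refine (Real.exp_bound_div_one_sub_of_interval θ0.le (by linarith)).trans ?_
      rw [div_le_iff₀ (by linarith)]
      nlinarith
    have g2 : (1 + 4 / Y ^ 2) ^ m ≤ 3 := by
      refine (pow_le_pow_left₀ (by positivity) (by linarith [Real.add_one_le_exp (4 / Y ^ 2)] :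
        1 + 4 / Y ^ 2 ≤ Real.exp (4 / Y ^ 2)) m).trans ?_
      rw [← Real.exp_nat_mul]
      refine (Real.exp_le_exp.2 (show _ ≤ (1 : ℝ) from ?_)).trans (by linarith [Real.exp_one_lt_d9])
      rw [← mul_div_assoc, div_le_one (by positivity)]
      linarith
    have g3 : ((1 + 5 * t) ^ a * (1 + 4 / Y ^ 2)) ^ m ≤ Y * 3 := by
      rw [mul_pow, ← pow_mul, mul_comm a, pow_mul]
      exact mul_le_mul ((pow_le_pow_left₀ (by positivity) g1 a).trans
        (P.fact (le_trans (Nat.le_add_right a Δ) ha)).2.2.2.1) g2 (by positivity) Y0.le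
    have g4 : ms A a (7 * θ - 5 * m * t) 1 (cw A (D ∩ A l) (η + 4 * m * x)) (D ∩ A l)
        {i ∈ U | ¬1 / 2 < dn (D ∩ A l) (A i)} ≤ π' / Y ^ 17 * #U ^ 2 := by
      refine le_of_mul_le_mul_left (le_trans ?_ (((ms_mono (fun _ _ => zero_le_one) sV).trans
        mU).trans ?_)) (pow_pos two_pos Δ)
      · rw [show 7 * θ - 5 * m * t = θ + 5 * θ by linarith]
        simp only [ms, mul_sum, one_mul]
        refine sum_le_sum fun k _ => sum_le_sum fun i _ => le_trans ?_ (psi_shift a Δ _ _)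
        refine mul_le_mul_of_nonneg_left (mul_le_of_le_one_left (psi_nonneg _ _ _) ?_) (by positivity)
        unfold cw
        split_ifs <;> norm_num
      · rw [← mul_assoc, ← mul_div_assoc]
        have z : Y ^ 9 ≤ 2 ^ Δ * π' / Y ^ 17 := by
          rw [le_div_iff₀ (by positivity), ← pow_add]; exact hΔ
        linarith [mul_le_mul_of_nonneg_right z (sq_nonneg (#U : ℝ)),
          mul_le_mul_of_nonneg_left TU (pow_pos Y0 8).le,
          mul_le_mul_of_nonneg_right Y1 (show 0 ≤ Y ^ 8 * #U ^ 2 by positivity),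
          show 0 ≤ Y ^ 8 * #U ^ 2 by positivity]
    have g5 : m * (4 / Y * (π' / Y ^ 17) * #U ^ 2) ≤ 4 * (π' / Y ^ 17 * #U ^ 2) := by
      rw [mul_assoc (4 / Y), ← mul_assoc]
      refine mul_le_mul_of_nonneg_right ?_ (by positivity)
      rw [← mul_div_assoc, div_le_iff₀ Y0]
      linarith
    refine (mul_le_mul g3 (add_le_add g4 g5) (add_nonneg (sum_nonneg fun _ _ => sum_nonneg fun _ _ =>
      mul_nonneg (cw_nonneg _ _ _ _ _) (psi_nonneg _ _ _)) (by positivity)) (by positivity)).trans ?_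
    have z : 0 ≤ π' / Y ^ 17 * #U ^ 2 := by positivity
    linarith [mul_le_mul_of_nonneg_right YY z, mul_nonneg Y0.le z]

theorem lv_all (P : Par c θ e t x Y m hi) (q : Qg op) (hA : ∀ i, Cl op (A i))
    (hΔ : Y ^ 26 * Y ^ (18 * J) ≤ 2 ^ Δ) (hl : Δ ≤ lo) (ax : Y ^ 8 ≤ 2 ^ lo * x ^ 5)
    (cJ : 2 * c ≤ 3 / 5 * (2 / 3) ^ J) (hh : lo + (J + 1) * Δ ≤ hi) (r : ℕ) : r ≤ J →
      Lv op A c e m (lo + (r + 1) * Δ) (3 / 5 * (2 / 3) ^ r) ((r + 1) * ((4 * m + 1) * x))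
        (1 / Y ^ (18 * (r + 1))) := by
  have Y1 := (P.fact le_rfl).2.1
  have Y2 : 1 ≤ Y := by linarith
  have x0 := P.x0
  have st : ∀ r ≤ J, (3 / 5 ≤ 3 / 5 * (2 / 3 : ℝ) ^ r ∨ Lv op A c e m (lo + r * Δ)
      (3 / 2 * (3 / 5 * (2 / 3) ^ r)) (r * ((4 * m + 1) * x)) (1 / Y ^ (18 * r))) →
      Lv op A c e m (lo + (r + 1) * Δ) (3 / 5 * (2 / 3) ^ r) ((r + 1) * ((4 * m + 1) * x))
        (1 / Y ^ (18 * (r + 1))) := fun r hr ih => by
    have u : Y ^ 26 ≤ 2 ^ Δ * (1 / Y ^ (18 * r)) := by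
      rw [mul_one_div, le_div_iff₀ (by positivity)]
      exact (mul_le_mul_of_nonneg_left (pow_le_pow_right₀ Y2 (by omega)) (by positivity)).trans hΔ
    have v : (2 : ℝ) ^ lo ≤ 2 ^ (lo + r * Δ) := pow_le_pow_right₀ one_le_two (by omega)
    have := lv_step P q hA (Δ := Δ) (le_trans (by nlinarith) hh) ih (by positivity)
      (div_le_one_of_le₀ (one_le_pow₀ Y2) (by positivity))
      (le_trans (by
        linarith [pow_le_pow_right₀ Y2 (show 4 ≤ 26 by norm_num), pow_pos (show 0 < Y by linarith) 3,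
          mul_le_mul_of_nonneg_right Y1 (pow_pos (show 0 < Y by linarith) 3).le])
        (u.trans (mul_le_mul_of_nonneg_right ((pow_le_pow_right₀ one_le_two hl).trans v)
          (by positivity))))
      (ax.trans (mul_le_mul_of_nonneg_right v (by positivity))) u
      (cJ.trans (mul_le_mul_of_nonneg_left (pow_le_pow_of_le_one (by norm_num) (by norm_num) hr)
        (by norm_num)))
    rwa [div_div, ← pow_add, add_assoc, ← add_one_mul, ← add_one_mul, ← mul_add_one] at this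
  induction r with
  | zero => exact fun h => st 0 h (.inl (by norm_num))
  | succ r ih =>
    refine fun h => st (r + 1) h (.inr ?_)
    rw [show (3 / 2 * (3 / 5 * (2 / 3) ^ (r + 1)) : ℝ) = 3 / 5 * (2 / 3) ^ r by ring]
    push_cast
    exact ih (by omega)

theorem cj (c0 : 0 < c) (cJ : 2 * c ≤ 3 / 5 * (2 / 3) ^ J) : c ^ 2 * (J + 1) ≤ 9 / 100 := by
  have a : (J : ℝ) + 1 ≤ (9 / 4) ^ J := by
    linarith [one_add_mul_le_pow (show (-2 : ℝ) ≤ 5 / 4 by norm_num) J, Nat.cast_nonneg (α := ℝ) J,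
      show (1 + 5 / 4 : ℝ) ^ J = (9 / 4) ^ J by norm_num]
  have b := pow_le_pow_left₀ c0.le (show c ≤ 3 / 10 * (2 / 3) ^ J by linarith) 2
  refine (mul_le_mul b a (by positivity) (by positivity)).trans_eq ?_
  rw [mul_pow, ← pow_mul, mul_comm J, pow_mul, mul_assoc, ← mul_pow]
  norm_num

/-- A large part of a family of closed sets has close densities. -/
theorem topq (q : Qg op) (hA : ∀ i, Cl op (A i)) (hD : Cl op D) (dm : #D < 2 ^ m) (vm : #V ≤ 2 ^ m)
    (n : V.Nonempty) (c0 : 0 < c) (cJ : 2 * c ≤ 3 / 5 * (2 / 3) ^ J)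
    (hb : ∀ l ∈ V, 3 / 5 * (2 / 3) ^ J ≤ dn D (A l)) {g0 : ℕ} {a0 : ℝ}
    (k1 : Kc c (c ^ 4 / 400 * c ^ 5 / 300) ≤ 2 ^ g0) (k2 : (m : ℝ) + 2 ≤ 2 ^ g0)
    (k3 : 400 ≤ c ^ 4 * 2 ^ g0) (k4 : 128 * (J + 1) ^ 2 * g0 ≤ a0) :
    ∃ y η : ℝ, 0 ≤ η ∧ 0 ≤ y ∧ y * η ≤ Real.exp (-a0 / 3) ∧
      y ≤ Real.exp (2 * (a0 * (2 / c) ^ 9 + 1)) ∧
      ∃ k ∈ V, (#V : ℝ) ≤ y * #{i ∈ V | |Real.log (dn D (A k)) - Real.log (dn D (A i))| ≤ η} := by
  classical
  have jc := cj c0 cJ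
  have J0 : (0 : ℝ) ≤ J := Nat.cast_nonneg J
  have c1 : c ≤ 3 / 10 := by
    linarith [pow_le_one₀ (n := J) (show (0 : ℝ) ≤ 2 / 3 by norm_num) (by norm_num)]
  have c4 : c ^ 4 ≤ 1 := pow_le_one₀ c0.le (by linarith)
  have hc : ∀ l ∈ V, c ≤ dn D (A l) := fun l hl => by linarith [hb l hl]
  have g1 : 1 ≤ g0 := by
    rcases g0 with _ | g0
    · norm_num at k2; linarith [Nat.cast_nonneg (α := ℝ) m]
    · omega
  have g2 : (1 : ℝ) ≤ g0 := by exact_mod_cast g1
  have j1 : (1 : ℝ) ≤ (J + 1) ^ 2 := one_le_pow₀ (by linarith)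
  have g3 : 128 * (g0 : ℝ) ≤ a0 := by nlinarith
  have lw : ∀ H, c / 2 ≤ dn D H → a0 ≤ ⌈a0 / dn D H ^ 9⌉₊ := fun H h =>
    le_trans (le_div_self (by linarith) (pow_pos (by linarith) 9)
      (pow_le_one₀ (dn_nonneg D H) (dn_le_one D H))) (Nat.le_ceil _)
  obtain ⟨T0, s0, H0, n0, cT0, cl0, -⟩ := hull q hD hA c0 (e := c ^ 4 / 400 * c ^ 5 / 300)
    (by positivity) (by nlinarith [pow_le_one₀ (n := 5) c0.le (show c ≤ 1 by linarith), pow_pos c0 5])
    n hc
  obtain ⟨T, H, ⟨s, nT, cl, cT⟩, tg⟩ := tightTop (a0 := a0) (by linarith) c0 s0 n0 cl0 (cT0.trans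
    (mul_le_mul_of_nonneg_right (k1.trans (pow_le_pow_right₀ one_le_two (by
      exact_mod_cast (by linarith [lw H0 cl0.2.1] : (g0 : ℝ) ≤ ⌈a0 / dn D H0 ^ 9⌉₊))))
      (Nat.cast_nonneg _)))
  have a1 := lw H cl.2.1
  have a2 : (⌈a0 / dn D H ^ 9⌉₊ : ℝ) ≤ a0 * (2 / c) ^ 9 + 1 := by
    refine (Nat.ceil_lt_add_one (div_nonneg (by linarith) (pow_nonneg (dn_nonneg D H) 9))).le.trans
      (add_le_add ?_ le_rfl)
    rw [← inv_div c, inv_pow, ← div_eq_mul_inv]
    exact div_le_div_of_nonneg_left (by linarith) (by positivity)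
      (pow_le_pow_left₀ (by positivity) cl.2.1 9)
  generalize ⌈a0 / dn D H ^ 9⌉₊ = b at *
  obtain ⟨g, b1, b2⟩ : ∃ g : ℕ, 64 * (J + 1) ^ 2 * g ≤ b ∧ b < 64 * (J + 1) ^ 2 * (g + 1) :=
    ⟨b / (64 * (J + 1) ^ 2), Nat.mul_div_le _ _, Nat.lt_mul_div_succ _ (by positivity)⟩
  have b3 : 128 * (J + 1) ^ 2 * g0 ≤ b := by exact_mod_cast k4.trans a1
  have b4 : g0 ≤ g := by
    have := lt_of_mul_lt_mul_left (a := 64 * (J + 1) ^ 2) (b := 2 * g0) (c := g + 1) (by linarith)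
      (Nat.zero_le _)
    omega
  have b5 : (b : ℝ) ≤ 128 * (J + 1) ^ 2 * g := by
    exact_mod_cast (by nlinarith [Nat.mul_le_mul_left ((J + 1) ^ 2) (g1.trans b4)] :
      b ≤ 128 * (J + 1) ^ 2 * g)
  have b6 : (J + 1) * g ≤ (J + 1) ^ 2 * g := Nat.mul_le_mul_right g (Nat.le_self_pow two_ne_zero _)
  have y0 : (2 : ℝ) ^ g0 ≤ 2 ^ g := pow_le_pow_right₀ one_le_two b4
  have m1 : 0 < m := Nat.pos_of_ne_zero fun z => by
    obtain ⟨i, hi⟩ := n
    have := ((ne_of_dn (c0.trans_le (hc i hi))).mono inter_subset_left).card_pos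
    rw [z] at dm
    omega
  have m0 : (0 : ℝ) < m := by exact_mod_cast m1
  have l2 := Real.log_two_gt_d9
  have e2 : ∀ k : ℕ, (2 : ℝ) ^ k = Real.exp (k * Real.log 2) := fun k => by
    rw [Real.exp_nat_mul, Real.exp_log two_pos]
  have pp : ∀ {k l : ℕ}, k ≤ l → (2 : ℝ) ^ k ≤ 2 ^ l := fun h => pow_le_pow_right₀ one_le_two h
  have P : Par c (c ^ 4 / 400) (c ^ 4 / 400 * c ^ 5 / 300) (c ^ 4 / 400 / (5 * m)) (1 / 2 ^ (2 * b))
      (2 ^ g) m (32 * b) := ⟨c0, by linarith, by positivity, by linarith [pow_pos c0 4], rfl,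
    by field_simp, k1.trans y0, k2.trans y0,
    by linarith [mul_le_mul_of_nonneg_left y0 (pow_pos c0 4).le], by
      refine (pow_le_pow_left₀ (by positivity) (by linarith [Real.add_one_le_exp (7 * (c ^ 4 / 400))] :
        _ ≤ Real.exp (7 * (c ^ 4 / 400))) _).trans ?_
      rw [← Real.exp_nat_mul, e2]
      push_cast
      have := mul_le_mul_of_nonneg_right (pow_le_pow_left₀ (by positivity) jc 2)
        (Nat.cast_nonneg (α := ℝ) g)
      exact Real.exp_le_exp.2 (by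
        linarith [mul_le_mul_of_nonneg_right b5 (pow_pos c0 4).le, Nat.cast_nonneg (α := ℝ) g,
          mul_le_mul_of_nonneg_left l2.le (Nat.cast_nonneg (α := ℝ) g)]), by positivity, by
      rw [one_div_mul_eq_div, div_le_one (by positivity), ← pow_mul]
      exact pp (by nlinarith)⟩
  have d1 : (J + 1) * ((18 * J + 26) * g) ≤ 16 * b := by nlinarith
  have lv := lv_all (A := A) P q hA (J := J) (Δ := (18 * J + 26) * g)
    (lo := 32 * b - (J + 1) * ((18 * J + 26) * g))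
    (by rw [← pow_add, ← pow_mul]; exact pp (by nlinarith))
    (Nat.le_sub_of_add_le (by nlinarith))
    (by
      rw [one_div_pow, mul_one_div, le_div_iff₀ (by positivity), ← pow_mul, ← pow_mul, ← pow_add]
      exact pp (by have : 8 * g ≤ b := by nlinarith
                   omega)) cJ (by omega) J le_rfl
  rw [Nat.sub_add_cancel (by omega)] at lv
  have k5 := lv D hD dm T H nT ((card_le_card s).trans vm) cl tg fun l hl => ⟨hc l (s hl),
    (mul_le_of_le_one_right (by positivity) (dn_le_one D H)).trans (hb l (s hl))⟩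
  obtain ⟨k, hk, k6⟩ := exists_le_of_sum_le nT (f := fun _ => 1 / (2 ^ g) ^ (18 * (J + 1)) * (#T : ℝ))
    (le_trans (by rw [sum_const, nsmul_eq_mul]; exact le_of_eq (by ring)) k5)
  have Y1 := (P.fact le_rfl).2.1
  refine ⟨2 ^ b * (2 ^ g) ^ (18 * (J + 1)), (J + 1) * ((4 * m + 1) * (1 / 2 ^ (2 * b))),
    by positivity, by positivity, ?_, ?_, k, s hk, cT.trans ?_⟩
  · have z1 : (J : ℝ) + 1 ≤ 2 ^ g := by
      refine le_of_mul_le_mul_left ?_ (pow_pos c0 4)
      nlinarith [mul_le_mul_of_nonneg_left y0 (pow_pos c0 4).le, pow_pos c0 2,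
        mul_le_mul_of_nonneg_left jc (pow_pos c0 2).le, pow_le_one₀ (n := 2) c0.le (by linarith)]
    have z2 : 4 * (m : ℝ) + 1 ≤ (2 ^ g) ^ 2 := by nlinarith [P.mY]
    refine le_trans (b := 2 ^ b * (2 ^ g) ^ (18 * (J + 1)) * (2 ^ g * ((2 ^ g) ^ 2 *
      (1 / 2 ^ (2 * b))))) (by gcongr) ?_
    rw [mul_one_div, ← mul_div_assoc, ← mul_div_assoc, ← pow_mul, ← pow_mul, ← pow_add, ← pow_add,
      ← pow_add, e2, e2, ← Real.exp_sub]
    have z3 : ((42 * ((J + 1) * g) : ℕ) : ℝ) ≤ b := by exact_mod_cast (by nlinarith)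
    push_cast at z3 ⊢
    have z4 : (g : ℝ) ≤ (J + 1) * g := le_mul_of_one_le_left (Nat.cast_nonneg g) (by linarith)
    refine Real.exp_le_exp.2 ?_
    rw [← sub_mul]
    nlinarith
  · rw [← pow_mul, ← pow_add, e2]
    have z3 : ((b + g * (18 * (J + 1)) : ℕ) : ℝ) ≤ 2 * b := by exact_mod_cast (by nlinarith)
    refine Real.exp_le_exp.2 (le_trans (mul_le_of_le_one_right (Nat.cast_nonneg _) ?_) (by linarith))
    linarith [Real.log_two_lt_d9]
  · rw [mul_assoc]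
    refine mul_le_mul_of_nonneg_left ?_ (by positivity)
    rw [one_div_mul_eq_div, div_le_iff₀' (by positivity)] at k6
    refine k6.trans (mul_le_mul_of_nonneg_left ?_ (by positivity))
    simp only [cw, sum_boole]
    exact_mod_cast card_le_card (filter_subset_filter _ s)

end Pool.Agent.MP_3df3be_co.So
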