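import Pool.Agent.MP_3df3be_co.Top2

/-! Few orders between `2 n / 5` and `n / 2` are orders of subsquares. -/

namespace Pool.Agent.MP_3df3be_co

open Finset

theorem window (s : Finset ℕ) {u l : ℝ} (hl : 0 ≤ l) (h : ∀ m ∈ s, u ≤ m ∧ (m : ℝ) ≤ u + l) :
    (#s : ℝ) ≤ l + 1 := by
  rcases s.eq_empty_or_nonempty with rfl | ne
  · simp; linarith
  have h1 : s ⊆ Icc (s.min' ne) (s.min' ne + ⌊l⌋₊) := fun m hm => by
    have a := s.min'_le m hm
    have b := (h _ hm).2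
    have c := (h _ (s.min'_mem ne)).1
    have d : m - s.min' ne ≤ ⌊l⌋₊ := Nat.le_floor (by rw [Nat.cast_sub a]; linarith)
    exact mem_Icc.2 ⟨a, by omega⟩
  have h2 := card_le_card h1
  rw [Nat.card_Icc] at h2
  have h3 : (#s : ℝ) ≤ ⌊l⌋₊ + 1 := by exact_mod_cast (by omega : #s ≤ ⌊l⌋₊ + 1)
  linarith [Nat.floor_le hl]

variable {n : ℕ} {L : Fin n → Fin n → Fin n}

/-- Subsquares of different orders through one cell. -/
theorem pointed (h1 : ∀ i, Function.Bijective (L i)) (h2 : ∀ j, Function.Bijective fun i => L i j)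
    (R C S : ℕ → Finset (Fin n)) (M : Finset ℕ) {η g : ℝ} (m0 : 0 < η) (m1 : η ≤ 1 / 1000)
    (g0 : 0 ≤ g) (hg : (n : ℝ) ^ 5 ≤ g ^ 6 * η ^ 7) (r c : Fin n)
    (h : ∀ m ∈ M, (#(R m) = m ∧ #(C m) = m ∧ #(S m) = m ∧ ∀ r ∈ R m, ∀ c ∈ C m, L r c ∈ S m) ∧
      η ≤ 1 - 2 * (m : ℝ) / n ∧ 1 - 2 * (m : ℝ) / n ≤ 1 / 5 - 2 * η ∧ r ∈ R m ∧ c ∈ C m) :
    (#M : ℝ) * η ≤ 8 * g := by
  let ρ := (Equiv.ofBijective _ (h2 c)).symm
  let γ := (Equiv.ofBijective _ (h1 r)).symm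
  have q : Qg fun x y => L (ρ x) (γ y) :=
    ⟨fun x => (h1 _).1.comp γ.injective, fun y => (h2 (γ y)).1.comp ρ.injective⟩
  have x : ∀ m ∈ M, xi univ (S m) = 1 - 2 * (m : ℝ) / n := fun m hm => by
    rw [xi, (h m hm).1.2.2.1, card_univ, Fintype.card_fin]
  have p := pot q (L r c) (1 / 5 - η) _ univ rfl (fun _ _ _ _ => mem_univ _) η g m0 m1
    (by linarith) g0 (by rwa [card_univ, Fintype.card_fin]) (M.image S) fun A hA => by
      obtain ⟨m, hm, rfl⟩ := mem_image.1 hA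
      obtain ⟨⟨a1, a2, a3, a4⟩, a5, a6, a7, a8⟩ := h m hm
      refine ⟨subset_univ _, a4 r a7 c a8, fun u hu v hv => ?_, x m hm ▸ a5, by
        rw [x m hm]; linarith⟩
      obtain ⟨i, hi, rfl⟩ := surjOn_of_injOn_of_card_le (s := R m) (t := S m) (fun i => L i c)
        (fun i hi => a4 i hi c a8) (h2 c).1.injOn (by omega) hu
      obtain ⟨j, hj, rfl⟩ := surjOn_of_injOn_of_card_le (s := C m) (t := S m) (L r)
        (fun j hj => a4 r a7 j hj) (h1 r).1.injOn (by omega) hv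
      have e1 : ρ (L i c) = i := (Equiv.ofBijective _ (h2 c)).symm_apply_apply i
      have e2 : γ (L r j) = j := (Equiv.ofBijective _ (h1 r)).symm_apply_apply j
      dsimp only
      rw [e1, e2]
      exact a4 i hi j hj
  rw [sum_image fun a ha b hb e => by rw [← (h a ha).1.2.2.1, e, (h b hb).1.2.2.1]] at p
  have s := card_nsmul_le_sum M (fun m => 1 / xi univ (S m) - 1 / (1 / 5 - η)) (25 * η)
    fun m hm => by
      obtain ⟨-, a5, a6, -⟩ := h m hm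
      rw [x m hm]
      have b1 := one_div_le_one_div_of_le (m0.trans_le a5) a6
      have b2 : 0 < 1 / 5 - 2 * η := by linarith
      have b3 : 0 < 1 / 5 - η := by linarith
      have b4 : 25 * η + 1 / (1 / 5 - η) ≤ 1 / (1 / 5 - 2 * η) := by
        rw [add_div' _ _ _ b3.ne', div_le_div_iff₀ b3 b2]
        nlinarith [mul_pos m0 m0, mul_nonneg (mul_pos m0 m0).le b3.le]
      linarith
  rw [nsmul_eq_mul] at s
  linarith

theorem mid (h1 : ∀ i, Function.Bijective (L i)) (h2 : ∀ j, Function.Bijective fun i => L i j)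
    (hn : 0 < n) (M : Finset ℕ) {η g : ℝ} (m0 : 0 < η) (m1 : η ≤ 1 / 1000)
    (g0 : 0 ≤ g) (hg : (n : ℝ) ^ 5 ≤ g ^ 6 * η ^ 7)
    (h : ∀ m ∈ M, (∃ R C S : Finset (Fin n), #R = m ∧ #C = m ∧ #S = m ∧
      ∀ r ∈ R, ∀ c ∈ C, L r c ∈ S) ∧
      η ≤ 1 - 2 * (m : ℝ) / n ∧ 1 - 2 * (m : ℝ) / n ≤ 1 / 5 - 2 * η) :
    (#M : ℝ) * η ≤ 50 * g := by
  have ex : ∀ m, ∃ R C S : Finset (Fin n), m ∈ M → #R = m ∧ #C = m ∧ #S = m ∧
      ∀ r ∈ R, ∀ c ∈ C, L r c ∈ S := fun m => by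
    by_cases k : m ∈ M
    · obtain ⟨R, C, S, p⟩ := (h m k).1
      exact ⟨R, C, S, fun _ => p⟩
    · exact ⟨∅, ∅, ∅, fun p => absurd p k⟩
  choose R C S hT using ex
  have n0 : (0 : ℝ) < n := Nat.cast_pos.2 hn
  have d := sum_card_bipartiteAbove_eq_sum_card_bipartiteBelow (s := M)
    (t := (univ : Finset (Fin n × Fin n))) (r := fun m p => p.1 ∈ R m ∧ p.2 ∈ C m)
  have d1 := card_nsmul_le_sum M (fun m => (#(bipartiteAbove
      (fun m (p : Fin n × Fin n) => p.1 ∈ R m ∧ p.2 ∈ C m) univ m) : ℝ)) ((2 * n / 5) ^ 2)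
    fun m hm => by
      have : bipartiteAbove (fun m (p : Fin n × Fin n) => p.1 ∈ R m ∧ p.2 ∈ C m) univ m =
          R m ×ˢ C m := by
        ext p; simp [bipartiteAbove]
      rw [this, card_product, (hT m hm).1, (hT m hm).2.1, Nat.cast_mul, ← sq]
      have a := (h m hm).2.2
      have : 4 / 5 ≤ 2 * (m : ℝ) / n := by linarith
      rw [le_div_iff₀ n0] at this
      gcongr
      linarith
  have d2 := sum_le_card_nsmul (univ : Finset (Fin n × Fin n)) (fun p => (#(bipartiteBelow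
      (fun m (p : Fin n × Fin n) => p.1 ∈ R m ∧ p.2 ∈ C m) M p) : ℝ) * η) (8 * g) fun p _ =>
    pointed h1 h2 R C S _ m0 m1 g0 hg p.1 p.2 fun m hm =>
      have k := mem_filter.1 hm
      ⟨hT m k.1, (h m k.1).2.1, (h m k.1).2.2, k.2⟩
  rw [← sum_mul, ← Nat.cast_sum, ← d, Nat.cast_sum, card_univ, Fintype.card_prod, Fintype.card_fin,
    nsmul_eq_mul, Nat.cast_mul] at d2
  rw [nsmul_eq_mul] at d1
  have d3 := (mul_le_mul_of_nonneg_right d1 m0.le).trans d2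
  refine le_of_mul_le_mul_left ?_ (mul_pos n0 n0)
  nlinarith

theorem top (h1 : ∀ i, Function.Bijective (L i)) (h2 : ∀ j, Function.Bijective fun i => L i j)
    (M : Finset ℕ) (h : ∀ m ∈ M, 1 ≤ m ∧ 2 * n ≤ 5 * m ∧ 2 * m ≤ n ∧
      ∃ R C S : Finset (Fin n), #R = m ∧ #C = m ∧ #S = m ∧ ∀ r ∈ R, ∀ c ∈ C, L r c ∈ S) :
    (#M : ℝ) ≤ 3 * 10 ^ 8 * (n : ℝ) ^ (18 / 19 : ℝ) := by
  rcases M.eq_empty_or_nonempty with rfl | ⟨m₀, hm₀⟩
  · simp; positivity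
  have hn : 0 < n := by have := h m₀ hm₀; omega
  have n0 : (0 : ℝ) < n := Nat.cast_pos.2 hn
  obtain ⟨t, t1, e1, e2⟩ : ∃ t : ℝ, 1 ≤ t ∧ (n : ℝ) = t ^ 19 ∧ (n : ℝ) ^ (18 / 19 : ℝ) = t ^ 18 :=
    ⟨(n : ℝ) ^ (1 / 19 : ℝ), Real.one_le_rpow (mod_cast hn) (by norm_num), by
      rw [← Real.rpow_natCast, ← Real.rpow_mul n0.le]; norm_num, by
      rw [← Real.rpow_natCast, ← Real.rpow_mul n0.le]; norm_num⟩
  have t0 : 0 < t := by linarith
  obtain ⟨η, m0, eη⟩ : ∃ η : ℝ, 0 < η ∧ η * (1000 * t) = 1 :=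
    ⟨1 / (1000 * t), by positivity, by field_simp⟩
  have m1 : η ≤ 1 / 1000 := by nlinarith
  have a1 := mid h1 h2 hn (M.filter fun m : ℕ => η ≤ 1 - 2 * (m : ℝ) / n ∧
      1 - 2 * (m : ℝ) / n ≤ 1 / 5 - 2 * η) (g := 4000 * t ^ 17) m0 m1 (by positivity) (by
      have : (4000 * t ^ 17) ^ 6 * η ^ 7 = 4.096 * t ^ 95 * (η * (1000 * t)) ^ 7 := by ring
      rw [this, eη, e1]
      have : 0 < t ^ 95 := by positivity
      nlinarith) fun m hm => ⟨(h m (mem_filter.1 hm).1).2.2.2, (mem_filter.1 hm).2⟩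
  have a2 := window (M.filter fun m : ℕ => 1 - 2 * (m : ℝ) / n < η) (u := n / 2 - η * n) (l := η * n)
    (by positivity) fun m hm => by
      obtain ⟨k1, k2⟩ := mem_filter.1 hm
      have k3 : 2 * (m : ℝ) ≤ n := mod_cast (h m k1).2.2.1
      rw [sub_lt_comm, lt_div_iff₀ n0] at k2
      constructor <;> nlinarith [mul_pos m0 n0]
  have a3 := window (M.filter fun m : ℕ => 1 / 5 - 2 * η < 1 - 2 * (m : ℝ) / n) (u := 2 * n / 5)
    (l := η * n) (by positivity) fun m hm => by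
      obtain ⟨k1, k2⟩ := mem_filter.1 hm
      have k3 : 2 * (n : ℝ) ≤ 5 * m := mod_cast (h m k1).2.1
      rw [lt_sub_comm, div_lt_iff₀ n0] at k2
      constructor <;> nlinarith
  have a4 : #M ≤ #(M.filter fun m : ℕ => η ≤ 1 - 2 * (m : ℝ) / n ∧
      1 - 2 * (m : ℝ) / n ≤ 1 / 5 - 2 * η) + #(M.filter fun m : ℕ => 1 - 2 * (m : ℝ) / n < η) +
      #(M.filter fun m : ℕ => 1 / 5 - 2 * η < 1 - 2 * (m : ℝ) / n) := by
    refine (card_le_card fun m hm => ?_).trans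
      ((card_union_le _ _).trans (Nat.add_le_add_right (card_union_le _ _) _))
    simp only [mem_union, mem_filter, hm, true_and]
    rcases lt_or_ge (1 - 2 * (m : ℝ) / n) η with k | k
    · exact Or.inl (Or.inr k)
    · exact (le_or_gt _ _).imp (fun k' => Or.inl ⟨k, k'⟩) id
  have a5 := mul_le_mul_of_nonneg_right a1 (show 0 ≤ 1000 * t by positivity)
  rw [mul_assoc, eη, mul_one] at a5
  have a6 : η * n = t ^ 18 / 1000 := by
    rw [e1, eq_div_iff (by norm_num), ← mul_one (t ^ 18), ← eη]; ring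
  have a7 : 1 ≤ t ^ 18 := one_le_pow₀ t1
  have a8 := (Nat.cast_le (α := ℝ)).2 a4
  push_cast at a8
  rw [e2]
  nlinarith

end Pool.Agent.MP_3df3be_co
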