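import Pool.Agent.MP_3df3be_co.Pl6
import Pool.Agent.MP_3df3be_co.Top3

/-! A uniform bound for the number of orders of subsquares. -/

namespace Pool.Agent.MP_3df3be_co.So

open Finset

/-- Subsquares through one cell. -/
theorem cell2 {c a0 : ℝ} {J n m g0 : ℕ} (c0 : 0 < c) (cJ : 2 * c ≤ 3 / 5 * (2 / 3) ^ J)
    (k1 : Kc c (c ^ 4 / 400 * c ^ 5 / 300) ≤ 2 ^ g0) (k2 : (m : ℝ) + 2 ≤ 2 ^ g0)
    (k3 : 400 ≤ c ^ 4 * 2 ^ g0) (k4 : 128 * (J + 1) ^ 2 * g0 ≤ a0) {L : Fin n → Fin n → Fin n}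
    (h1 : ∀ i, Function.Bijective (L i)) (h2 : ∀ j, Function.Bijective fun i => L i j)
    (R C' S : ℕ → Finset (Fin n)) (V : Finset ℕ) (r s : Fin n) (hm : n < 2 ^ m)
    (h : ∀ k ∈ V, (#(R k) = k ∧ #(C' k) = k ∧ #(S k) = k ∧ ∀ r ∈ R k, ∀ c ∈ C' k, L r c ∈ S k) ∧
      3 / 5 * (2 / 3) ^ J * (n : ℝ) ≤ k ∧ r ∈ R k ∧ s ∈ C' k) :
    (#V : ℝ) ≤ 2 * n * Real.exp (-a0 / 3) + Real.exp (2 * (a0 * (2 / c) ^ 9 + 1)) := by
  have n0 : (0 : ℝ) < n := by exact_mod_cast r.pos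
  rcases V.eq_empty_or_nonempty with rfl | ne
  · simp; positivity
  let ρ := (Equiv.ofBijective _ (h2 s)).symm
  let κ := (Equiv.ofBijective _ (h1 r)).symm
  have q : Qg fun x y => L (ρ x) (κ y) :=
    ⟨fun x => (h1 _).1.comp κ.injective, fun y => (h2 (κ y)).1.comp ρ.injective⟩
  have d : ∀ k ∈ V, dn univ (if k ∈ V then S k else ∅) = k / n := fun k hk => by
    rw [if_pos hk, dn, univ_inter, (h k hk).1.2.2.1, card_univ, Fintype.card_fin]
  have p0 : ∀ k ∈ V, (0 : ℝ) < k := fun k hk => lt_of_lt_of_le (by positivity) (h k hk).2.1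
  have p1 : ∀ k ∈ V, k ≤ n := fun k hk =>
    (h k hk).1.1 ▸ (card_le_univ (R k)).trans_eq (Fintype.card_fin n)
  obtain ⟨y, η, η0, y0, y1, y2, k, hk, w⟩ := topq (A := fun k => if k ∈ V then S k else ∅) (V := V)
    (D := univ) q (fun k => by
      split_ifs with hk
      · intro u hu v hv
        obtain ⟨⟨a1, a2, a3, a4⟩, -, a7, a8⟩ := h k hk
        obtain ⟨i, hi, rfl⟩ := surjOn_of_injOn_of_card_le (s := R k) (t := S k) (fun i => L i s)
          (fun i hi => a4 i hi s a8) (h2 s).1.injOn (by omega) hu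
        obtain ⟨j, hj, rfl⟩ := surjOn_of_injOn_of_card_le (s := C' k) (t := S k) (L r)
          (fun j hj => a4 r a7 j hj) (h1 r).1.injOn (by omega) hv
        have e1 : ρ (L i s) = i := (Equiv.ofBijective _ (h2 s)).symm_apply_apply i
        have e2 : κ (L r j) = j := (Equiv.ofBijective _ (h1 r)).symm_apply_apply j
        dsimp only
        rw [e1, e2]
        exact a4 i hi j hj
      · exact fun u hu => absurd hu (notMem_empty u)) (fun _ _ _ _ => mem_univ _)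
    (by rwa [card_univ, Fintype.card_fin])
    (((card_le_card fun k hk => mem_Icc.2 ⟨(by exact_mod_cast p0 k hk : 1 ≤ k), p1 k hk⟩).trans_eq
      (by simp)).trans hm.le) ne c0 cJ
    (fun k hk => by rw [d k hk, le_div_iff₀ n0]; exact (h k hk).2.1) k1 k2 k3 k4
  have cl : ∀ k ∈ V, ∀ l ∈ V, Real.log (l / n) - Real.log (k / n) ≤ η → (l : ℝ) - k ≤ n * η :=
    fun k hk l hl a => by
      have k0 := p0 k hk
      have l0 := p0 l hl
      have l1 : (l : ℝ) ≤ n := by exact_mod_cast p1 l hl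
      rw [← neg_sub, ← Real.log_div (by positivity) (by positivity),
        div_div_div_cancel_right₀ n0.ne'] at a
      have f : 1 - η ≤ k / l := by linarith [Real.log_le_sub_one_of_pos (div_pos k0 l0)]
      rw [le_div_iff₀ l0] at f
      linarith [mul_le_mul_of_nonneg_right l1 η0]
  refine w.trans ((mul_le_mul_of_nonneg_left (window _ (u := k - n * η) (l := 2 * (n * η))
    (by positivity) fun l hl => ?_) y0).trans ?_)
  · obtain ⟨l1, l2⟩ := mem_filter.1 hl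
    rw [d k hk, d l l1] at l2
    exact ⟨by linarith [cl l l1 k hk (abs_le.1 l2).2],
      by linarith [cl k hk l l1 (by linarith [(abs_le.1 l2).1])]⟩
  · linarith [mul_le_mul_of_nonneg_left y1 n0.le]

theorem unif {c : ℝ} (c0 : 0 < c) (c1 : c ≤ 1 / 2) {n : ℕ} {L : Fin n → Fin n → Fin n}
    (h1 : ∀ i, Function.Bijective (L i)) (h2 : ∀ j, Function.Bijective fun i => L i j)
    (M : Finset ℕ) (h : ∀ m ∈ M, 1 ≤ m ∧ c * n ≤ m ∧ ∃ R C S : Finset (Fin n), #R = m ∧ #C = m ∧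
      #S = m ∧ ∀ r ∈ R, ∀ c ∈ C, L r c ∈ S) :
    (#M : ℝ) ≤ Real.exp (1 / c ^ 500) * (n : ℝ) ^ (1 - c ^ 500) := by
  rcases M.eq_empty_or_nonempty with rfl | ⟨m₀, hm₀⟩
  · simp; positivity
  have le : ∀ m ∈ M, m ≤ n := fun m hm =>
    let ⟨_, _, R, _, _, a, _⟩ := h m hm
    a ▸ (card_le_univ R).trans_eq (Fintype.card_fin n)
  have hn : 0 < n := (h m₀ hm₀).1.trans (le m₀ hm₀)
  have n0 : (0 : ℝ) < n := Nat.cast_pos.2 hn
  obtain ⟨s, s0, hs⟩ : ∃ s : ℝ, 0 ≤ s ∧ Real.log n = s ^ 2 :=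
    ⟨_, Real.sqrt_nonneg _, (Real.sq_sqrt (Real.log_natCast_nonneg n)).symm⟩
  have en : (n : ℝ) = Real.exp (s ^ 2) := by rw [← hs, Real.exp_log n0]
  obtain ⟨u, u2, rfl⟩ : ∃ u : ℝ, 2 ≤ u ∧ c = 1 / u :=
    ⟨1 / c, by rw [le_div_iff₀ c0]; linarith, by rw [one_div_one_div]⟩
  have u0 : 0 < u := by linarith
  have up : ∀ {k l : ℕ}, k ≤ l → u ^ k ≤ u ^ l := fun h => pow_le_pow_right₀ (by linarith) h
  have u2p : ∀ k : ℕ, 2 ^ k ≤ u ^ k := fun k => pow_le_pow_left₀ two_pos.le u2 k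
  rw [Real.rpow_def_of_pos n0, hs, one_div_pow, one_div_one_div]
  rcases le_total s (u ^ 500) with v | v
  · have a : #M ≤ n := (card_le_card fun m hm => mem_Icc.2 ⟨(h m hm).1, le m hm⟩).trans_eq (by simp)
    refine le_trans (by exact_mod_cast a) (en.le.trans ?_)
    rw [← Real.exp_add]
    refine Real.exp_le_exp.2 ?_
    have : s ^ 2 * (1 / u ^ 500) ≤ u ^ 500 := by
      rw [mul_one_div, div_le_iff₀ (by positivity), ← sq]
      exact pow_le_pow_left₀ s0 v 2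
    linarith
  obtain ⟨J, j1, j2⟩ := exists_nat_pow_near_of_lt_one (x := 5 / 3 * (1 / u)) (y := 2 / 3)
    (by positivity) (by linarith) (by norm_num) (by norm_num)
  have cJ : 2 * (1 / u / 3) ≤ 3 / 5 * (2 / 3) ^ (J + 1) := by rw [pow_succ]; linarith
  have s1 : 32 ≤ s := le_trans (by norm_num) ((u2p 5).trans ((up (by norm_num)).trans v))
  have l2 := Real.log_two_gt_d9
  have e2 : ∀ k : ℕ, (2 : ℝ) ^ k = Real.exp (k * Real.log 2) := fun k => by
    rw [Real.exp_nat_mul, Real.exp_log two_pos]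
  have g1 : Real.exp s ≤ 2 ^ ⌈2 * s⌉₊ := by
    rw [e2]
    exact Real.exp_le_exp.2 (by nlinarith [Nat.le_ceil (2 * s)])
  have g2 := (Nat.ceil_lt_add_one (show 0 ≤ 2 * s by positivity)).le
  have m1 : n < 2 ^ ⌈2 * s ^ 2⌉₊ := by
    have : (n : ℝ) < 2 ^ ⌈2 * s ^ 2⌉₊ := by
      rw [e2, en]
      exact Real.exp_lt_exp.2 (by nlinarith [Nat.le_ceil (2 * s ^ 2)])
    exact_mod_cast this
  have m2 := (Nat.ceil_lt_add_one (show 0 ≤ 2 * s ^ 2 by positivity)).le
  have u3 : 3 * u ≤ u ^ 3 := by nlinarith [mul_le_mul_of_nonneg_right (u2p 2) u0.le]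
  have k1 : Kc (1 / u / 3) ((1 / u / 3) ^ 4 / 400 * (1 / u / 3) ^ 5 / 300) ≤ 2 ^ ⌈2 * s⌉₊ := by
    refine le_trans ?_ g1
    rw [Kc, show 4 / (((1 / u / 3) ^ 2 * ((1 / u / 3) ^ 2 * ((1 / u / 3) ^ 4 / 400 * (1 / u / 3) ^ 5 /
      300) / 12) ^ 2 / 20) ^ 2 / 2) ^ 2 = 16 * 41472000000000 ^ 4 * (3 * u) ^ 96 by field_simp; ring]
    refine le_trans (mul_le_mul (show (2 : ℝ) ≤ Real.exp 1 by linarith [Real.add_one_le_exp 1])
      (Real.exp_le_exp.2 (show _ ≤ u ^ 190 * (u ^ 3) ^ 96 from mul_le_mul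
        (le_trans (by norm_num) (u2p 190)) (pow_le_pow_left₀ (by positivity) u3 96) (by positivity)
        (by positivity))) (Real.exp_pos _).le (Real.exp_pos _).le) ?_
    rw [← Real.exp_add, ← pow_mul, ← pow_add]
    refine Real.exp_le_exp.2 (le_trans ?_ ((up (show 479 ≤ 500 by norm_num)).trans v))
    rw [pow_succ u 478, show 190 + 3 * 96 = 478 from rfl]
    have a := one_le_pow₀ (n := 478) (show 1 ≤ u by linarith)
    have b := mul_le_mul_of_nonneg_left u2 (pow_pos u0 478).le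
    generalize u ^ 478 = p at a b ⊢
    linarith
  have k2 : (⌈2 * s ^ 2⌉₊ : ℝ) + 2 ≤ 2 ^ ⌈2 * s⌉₊ := by
    have := Real.pow_div_factorial_le_exp s s0 3
    norm_num [Nat.factorial] at this
    nlinarith
  have k3 : 400 ≤ (1 / u / 3) ^ 4 * 2 ^ ⌈2 * s⌉₊ := by
    rw [div_div, one_div_pow, one_div_mul_eq_div, le_div_iff₀ (by positivity), mul_comm u]
    refine le_trans (mul_le_mul (le_trans (by norm_num) (u2p 9))
      (pow_le_pow_left₀ (by positivity) u3 4) (by positivity) (by positivity)) ?_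
    rw [← pow_mul, ← pow_add]
    linarith [up (show 9 + 3 * 4 ≤ 500 by norm_num), Real.add_one_le_exp s]
  have k4 : 128 * ((J + 1 : ℕ) + 1 : ℝ) ^ 2 * ⌈2 * s⌉₊ ≤ s ^ 2 / u ^ 50 := by
    have a := cj (by positivity) cJ
    rw [div_div, one_div_pow, one_div_mul_eq_div, div_le_iff₀ (by positivity)] at a
    have b := pow_le_pow_left₀ (by positivity) (a.trans (show _ ≤ u ^ 2 by nlinarith)) 2
    rw [le_div_iff₀ (by positivity)]
    calc _ ≤ 128 * (u ^ 2) ^ 2 * (4 * s) * u ^ 50 := by gcongr; linarith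
      _ = 2 ^ 9 * u ^ 54 * s := by ring
      _ ≤ u ^ 9 * u ^ 54 * s := by gcongr
      _ ≤ s * s := by
        rw [← pow_add]
        exact mul_le_mul_of_nonneg_right ((up (by norm_num)).trans v) s0
      _ = _ := (sq s).symm
  have ex : ∀ m, ∃ R C S : Finset (Fin n), m ∈ M → #R = m ∧ #C = m ∧ #S = m ∧
      ∀ r ∈ R, ∀ c ∈ C, L r c ∈ S := fun m => by
    by_cases k : m ∈ M
    · obtain ⟨R, C, S, p⟩ := (h m k).2.2
      exact ⟨R, C, S, fun _ => p⟩
    · exact ⟨∅, ∅, ∅, fun p => absurd p k⟩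
  choose R C' S hT using ex
  have d := sum_card_bipartiteAbove_eq_sum_card_bipartiteBelow (s := M)
    (t := (univ : Finset (Fin n × Fin n))) (r := fun m p => p.1 ∈ R m ∧ p.2 ∈ C' m)
  have d1 := card_nsmul_le_sum M (fun m => (#(bipartiteAbove
      (fun m (p : Fin n × Fin n) => p.1 ∈ R m ∧ p.2 ∈ C' m) univ m) : ℝ)) ((1 / u * n) ^ 2)
    fun m hm => by
      have : bipartiteAbove (fun m (p : Fin n × Fin n) => p.1 ∈ R m ∧ p.2 ∈ C' m) univ m =
          R m ×ˢ C' m := by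
        ext p; simp [bipartiteAbove]
      rw [this, card_product, (hT m hm).1, (hT m hm).2.1, Nat.cast_mul, ← sq]
      exact pow_le_pow_left₀ (by positivity) (h m hm).2.1 2
  have fin : 2 * n * Real.exp (-(s ^ 2 / u ^ 50) / 3) +
      Real.exp (2 * (s ^ 2 / u ^ 50 * (2 / (1 / u / 3)) ^ 9 + 1)) ≤
      3 * Real.exp (s ^ 2 * (1 - 1 / u ^ 500)) := by
    have a : 1 / u ^ 500 ≤ 1 / u ^ 50 / 3 := by
      rw [div_div]
      refine one_div_le_one_div_of_le (by positivity) (le_trans ?_ (up (show 50 + 2 ≤ 500 by norm_num)))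
      rw [pow_add]
      exact mul_le_mul_of_nonneg_left (le_trans (by norm_num) (u2p 2)) (by positivity)
    have b : 1 / u ^ 500 ≤ 1 / 2 :=
      one_div_le_one_div_of_le two_pos (u2.trans (le_self_pow₀ (by linarith) (by norm_num)))
    have e : s ^ 2 / u ^ 50 * (2 / (1 / u / 3)) ^ 9 ≤ s ^ 2 / 8 := by
      rw [show 2 / (1 / u / 3) = 6 * u by field_simp; ring, div_mul_eq_mul_div,
        div_le_div_iff₀ (by positivity) (by norm_num), mul_assoc]
      refine mul_le_mul_of_nonneg_left ?_ (sq_nonneg s)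
      calc _ ≤ (u ^ 3 * u) ^ 9 * u ^ 3 := by
            gcongr <;> linarith [u2p 3]
        _ = u ^ 39 := by ring
        _ ≤ _ := up (by norm_num)
    have f1 : n * Real.exp (-(s ^ 2 / u ^ 50) / 3) ≤ Real.exp (s ^ 2 * (1 - 1 / u ^ 500)) := by
      rw [en, ← Real.exp_add, div_eq_mul_one_div (s ^ 2)]
      exact Real.exp_le_exp.2 (by linarith [mul_le_mul_of_nonneg_left a (sq_nonneg s)])
    have f2 : Real.exp (2 * (s ^ 2 / u ^ 50 * (2 / (1 / u / 3)) ^ 9 + 1)) ≤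
        Real.exp (s ^ 2 * (1 - 1 / u ^ 500)) := Real.exp_le_exp.2 (by
      linarith [mul_le_mul_of_nonneg_left b (sq_nonneg s), pow_le_pow_left₀ (by norm_num) s1 2])
    linarith
  have d2 := sum_le_card_nsmul (univ : Finset (Fin n × Fin n)) (fun p => (#(bipartiteBelow
      (fun m (p : Fin n × Fin n) => p.1 ∈ R m ∧ p.2 ∈ C' m) M p) : ℝ)) _ fun p _ =>
    (cell2 (by positivity) cJ k1 k2 k3 k4 h1 h2 R C' S _ p.1 p.2 m1 fun m hm =>
      have k := mem_filter.1 hm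
      ⟨hT m k.1, (mul_le_mul_of_nonneg_right (by linarith) n0.le).trans (h m k.1).2.1, k.2⟩).trans fin
  rw [← Nat.cast_sum, ← d, Nat.cast_sum, card_univ, Fintype.card_prod, Fintype.card_fin,
    nsmul_eq_mul, Nat.cast_mul] at d2
  rw [nsmul_eq_mul] at d1
  have d3 : (#M : ℝ) ≤ 3 * u ^ 2 * Real.exp (s ^ 2 * (1 - 1 / u ^ 500)) := by
    refine le_of_mul_le_mul_left ?_ (show 0 < (1 / u * n) ^ 2 by positivity)
    rw [mul_comm]
    refine (d1.trans d2).trans_eq ?_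
    field_simp
  refine d3.trans (mul_le_mul_of_nonneg_right ?_ (Real.exp_pos _).le)
  linarith [Real.add_one_le_exp (u ^ 500), up (show 2 + 2 ≤ 500 by norm_num), pow_add u 2 2,
    mul_le_mul_of_nonneg_right (u2p 2) (sq_nonneg u), sq_nonneg u]

theorem poly {n : ℕ} (hn : 2 ≤ n) {L : Fin n → Fin n → Fin n}
    (h1 : ∀ i, Function.Bijective (L i)) (h2 : ∀ j, Function.Bijective fun i => L i j)
    (M : Finset ℕ) (h : ∀ m ∈ M, 1 ≤ m ∧ ∃ R C S : Finset (Fin n), #R = m ∧ #C = m ∧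
      #S = m ∧ ∀ r ∈ R, ∀ c ∈ C, L r c ∈ S) :
    (#M : ℝ) ≤ 2 * n / Real.log n ^ (1 / 1500 : ℝ) := by
  have n1 : (1 : ℝ) < n := by exact_mod_cast hn
  have n0 : (0 : ℝ) < n := by linarith
  have l0 := Real.log_pos n1
  have z0 := Real.rpow_pos_of_pos l0 (1 / 1500)
  have hz : (Real.log n ^ (1 / 1500 : ℝ)) ^ 1500 = Real.log n := by
    rw [← Real.rpow_natCast, ← Real.rpow_mul l0.le]
    norm_num
  generalize Real.log n ^ (1 / 1500 : ℝ) = z at *
  rw [le_div_iff₀ z0]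
  rcases le_total z 2 with v | v
  · have a : #M ≤ n := (card_le_card fun m hm => mem_Icc.2 ⟨(h m hm).1,
      let ⟨_, R, _, _, a, _⟩ := h m hm
      a ▸ (card_le_univ R).trans_eq (Fintype.card_fin n)⟩).trans_eq (by simp)
    rw [mul_comm]
    exact mul_le_mul v (by exact_mod_cast a) (Nat.cast_nonneg _) two_pos.le
  have a := unif (c := 1 / z) (by positivity) (one_div_le_one_div_of_le two_pos v) h1 h2
    (M.filter fun m : ℕ => 1 / z * n ≤ m) fun m hm =>
      ⟨(h m (mem_filter.1 hm).1).1, (mem_filter.1 hm).2, (h m (mem_filter.1 hm).1).2⟩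
  have b : (#(M.filter fun m : ℕ => ¬1 / z * n ≤ m) : ℝ) ≤ 1 / z * n := by
    refine le_trans ?_ (Nat.floor_le (by positivity))
    exact_mod_cast (card_le_card fun m hm => mem_Icc.2 ⟨(h m (mem_filter.1 hm).1).1,
      Nat.le_floor (not_le.1 (mem_filter.1 hm).2).le⟩).trans_eq (by simp)
  have cn : (#(M.filter fun m : ℕ => 1 / z * n ≤ m) : ℝ) + #(M.filter fun m : ℕ => ¬1 / z * n ≤ m) = #M := by
    exact_mod_cast card_filter_add_card_filter_not (s := M) _
  rw [Real.rpow_def_of_pos n0, one_div_pow, one_div_one_div, mul_sub, mul_one, Real.exp_sub,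
    Real.exp_log n0, ← hz, show z ^ 1500 * (1 / z ^ 500) = z ^ 500 * z ^ 500 by field_simp] at a
  have y1 : z ≤ z ^ 500 := le_self_pow₀ (by linarith) (by norm_num)
  have d : Real.exp (z ^ 500) * (n / Real.exp (z ^ 500 * z ^ 500)) ≤ 1 / z * n := by
    rw [← mul_div_assoc, mul_div_right_comm, ← Real.exp_sub]
    refine mul_le_mul_of_nonneg_right ?_ n0.le
    rw [le_div_iff₀ z0, ← le_div_iff₀' (Real.exp_pos _), one_div, ← Real.exp_neg]
    generalize z ^ 500 = y at y1 ⊢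
    nlinarith [Real.add_one_le_exp (-(y - y * y))]
  have e : (#M : ℝ) ≤ 2 * (1 / z * n) := by linarith
  rwa [← mul_assoc, mul_one_div, div_mul_eq_mul_div, le_div_iff₀ z0] at e

end Pool.Agent.MP_3df3be_co.So
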