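import Pool.Agent.MP_3df3be_co.Top1

/-! Closed subsets of a finite quasigroup: densities, covariances, a Bessel inequality. -/

set_option linter.unusedSectionVars false

namespace Pool.Agent.MP_3df3be_co.So

open Finset
open scoped BigOperators

/-- The mean of a product. -/
noncomputable def ip {α : Type} (D : Finset α) (f g : α → ℝ) : ℝ := 𝔼 x ∈ D, f x * g x

section
variable {α ι : Type} {T : Finset α} {f g : α → ℝ}

theorem ip_comm (T : Finset α) (f g : α → ℝ) : ip T f g = ip T g f := by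
  simp only [ip, mul_comm]

theorem ip_nonneg (T : Finset α) (f : α → ℝ) : 0 ≤ ip T f f :=
  expect_nonneg fun _ _ => mul_self_nonneg _

theorem cs (T : Finset α) (f g : α → ℝ) : ip T f g ^ 2 ≤ ip T f f * ip T g g := by
  simpa only [ip, sq] using expect_mul_sq_le_sq_mul_sq T f g

theorem ip_le_one (h : ∀ x, |g x| ≤ 1) : ip T g g ≤ 1 := by
  rcases T.eq_empty_or_nonempty with rfl | ne
  · simp [ip]
  · exact expect_le ne fun x _ => by nlinarith [abs_le.1 (h x)]

theorem abs_ip_le (h : ip T f f ≤ 1) (k : ip T g g ≤ 1) : |ip T f g| ≤ 1 :=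
  abs_le_one_iff_mul_self_le_one.2 (by nlinarith [cs T f g, ip_nonneg T f, ip_nonneg T g])

theorem ip_sum (V : Finset ι) (a : ι → ℝ) (F : ι → α → ℝ) :
    ip T f (fun x => ∑ i ∈ V, a i * F i x) = ∑ i ∈ V, a i * ip T f (F i) := by
  simp only [ip, mul_sum, expect_sum_comm, mul_expect]
  exact sum_congr rfl fun i _ => expect_congr rfl fun x _ => by ring

theorem ip_lin (T : Finset α) (f g h : α → ℝ) (a b : ℝ) :
    ip T f (fun x => a * g x + b * h x) = a * ip T f g + b * ip T f h := by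
  simp only [ip, mul_expect, ← expect_add_distrib]
  exact expect_congr rfl fun x _ => by ring

theorem ip_smul (T : Finset α) (f g : α → ℝ) (a : ℝ) :
    ip T f (fun x => a * g x) = a * ip T f g := by
  simp only [ip, mul_expect]
  exact expect_congr rfl fun x _ => by ring

/-- The test of Schur. -/
theorem schur (V : Finset ι) (F : ι → α → ℝ) {R : ℝ} (R0 : 0 ≤ R)
    (h : ∀ i ∈ V, ∑ j ∈ V, |ip T (F i) (F j)| ≤ R) (f : α → ℝ) :
    ∑ i ∈ V, ip T f (F i) ^ 2 ≤ R * ip T f f := by
  set a : ι → ℝ := fun i => ip T f (F i)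
  have h1 := cs T f fun x => ∑ i ∈ V, a i * F i x
  have h2 : ip T f (fun x => ∑ i ∈ V, a i * F i x) = ∑ i ∈ V, a i ^ 2 := by
    rw [ip_sum]; exact sum_congr rfl fun i _ => (sq _).symm
  have h3 : ip T (fun x => ∑ i ∈ V, a i * F i x) (fun x => ∑ i ∈ V, a i * F i x) ≤
      R * ∑ i ∈ V, a i ^ 2 := by
    have e : ∀ i, ip T (fun x => ∑ j ∈ V, a j * F j x) (F i) = ∑ j ∈ V, a j * ip T (F i) (F j) :=
      fun i => by rw [ip_comm, ip_sum]
    have k : ∑ i ∈ V, ∑ j ∈ V, a i ^ 2 * |ip T (F i) (F j)| ≤ R * ∑ i ∈ V, a i ^ 2 := by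
      rw [mul_sum]
      exact sum_le_sum fun i hi => by
        rw [← mul_sum, mul_comm]; exact mul_le_mul_of_nonneg_right (h i hi) (sq_nonneg _)
    have k' : ∑ i ∈ V, ∑ j ∈ V, a j ^ 2 * |ip T (F i) (F j)| ≤ R * ∑ i ∈ V, a i ^ 2 := by
      rw [sum_comm]
      exact (sum_congr rfl fun i _ => sum_congr rfl fun j _ => by rw [ip_comm]).trans_le k
    rw [ip_sum]
    simp only [e, mul_sum]
    have : ∑ i ∈ V, ∑ j ∈ V, a i * (a j * ip T (F i) (F j)) ≤
        ∑ i ∈ V, ∑ j ∈ V, (a i ^ 2 * |ip T (F i) (F j)| + a j ^ 2 * |ip T (F i) (F j)|) / 2 :=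
      sum_le_sum fun i _ => sum_le_sum fun j _ => by
        rcases abs_cases (ip T (F i) (F j)) with ⟨u, v⟩ | ⟨u, v⟩ <;> rw [u] <;>
          nlinarith [mul_nonneg (abs_nonneg (ip T (F i) (F j))) (sq_nonneg (a i - a j)),
            mul_nonneg (abs_nonneg (ip T (F i) (F j))) (sq_nonneg (a i + a j))]
    simp only [← sum_div, sum_add_distrib] at this
    rw [← mul_sum]
    linarith
  rw [h2] at h1
  have h4 : 0 ≤ ∑ i ∈ V, a i ^ 2 := sum_nonneg fun _ _ => sq_nonneg _
  have h5 := ip_nonneg T f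
  rcases h4.eq_or_lt with u | u
  · rw [← u]; positivity
  · refine le_of_mul_le_mul_right ?_ u
    nlinarith [mul_le_mul_of_nonneg_left h3 h5]

end

variable {X ι : Type} [DecidableEq X]

/-- The indicator. -/
def one (A : Finset X) (x : X) : ℝ := if x ∈ A then 1 else 0

/-- The density of `A` in `D`. -/
noncomputable def dn (D A : Finset X) : ℝ := #(D ∩ A) / #D

/-- The balanced indicator. -/
noncomputable def bal (D A : Finset X) (x : X) : ℝ := one A x - dn D A

/-- The covariance. -/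
noncomputable def cov (D A B : Finset X) : ℝ := dn D (A ∩ B) - dn D A * dn D B

variable {op : X → X → X} {A B D : Finset X} {x y : X}

theorem ex_one (D A : Finset X) : 𝔼 x ∈ D, one A x = dn D A := by
  simp [one, dn, expect_eq_sum_div_card, sum_ite_mem]

theorem one_mul_one (A B : Finset X) (x : X) : one A x * one B x = one (A ∩ B) x := by
  by_cases a : x ∈ A <;> by_cases b : x ∈ B <;> simp [one, a, b]

theorem abs_one (A : Finset X) (x : X) : |one A x| ≤ 1 := by
  by_cases a : x ∈ A <;> simp [one, a]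

theorem dn_nonneg (D A : Finset X) : 0 ≤ dn D A := by unfold dn; positivity

theorem dn_le_one (D A : Finset X) : dn D A ≤ 1 :=
  div_le_one_of_le₀ (by exact_mod_cast card_le_card inter_subset_left) (Nat.cast_nonneg _)

theorem dn_inter (D A B : Finset X) : dn (D ∩ A) B * dn D A = dn D (A ∩ B) := by
  rcases (D ∩ A).eq_empty_or_nonempty with u | u
  · simp [dn, ← inter_assoc, u]
  · have : (#(D ∩ A) : ℝ) ≠ 0 := by exact_mod_cast u.card_pos.ne'
    rw [dn, dn, dn, ← inter_assoc]
    field_simp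

theorem ne_of_dn (h : 0 < dn D A) : (D ∩ A).Nonempty := by
  by_contra u
  rw [not_nonempty_iff_eq_empty] at u
  simp [dn, u] at h

theorem abs_bal (D A : Finset X) (x : X) : |bal D A x| ≤ 1 := by
  have := dn_nonneg D A
  have := dn_le_one D A
  by_cases a : x ∈ A <;> simp only [bal, one, a, if_true, if_false, abs_le] <;> constructor <;>
    linarith

theorem ip_one_one (D A B : Finset X) : ip D (one A) (one B) = dn D (A ∩ B) := by
  simp only [ip, one_mul_one, ex_one]

theorem ip_one_c (D A : Finset X) : ip D (one A) (fun _ => 1) = dn D A := by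
  simp only [ip, mul_one, ex_one]

theorem ip_bal (D A : Finset X) (h : X → ℝ) :
    ip D h (bal D A) = ip D h (one A) - dn D A * 𝔼 x ∈ D, h x := by
  simp only [ip, bal, mul_expect, ← expect_sub_distrib]
  exact expect_congr rfl fun x _ => by ring

theorem ip_one_bal (D A B : Finset X) : ip D (one A) (bal D B) = cov D A B := by
  rw [ip_bal, ip_one_one, ex_one, cov, mul_comm]

theorem ex_bal (ne : D.Nonempty) (A : Finset X) : 𝔼 x ∈ D, bal D A x = 0 := by
  simp only [bal, expect_sub_distrib, ex_one, expect_const ne, sub_self]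

theorem ip_bal_bal (ne : D.Nonempty) (A B : Finset X) : ip D (bal D A) (bal D B) = cov D A B := by
  rw [ip_bal, ex_bal ne, ip_comm, ip_one_bal, cov, cov, inter_comm]
  ring

theorem cov_comm (D A B : Finset X) : cov D A B = cov D B A := by
  rw [cov, cov, inter_comm, mul_comm]

theorem abs_cov (ne : D.Nonempty) (A B : Finset X) : |cov D A B| ≤ 1 :=
  ip_bal_bal ne A B ▸ abs_ip_le (ip_le_one (abs_bal D A)) (ip_le_one (abs_bal D B))

/-- The change of a density in an intersection. -/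
theorem dn_step {c t : ℝ} (c0 : 0 < c) (h : c ≤ dn D B) (k : |cov D A B| ≤ c * t) :
    |dn (D ∩ B) A - dn D A| ≤ t := by
  have e : (dn (D ∩ B) A - dn D A) * dn D B = cov D A B := by
    rw [sub_mul, dn_inter, cov, inter_comm]
  rw [← e, abs_mul, abs_of_nonneg (dn_nonneg D B)] at k
  refine le_of_mul_le_mul_left ?_ c0
  nlinarith [abs_nonneg (dn (D ∩ B) A - dn D A)]

theorem shiftL (q : Qg op) (hD : Cl op D) (hx : x ∈ D) (h : X → ℝ) :
    𝔼 y ∈ D, h (op x y) = 𝔼 w ∈ D, h w :=
  expect_nbij (op x) (hD x hx) (fun _ _ => rfl) (q.l x).injOn fun _ hs =>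
    let ⟨y, a, b⟩ := hD.div q hx hs
    ⟨y, a, b⟩

theorem shiftR (q : Qg op) (hD : Cl op D) (hy : y ∈ D) (h : X → ℝ) :
    𝔼 x ∈ D, h (op x y) = 𝔼 w ∈ D, h w :=
  expect_nbij (fun x => op x y) (fun a ha => hD a ha y hy) (fun _ _ => rfl) (q.r y).injOn
    (surjOn_of_injOn_of_card_le (fun x => op x y) (fun a ha => hD a ha y hy) (q.r y).injOn le_rfl)

theorem one_op (q : Qg op) (hA : Cl op A) (hx : x ∈ A) (y : X) : one A (op x y) = one A y := by
  have : op x y ∈ A ↔ y ∈ A := ⟨hA.right q hx, hA x hx y⟩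
  simp only [one, this]

theorem tri (q : Qg op) (hD : Cl op D) (ne : D.Nonempty) (hA : Cl op A) (h : X → ℝ) :
    𝔼 x ∈ D, 𝔼 y ∈ D, h (op x y) * (bal D A x * bal D A y) = dn D A * ip D h (bal D A) := by
  have e1 : ∀ x ∈ D, 𝔼 y ∈ D, h (op x y) * (one A x * bal D A y) =
      one A x * ip D h (bal D A) := fun x hx => by
    by_cases a : x ∈ A
    · rw [ip, ← shiftL q hD hx fun w => h w * bal D A w, mul_expect]
      exact expect_congr rfl fun y _ => by rw [bal, bal, one_op q hA a]; ring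
    · simp [one, a]
  have e2 : 𝔼 x ∈ D, 𝔼 y ∈ D, h (op x y) * bal D A y = 0 := by
    rw [expect_comm, expect_congr rfl fun y hy => by rw [← expect_mul, shiftR q hD hy],
      ← mul_expect, ex_bal ne, mul_zero]
  have e3 : ∀ x ∈ D, 𝔼 y ∈ D, h (op x y) * (bal D A x * bal D A y) =
      one A x * ip D h (bal D A) - dn D A * 𝔼 y ∈ D, h (op x y) * bal D A y := fun x hx => by
    rw [← e1 x hx, mul_expect, ← expect_sub_distrib]
    exact expect_congr rfl fun y _ => by rw [bal]; ring
  rw [expect_congr rfl e3, expect_sub_distrib, ← expect_mul, ex_one, ← mul_expect, e2]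
  ring

/-- The Bessel inequality. -/
theorem bessel (q : Qg op) (hD : Cl op D) (ne : D.Nonempty) (A : ι → Finset X) (V : Finset ι)
    (hA : ∀ i, Cl op (A i)) {c e S : ℝ} (c0 : 0 < c) (hc : ∀ i ∈ V, c ≤ dn D (A i)) (e0 : 0 ≤ e)
    (he : e ≤ c ^ 4 / 2) (S0 : 0 ≤ S)
    (hS : ∀ k ∈ V, (#{i ∈ V | e < |cov D (A k) (A i)|} : ℝ) ≤ S) (g : X → ℝ) :
    ∑ i ∈ V, ip D g (bal D (A i)) ^ 2 ≤ 2 * S / c ^ 4 * ip D g g := by
  have c4 : 0 < c ^ 4 := by positivity
  have st : ∀ l : ℝ, 0 ≤ l → (∀ g, ∑ i ∈ V, ip D g (bal D (A i)) ^ 2 ≤ l * ip D g g) →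
      ∀ g, ∑ i ∈ V, ip D g (bal D (A i)) ^ 2 ≤ (S / c ^ 4 + l / 2) * ip D g g := fun l l0 ih g => by
    let F : ι → X × X × X → ℝ := fun i p => bal D (A i) p.2.1 * bal D (A i) p.2.2 * bal D (A i) p.1
    have f1 : ∀ i j, ip (D ×ˢ D ×ˢ D) (F i) (F j) = cov D (A i) (A j) ^ 3 := fun i j => by
      rw [← ip_bal_bal ne, pow_three, ip, ip, expect_mul_expect, expect_mul, expect_product]
      refine expect_congr rfl fun x _ => ?_
      rw [expect_product, mul_expect]
      refine expect_congr rfl fun y _ => ?_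
      rw [mul_expect]
      exact expect_congr rfl fun z _ => by simp only [F]; ring
    have f2 : ip (D ×ˢ D ×ˢ D) (fun p => g (op (op p.2.1 p.2.2) p.1))
        (fun p => g (op (op p.2.1 p.2.2) p.1)) = ip D g g := by
      rw [ip, expect_product, expect_comm, ← expect_const (ne.product ne) (ip D g g)]
      exact expect_congr rfl fun p hp =>
        shiftL q hD (hD _ (mem_product.1 hp).1 _ (mem_product.1 hp).2) fun w => g w * g w
    have f3 : ∀ i, ip (D ×ˢ D ×ˢ D) (fun p => g (op (op p.2.1 p.2.2) p.1)) (F i) =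
        dn D (A i) ^ 2 * ip D g (bal D (A i)) := fun i => by
      have u := tri q hD ne (hA i) fun w => 𝔼 z ∈ D, g (op w z) * bal D (A i) z
      have v : ip D (fun w => 𝔼 z ∈ D, g (op w z) * bal D (A i) z) (bal D (A i)) =
          dn D (A i) * ip D g (bal D (A i)) := by
        rw [← tri q hD ne (hA i) g, ip]
        refine expect_congr rfl fun x _ => ?_
        rw [expect_mul]
        exact expect_congr rfl fun z _ => by ring
      rw [sq, mul_assoc, ← v, ← u, ip, expect_product, expect_comm, expect_product]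
      refine expect_congr rfl fun x _ => expect_congr rfl fun y _ => ?_
      rw [expect_mul]
      exact expect_congr rfl fun z _ => by simp only [F]; ring
    have f4 := schur (T := D ×ˢ D ×ˢ D) V F (R := S + e * l) (by positivity) (fun k hk => by
      have u := ih (bal D (A k))
      have v := mul_le_mul_of_nonneg_left (ip_le_one (T := D) (abs_bal D (A k))) l0
      simp only [ip_bal_bal ne] at u v
      have w : ∑ j ∈ V, |ip (D ×ˢ D ×ˢ D) (F k) (F j)| ≤
          ∑ j ∈ V, ((if e < |cov D (A k) (A j)| then 1 else 0) + e * cov D (A k) (A j) ^ 2) :=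
        sum_le_sum fun j _ => by
          have a := abs_cov ne (A k) (A j)
          have b := abs_nonneg (cov D (A k) (A j))
          rw [f1, abs_pow, ← sq_abs]
          split_ifs with z
          · nlinarith [pow_le_one₀ (n := 3) b a, mul_nonneg e0 (sq_nonneg |cov D (A k) (A j)|)]
          · nlinarith [mul_nonneg (sq_nonneg |cov D (A k) (A j)|) (sub_nonneg.2 (not_lt.1 z))]
      rw [sum_add_distrib, sum_boole, ← mul_sum] at w
      nlinarith [hS k hk]) fun p => g (op (op p.2.1 p.2.2) p.1)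
    rw [f2] at f4
    have f5 : c ^ 4 * ∑ i ∈ V, ip D g (bal D (A i)) ^ 2 ≤ (S + e * l) * ip D g g := by
      rw [mul_sum]
      refine le_trans (sum_le_sum fun i hi => ?_) f4
      rw [f3, mul_pow, ← pow_mul]
      exact mul_le_mul_of_nonneg_right (pow_le_pow_left₀ c0.le (hc i hi) 4) (sq_nonneg _)
    refine le_of_mul_le_mul_left (f5.trans ?_) c4
    rw [← mul_assoc]
    refine mul_le_mul_of_nonneg_right ?_ (ip_nonneg D g)
    rw [mul_add, mul_div_cancel₀ _ c4.ne']
    nlinarith
  have al : ∀ k : ℕ, ∀ g, ∑ i ∈ V, ip D g (bal D (A i)) ^ 2 ≤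
      (2 * S / c ^ 4 + #V * (1 / 2) ^ k) * ip D g g := fun k => by
    induction k with
    | zero =>
      intro g
      have a := ip_nonneg D g
      have b := sum_le_card_nsmul V (fun i => ip D g (bal D (A i)) ^ 2) (ip D g g) fun i _ => by
        nlinarith [cs D g (bal D (A i)), ip_le_one (T := D) (abs_bal D (A i))]
      have : 0 ≤ 2 * S / c ^ 4 * ip D g g := by positivity
      rw [nsmul_eq_mul] at b
      linarith
    | succ k ih =>
      intro g
      refine (st _ (by positivity) ih g).trans_eq ?_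
      ring
  have t := (((tendsto_pow_atTop_nhds_zero_of_lt_one (r := (1 / 2 : ℝ)) (by norm_num)
    (by norm_num)).const_mul (#V : ℝ)).const_add (2 * S / c ^ 4)).mul_const (ip D g g)
  rw [mul_zero, add_zero] at t
  exact ge_of_tendsto' t fun k => al k g

/-- The counting form. -/
theorem besselC (q : Qg op) (hD : Cl op D) (ne : D.Nonempty) (A : ι → Finset X) (V : Finset ι)
    (hA : ∀ i, Cl op (A i)) {c e S t : ℝ} (c0 : 0 < c) (hc : ∀ i ∈ V, c ≤ dn D (A i)) (e0 : 0 ≤ e)
    (he : e ≤ c ^ 4 / 2) (S0 : 0 ≤ S)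
    (hS : ∀ k ∈ V, (#{i ∈ V | e < |cov D (A k) (A i)|} : ℝ) ≤ S) (t0 : 0 < t) (B : Finset X) :
    (#{i ∈ V | t < |cov D B (A i)|} : ℝ) ≤ 2 * S / (c ^ 4 * t ^ 2) := by
  have a := bessel q hD ne A V hA c0 hc e0 he S0 hS (one B)
  have b := mul_le_mul_of_nonneg_left (ip_le_one (T := D) (abs_one B))
    (show 0 ≤ 2 * S / c ^ 4 by positivity)
  have d := card_nsmul_le_sum {i ∈ V | t < |cov D B (A i)|} (fun i => cov D B (A i) ^ 2) (t ^ 2)
    fun i hi => by
      rw [← sq_abs (cov D B (A i))]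
      exact pow_le_pow_left₀ t0.le (mem_filter.1 hi).2.le 2
  have f := sum_le_sum_of_subset_of_nonneg (f := fun i => cov D B (A i) ^ 2)
    (filter_subset (fun i => t < |cov D B (A i)|) V) fun _ _ _ => sq_nonneg _
  simp only [ip_one_bal] at a
  rw [nsmul_eq_mul] at d
  rw [← div_div, le_div_iff₀ (by positivity)]
  linarith

end Pool.Agent.MP_3df3be_co.So
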