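import Pool.Agent.MP_3df3be_co.So1

/-! The potential of a family of closed sets; contraction to a member. -/

set_option linter.unusedSectionVars false

namespace Pool.Agent.MP_3df3be_co.So

open Finset
open scoped BigOperators

variable {X ι : Type} [DecidableEq X] [DecidableEq ι]

/-- The family has potential `e`. -/
def St (A : ι → Finset X) (D : Finset X) (V : Finset ι) (e : ℝ) : Prop :=
  ∃ W : X → ℝ, ip D W W ≤ 1 ∧ ∀ i ∈ V, e * √(dn D (A i)) ≤ ip D (one (A i)) W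

variable {op : X → X → X} {A : ι → Finset X} {B D : Finset X} {V S : Finset ι} {x : X}
  {W g : X → ℝ} {e e' t τ φ γ : ℝ} {i j : ι}

theorem St.mono (h : St A D V e) (s : S ⊆ V) (k : e' ≤ e) : St A D S e' :=
  let ⟨W, a, b⟩ := h
  ⟨W, a, fun i hi => (mul_le_mul_of_nonneg_right k (Real.sqrt_nonneg _)).trans (b i (s hi))⟩

theorem St.le_one (h : St A D V e) (hi : i ∈ V) (p : 0 < dn D (A i)) : e ≤ 1 := by
  obtain ⟨W, a, b⟩ := h
  have c := cs D (one (A i)) W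
  rw [ip_one_one, inter_self] at c
  have d : ip D (one (A i)) W ≤ √(dn D (A i)) := Real.le_sqrt_of_sq_le (by nlinarith)
  exact le_of_mul_le_mul_right (by linarith [b i hi]) (Real.sqrt_pos.2 p)

theorem boost (hW : ip D W W ≤ 1) (hg : ip D g g ≤ 1) (e1 : e ≤ 1) (t0 : 0 < t) (t1 : t ≤ 1 / 2)
    (e0 : 0 ≤ e) (h1 : ∀ i ∈ V, e * √(dn D (A i)) ≤ ip D (one (A i)) W)
    (h2 : ∀ i ∈ V, (e * ip D W g + t) * √(dn D (A i)) ≤ ip D (one (A i)) g) :
    St A D V (e + t ^ 2 / 6) := by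
  obtain ⟨a1, a2⟩ := abs_le.1 (abs_ip_le hW hg)
  obtain ⟨ν, hν⟩ : ∃ ν, ν = 1 + t * ip D W g + t ^ 2 / 2 := ⟨_, rfl⟩
  have n0 : 0 < ν := by nlinarith
  have n1 : ν ≤ 3 := by nlinarith
  refine ⟨fun x => ν⁻¹ * (1 * W x + t * g x), ?_, fun i hi => ?_⟩
  · rw [ip_smul, ip_comm, ip_smul, ip_lin, ip_comm, ip_lin,
      ip_comm D (fun x => 1 * W x + t * g x) g, ip_lin, ip_comm D g W,
      ← mul_assoc, ← mul_inv, inv_mul_le_one₀ (by positivity), hν]
    nlinarith [sq_nonneg (t * ip D W g + t ^ 2 / 2), mul_le_mul_of_nonneg_left hg (sq_nonneg t)]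
  · rw [ip_smul, ip_lin, le_inv_mul_iff₀ n0]
    have r := Real.sqrt_nonneg (dn D (A i))
    have u : ν * (e + t ^ 2 / 6) ≤ e + t * (e * ip D W g + t) := by
      nlinarith [mul_le_mul_of_nonneg_left n1 (sq_nonneg t),
        mul_le_mul_of_nonneg_left e1 (sq_nonneg t)]
    nlinarith [mul_le_mul_of_nonneg_right u r, mul_le_mul_of_nonneg_left (h2 i hi) t0.le, h1 i hi]

theorem mark (V : Finset ι) (f : ι → ℝ) (h : ∀ i ∈ V, 0 ≤ f i) (t : ℝ) :
    #{i ∈ V | t < f i} * t ≤ ∑ i ∈ V, f i := by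
  have d := card_nsmul_le_sum {i ∈ V | t < f i} f t fun i hi => (mem_filter.1 hi).2.le
  rw [nsmul_eq_mul] at d
  exact d.trans (sum_le_sum_of_subset_of_nonneg (filter_subset _ V) fun i hi _ => h i hi)

theorem ex_res (D A : Finset X) (h : X → ℝ) :
    𝔼 y ∈ D, one A y * h y = dn D A * 𝔼 y ∈ D ∩ A, h y := by
  simp only [one, ite_mul, one_mul, zero_mul, expect_eq_sum_div_card, sum_ite_mem, dn]
  rcases (D ∩ A).eq_empty_or_nonempty with u | u
  · simp [u]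
  · have : (#(D ∩ A) : ℝ) ≠ 0 := by exact_mod_cast u.card_pos.ne'
    field_simp

/-- Almost all members see a test function as `e W` does. -/
def Reg (A : ι → Finset X) (D : Finset X) (V : Finset ι) (W : X → ℝ) (e τ N : ℝ) : Prop :=
  ∀ g : X → ℝ, ip D g g ≤ 1 →
    (#{i ∈ V | (e * ip D W g + τ) * √(dn D (A i)) ≤ ip D (one (A i)) g} : ℝ) < N

variable {N : ℝ}

theorem avoid {B C : Finset ι} (h : (#B : ℝ) < N) (k : (#C : ℝ) < N) (p : 2 * N ≤ #S) :
    ∃ i ∈ S, i ∉ B ∧ i ∉ C := by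
  have a : (#B : ℝ) + #C < #S := by linarith
  obtain ⟨i, a, b⟩ := exists_mem_notMem_of_card_lt_card (s := B ∪ C) (t := S)
    ((card_union_le _ _).trans_lt (by exact_mod_cast a))
  exact ⟨i, a, notMem_union.1 b⟩

theorem card4 (S a b c d : Finset ι) : (#S : ℝ) ≤ #(S \ (a ∪ b ∪ c ∪ d)) + (#a + #b + #c + #d) := by
  have := le_card_sdiff (a ∪ b ∪ c ∪ d) S
  have := card_union_le (a ∪ b ∪ c) d
  have := card_union_le (a ∪ b) c
  have := card_union_le a b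
  exact_mod_cast (by omega : #S ≤ #(S \ (a ∪ b ∪ c ∪ d)) + (#a + #b + #c + #d))

theorem Reg.inv (h : Reg A D V W e τ N) (q : Qg op) (hD : Cl op D) (hA : ∀ i, Cl op (A i))
    (p : ∀ i ∈ V, 0 < dn D (A i)) (hx : x ∈ D) (pop : 2 * N ≤ #{i ∈ V | x ∈ A i})
    (hg : ip D g g ≤ 1) : e * (ip D W g - 𝔼 y ∈ D, W (op x y) * g y) ≤ 2 * τ := by
  have tr : ∀ f : X → ℝ, ip D f (Function.extend (op x) g 0) = 𝔼 y ∈ D, f (op x y) * g y :=
    fun f => by
      rw [ip, ← shiftL q hD hx fun w => f w * Function.extend (op x) g 0 w]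
      simp only [(q.l x).extend_apply]
  have h1 := h (Function.extend (op x) g 0) (by
    rw [tr]
    simp only [(q.l x).extend_apply]
    exact hg)
  have h2 := h (fun y => -1 * g y) (by rw [ip_smul, ip_comm, ip_smul]; linarith)
  obtain ⟨i, a, b⟩ := avoid h1 h2 pop
  obtain ⟨a1, a2⟩ := mem_filter.1 a
  simp only [mem_filter, a1, true_and, not_le, tr, ip_smul, one_op q (hA i) a2] at b
  have r := Real.sqrt_pos.2 (p i a1)
  have c : ip D (one (A i)) g = 𝔼 y ∈ D, one (A i) y * g y := rfl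
  refine le_of_mul_le_mul_right ?_ r
  nlinarith [b.1, b.2]

theorem Reg.orth (h : Reg A D V W e τ N) (q : Qg op) (hD : Cl op D) (hA : ∀ i, Cl op (A i))
    (p : ∀ i ∈ V, 0 < dn D (A i)) (hW : ip D W W ≤ 1) (e0 : 0 ≤ e) (e1 : e ≤ 1) (τ0 : 0 ≤ τ)
    (hj : j ∈ V) (z : dn (D ∩ A j) {x ∈ D | (#{i ∈ V | x ∈ A i} : ℝ) < 2 * N} ≤ τ)
    {f : X → ℝ} (f1 : ∀ x, |f x| ≤ 1) (f0 : 𝔼 y ∈ D ∩ A j, f y = 0) :
    (#{i ∈ V | 5 * τ < dn D (A j) * ip (D ∩ A j) (one (A i)) f} : ℝ) < N := by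
  have ne := ne_of_dn (p j hj)
  have hE := hD.inter (hA j)
  have hg : ip D (fun y => one (A j) y * f y) (fun y => one (A j) y * f y) ≤ 1 :=
    ip_le_one fun x => by
      rw [abs_mul]; exact mul_le_one₀ (abs_one _ x) (abs_nonneg _) (f1 x)
  have rs : ∀ u : X → ℝ, 𝔼 y ∈ D, u y * (one (A j) y * f y) = dn D (A j) * ip (D ∩ A j) u f :=
    fun u => by rw [ip, ← ex_res]; exact expect_congr rfl fun y _ => by ring
  have k1 : 𝔼 x ∈ D ∩ A j, 𝔼 y ∈ D, W (op x y) * (one (A j) y * f y) = 0 := by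
    simp only [rs (fun y => W (op _ y)), ip]
    rw [← mul_expect, expect_comm,
      expect_congr rfl fun y hy => by rw [← expect_mul, shiftR q hE hy], ← mul_expect, f0]
    ring
  have k2 : 𝔼 x ∈ D ∩ A j, e * (ip D W (fun y => one (A j) y * f y) -
      𝔼 y ∈ D, W (op x y) * (one (A j) y * f y)) ≤
      𝔼 x ∈ D ∩ A j, (2 * τ + 2 * one {x ∈ D | (#{i ∈ V | x ∈ A i} : ℝ) < 2 * N} x) :=
    expect_le_expect fun x hx => by
      have hx' := (mem_inter.1 hx).1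
      by_cases u : (#{i ∈ V | x ∈ A i} : ℝ) < 2 * N
      · have a := abs_le.1 (abs_ip_le hW hg)
        have b := abs_le.1 (abs_ip_le (f := fun y => W (op x y))
          ((shiftL q hD hx' fun w => W w * W w).trans_le hW) hg)
        rw [one, if_pos (mem_filter.2 ⟨hx', u⟩)]
        have b1 : -1 ≤ 𝔼 y ∈ D, W (op x y) * (one (A j) y * f y) := b.1
        have c : ip D W (fun y => one (A j) y * f y) -
          𝔼 y ∈ D, W (op x y) * (one (A j) y * f y) ≤ 2 := by linarith [a.2]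
        nlinarith [mul_le_mul_of_nonneg_left c e0]
      · rw [one, if_neg (by simp only [mem_filter, u, and_false, not_false_iff])]
        linarith [h.inv q hD hA p hx' (not_lt.1 u) hg]
  rw [← mul_expect, expect_sub_distrib, expect_const ne, k1, expect_add_distrib, expect_const ne,
    ← mul_expect, ex_one] at k2
  refine lt_of_le_of_lt (Nat.cast_le.2 (card_le_card fun i hi => ?_)) (h _ hg)
  obtain ⟨a, b⟩ := mem_filter.1 hi
  refine mem_filter.2 ⟨a, ?_⟩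
  have r : √(dn D (A i)) ≤ 1 := Real.sqrt_le_one.2 (dn_le_one _ _)
  have r0 := Real.sqrt_nonneg (dn D (A i))
  have c : ip D (one (A i)) (fun y => one (A j) y * f y) = _ := rs (one (A i))
  nlinarith [mul_le_mul_of_nonneg_right
    (show e * ip D W (fun y => one (A j) y * f y) + τ ≤ 5 * τ by linarith) r0,
    mul_le_mul_of_nonneg_left r τ0]

theorem abs_log_sub {a b c : ℝ} (c0 : 0 < c) (ha : c ≤ a) (hb : c ≤ b) :
    |Real.log a - Real.log b| ≤ |a - b| / c := by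
  have k : ∀ {a b : ℝ}, c ≤ a → c ≤ b → Real.log a - Real.log b ≤ |a - b| / c := fun {a b} ha hb => by
    have b0 := c0.trans_le hb
    rw [← Real.log_div (c0.trans_le ha).ne' b0.ne']
    refine (Real.log_le_sub_one_of_pos (div_pos (c0.trans_le ha) b0)).trans ?_
    rw [div_sub_one b0.ne']
    exact (div_le_div_of_nonneg_right (le_abs_self _) b0.le).trans
      (div_le_div_of_nonneg_left (abs_nonneg _) c0 hb)
  exact abs_sub_le_iff.2 ⟨k ha hb, abs_sub_comm a b ▸ k hb ha⟩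

/-- Contraction to a member. -/
theorem contract (q : Qg op) (hD : Cl op D) (hA : ∀ i, Cl op (A i)) (γ0 : 0 < γ) (γ1 : γ ≤ 1 / 2)
    (hc : ∀ i ∈ V, γ ^ 2 ≤ dn D (A i)) (ne : V.Nonempty) (he : 2 * γ ≤ e) (st : St A D V e)
    (τ0 : 0 < τ) (τ1 : 5 * τ / γ ^ 2 ≤ γ ^ 12 / 2) (τ2 : τ ≤ γ ^ 2) (φ0 : 0 < φ) (t0 : 0 < t)
    (φ1 : 4 * φ ≤ τ * γ ^ 2) (φ2 : φ * (2 + 8 / (γ ^ 12 * t ^ 2)) ≤ 1 / 4)
    (no : ∀ S ⊆ V, St A D S (e + τ ^ 2 / 6) → (#S : ℝ) < φ * #V) :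
    ∃ k ∈ V, ∃ V' ⊆ V, (#V : ℝ) ≤ 4 * #V' ∧ (∀ i ∈ V', e ^ 2 - τ ≤ dn (D ∩ A k) (A i)) ∧
      (∀ B, (#{i ∈ V | 5 * τ / γ ^ 2 < |cov (D ∩ A k) B (A i)|} : ℝ) ≤ 2 * (φ * #V)) ∧
      ∀ i ∈ V', ∀ j ∈ V', |Real.log (dn (D ∩ A k) (A i)) - Real.log (dn (D ∩ A k) (A j)) -
        (Real.log (dn D (A i)) - Real.log (dn D (A j)))| ≤ 4 * t / γ ^ 6 := by
  have g2 : 0 < γ ^ 2 := by positivity
  have p : ∀ i ∈ V, 0 < dn D (A i) := fun i hi => g2.trans_le (hc i hi)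
  have e1 : e ≤ 1 := let ⟨i, hi⟩ := ne; st.le_one hi (p i hi)
  have e0 : 0 ≤ e := by linarith
  have N0 : (0 : ℝ) < #V := by exact_mod_cast ne.card_pos
  obtain ⟨W, hW, h1⟩ := st
  have rg : Reg A D V W e τ (φ * #V) := fun g hg => no _ (filter_subset _ _)
    (boost hW hg e1 τ0 (by nlinarith) e0 (fun i hi => h1 i (mem_filter.1 hi).1)
      fun i hi => (mem_filter.1 hi).2)
  obtain ⟨r, hr⟩ : ∃ r : ι → ℝ, ∀ i, r i = √(dn D (A i)) := ⟨_, fun _ => rfl⟩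
  have r1 : ∀ i, r i ≤ 1 := fun i => hr i ▸ Real.sqrt_le_one.2 (dn_le_one _ _)
  have r2 : ∀ i ∈ V, γ ≤ r i := fun i hi => hr i ▸ Real.le_sqrt_of_sq_le (hc i hi)
  have r3 : ∀ i, r i * r i = dn D (A i) := fun i => hr i ▸ Real.mul_self_sqrt (dn_nonneg _ _)
  -- good pairs
  have gp : ∀ j ∈ V, (#{i ∈ V | dn D (A i ∩ A j) < (e ^ 2 - τ) * (r i * r j)} : ℝ) ≤ φ * #V :=
    fun j hj => by
      have j0 := γ0.trans_le (r2 j hj)
      refine le_trans (Nat.cast_le.2 (card_le_card fun i hi => ?_))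
        (rg (fun y => -(r j)⁻¹ * one (A j) y) (by
          rw [ip_smul, ip_comm, ip_smul, ip_one_one, inter_self, ← r3]
          field_simp
          rfl)).le
      obtain ⟨a, b⟩ := mem_filter.1 hi
      refine mem_filter.2 ⟨a, ?_⟩
      have i0 := γ0.trans_le (r2 i a)
      have u := h1 j hj
      rw [ip_smul, ip_smul, ip_one_one, ← hr, ip_comm]
      rw [← hr] at u
      refine le_of_mul_le_mul_left ?_ j0
      have v : r j * (r j)⁻¹ = 1 := mul_inv_cancel₀ j0.ne'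
      have w := mul_le_mul_of_nonneg_left (mul_le_mul_of_nonneg_left u e0) i0.le
      calc _ = (-(r j * (r j)⁻¹) * e * ip D (one (A j)) W + τ * r j) * r i := by ring
        _ ≤ -(r j * (r j)⁻¹) * dn D (A i ∩ A j) := by rw [v]; nlinarith
        _ = _ := by ring
  have gd : ∀ i ∈ V, ∀ j ∈ V, (e ^ 2 - τ) * (r i * r j) ≤ dn D (A i ∩ A j) →
      (e ^ 2 - τ) * r i ≤ dn (D ∩ A j) (A i) * r j ∧ γ ^ 3 ≤ dn (D ∩ A j) (A i) :=
    fun i hi j hj h => by
      have j0 := γ0.trans_le (r2 j hj)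
      rw [inter_comm, ← dn_inter, ← r3] at h
      have a : (e ^ 2 - τ) * r i ≤ dn (D ∩ A j) (A i) * r j :=
        le_of_mul_le_mul_right (by linarith) j0
      have b : γ ^ 2 ≤ e ^ 2 - τ := by nlinarith
      exact ⟨a, by nlinarith [mul_le_mul b (r2 i hi) γ0.le (g2.le.trans b),
        mul_le_mul_of_nonneg_left (r1 j) (dn_nonneg (D ∩ A j) (A i))]⟩
  -- members with few unpopular points
  obtain ⟨U, hU⟩ : ∃ U, U = {x ∈ D | (#{i ∈ V | x ∈ A i} : ℝ) < 2 * (φ * #V)} := ⟨_, rfl⟩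
  obtain ⟨V2, hV⟩ : ∃ V2, V2 = {j ∈ V | ¬τ < dn (D ∩ A j) U} := ⟨_, rfl⟩
  have s2 : V2 ⊆ V := hV ▸ filter_subset _ _
  have c2 : (#V : ℝ) ≤ 2 * #V2 := by
    have a := mark V (fun j => dn (D ∩ A j) U) (fun _ _ => dn_nonneg _ _) τ
    have b : ∑ j ∈ V, dn (D ∩ A j) U * γ ^ 2 ≤ 2 * (φ * #V) := by
      refine (sum_le_sum fun j hj => (mul_le_mul_of_nonneg_left (hc j hj) (dn_nonneg _ _)).trans_eq
        ((dn_inter _ _ _).trans (ip_one_one _ _ _).symm)).trans ?_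
      obtain ⟨i, hi⟩ := ne
      simp only [ip]
      rw [← expect_sum_comm]
      refine expect_le ((ne_of_dn (p i hi)).mono inter_subset_left) fun x _ => ?_
      rw [← sum_mul]
      by_cases u : x ∈ U
      · simp only [one, u, if_true, mul_one, sum_boole]
        exact (mem_filter.1 (hU ▸ u)).2.le
      · simp only [one, u, if_false, mul_zero]
        positivity
    have c := card_filter_add_card_filter_not (s := V) fun j => τ < dn (D ∩ A j) U
    rw [← hV] at c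
    rw [← sum_mul] at b
    have d : (#{j ∈ V | τ < dn (D ∩ A j) U} : ℝ) + #V2 = #V := by exact_mod_cast c
    have f : (#{j ∈ V | τ < dn (D ∩ A j) U} : ℝ) ≤ #V / 2 :=
      le_of_mul_le_mul_right (by nlinarith [mul_le_mul_of_nonneg_right a g2.le,
        mul_le_mul_of_nonneg_right φ1 N0.le]) (mul_pos τ0 g2)
    linarith
  have n2 : V2.Nonempty := card_pos.1 (by exact_mod_cast (by linarith : (0 : ℝ) < #V2))
  have dg : ∀ j ∈ V2, ∀ B,
      (#{i ∈ V | 5 * τ / γ ^ 2 < |cov (D ∩ A j) B (A i)|} : ℝ) ≤ 2 * (φ * #V) := fun j hj B => by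
    have z : dn (D ∩ A j) U ≤ τ := by
      rw [hV, mem_filter] at hj
      exact not_lt.1 hj.2
    have nE := ne_of_dn (p j (s2 hj))
    rw [hU] at z
    have a := rg.orth q hD hA p hW e0 e1 τ0.le (s2 hj) z (abs_bal (D ∩ A j) B) (ex_bal nE B)
    have b := rg.orth q hD hA p hW e0 e1 τ0.le (s2 hj) z (f := fun y => -1 * bal (D ∩ A j) B y)
      (fun x => by simpa using abs_bal _ B x) (by rw [← mul_expect, ex_bal nE, mul_zero])
    simp only [ip_smul, ip_one_bal] at a b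
    refine le_trans ?_ ((add_le_add a.le b.le).trans_eq (two_mul _).symm)
    rw [← Nat.cast_add]
    refine Nat.cast_le.2 ((card_le_card fun i hi => ?_).trans (card_union_le _ _))
    obtain ⟨u, v⟩ := mem_filter.1 hi
    rw [div_lt_iff₀ g2, cov_comm] at v
    have w := mul_le_mul_of_nonneg_left (hc j (s2 hj)) (abs_nonneg (cov (D ∩ A j) (A i) B))
    simp only [mem_union, mem_filter, u, true_and]
    rcases abs_cases (cov (D ∩ A j) (A i) B) with ⟨y, -⟩ | ⟨y, -⟩ <;> rw [y] at v w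
    · left; linarith
    · right; linarith
  obtain ⟨k, hk, km⟩ := V2.exists_min_image r n2
  have bs : ∀ j ∈ V2, (#{i ∈ V2 | (e ^ 2 - τ) * (r i * r j) ≤ dn D (A i ∩ A j) ∧
      t < |cov (D ∩ A j) (A k) (A i)|} : ℝ) ≤ 4 * (φ * #V) / (γ ^ 12 * t ^ 2) := fun j hj => by
    have a := besselC q (hD.inter (hA j)) (ne_of_dn (p j (s2 hj))) A
      {i ∈ V2 | (e ^ 2 - τ) * (r i * r j) ≤ dn D (A i ∩ A j)} hA (c := γ ^ 3) (S := 2 * (φ * #V))
      (e := 5 * τ / γ ^ 2) (by positivity)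
      (fun i hi => (gd i (s2 (mem_filter.1 hi).1) j (s2 hj) (mem_filter.1 hi).2).2)
      (by positivity) (τ1.trans_eq (by ring)) (by positivity)
      (fun l _ => le_trans (Nat.cast_le.2 (card_le_card (filter_subset_filter _
        ((filter_subset _ _).trans s2)))) (dg j hj (A l))) t0 (A k)
    rw [filter_filter] at a
    exact a.trans_eq (by ring)
  obtain ⟨j, hj, jm⟩ : ∃ j ∈ V2, (#{i ∈ V2 | (e ^ 2 - τ) * (r j * r i) ≤ dn D (A j ∩ A i) ∧
      t < |cov (D ∩ A i) (A k) (A j)|} : ℝ) ≤ 4 * (φ * #V) / (γ ^ 12 * t ^ 2) := by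
    refine exists_le_of_sum_le n2 (le_trans ?_ (sum_le_sum bs))
    simp only [card_filter, Nat.cast_sum]
    rw [sum_comm]
  obtain ⟨V', hV'⟩ : ∃ V', V' = V2 \ ({i ∈ V | dn D (A i ∩ A j) < (e ^ 2 - τ) * (r i * r j)} ∪
    {i ∈ V | dn D (A i ∩ A k) < (e ^ 2 - τ) * (r i * r k)} ∪
    {i ∈ V2 | (e ^ 2 - τ) * (r i * r j) ≤ dn D (A i ∩ A j) ∧ t < |cov (D ∩ A j) (A k) (A i)|} ∪
    {i ∈ V2 | (e ^ 2 - τ) * (r j * r i) ≤ dn D (A j ∩ A i) ∧ t < |cov (D ∩ A i) (A k) (A j)|}) :=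
    ⟨_, rfl⟩
  have s3 : V' ⊆ V2 := hV' ▸ sdiff_subset
  have m : ∀ i ∈ V', (e ^ 2 - τ) * (r i * r k) ≤ dn D (A i ∩ A k) ∧
      |dn (D ∩ A i) (A k) - dn (D ∩ A j) (A k)| ≤ 2 * (t / γ ^ 3) := fun i hi => by
    have i2 := s3 hi
    simp only [hV', mem_sdiff, mem_union, mem_filter, i2, s2 i2, true_and, not_or, not_lt,
      not_and] at hi
    obtain ⟨⟨⟨a1, a2⟩, a3⟩, a4⟩ := hi
    have a5 : (e ^ 2 - τ) * (r j * r i) ≤ dn D (A j ∩ A i) := by rwa [mul_comm (r j), inter_comm]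
    have g3 : t = γ ^ 3 * (t / γ ^ 3) := by field_simp
    have b1 := dn_step (by positivity) (gd i (s2 i2) j (s2 hj) a1).2 ((a3 a1).trans_eq g3)
    have b2 := dn_step (by positivity) (gd j (s2 hj) i (s2 i2) a5).2 ((a4 a5).trans_eq g3)
    rw [inter_right_comm] at b2
    obtain ⟨b3, b4⟩ := abs_le.1 b1
    obtain ⟨b5, b6⟩ := abs_le.1 b2
    exact ⟨a2, abs_le.2 ⟨by linarith, by linarith⟩⟩
  refine ⟨k, s2 hk, V', s3.trans s2, ?_, fun i hi => ?_, dg k hk, fun i hi l hl => ?_⟩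
  · have a := (card4 V2 _ _ _ _).trans (add_le_add (congrArg (fun s : Finset ι => (#s : ℝ)) hV').ge (add_le_add (add_le_add
      (add_le_add (gp j (s2 hj)) (gp k (s2 hk))) (bs j hj)) jm))
    have b := mul_le_mul_of_nonneg_right φ2 N0.le
    have c : φ * (2 + 8 / (γ ^ 12 * t ^ 2)) * #V = φ * #V + φ * #V +
      4 * (φ * #V) / (γ ^ 12 * t ^ 2) + 4 * (φ * #V) / (γ ^ 12 * t ^ 2) := by ring
    linarith
  · have k0 := γ0.trans_le (r2 k (s2 hk))
    have b : 0 ≤ e ^ 2 - τ := by nlinarith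
    exact le_of_mul_le_mul_right ((mul_le_mul_of_nonneg_left (km i (s3 hi)) b).trans
      (gd i (s2 (s3 hi)) k (s2 hk) (m i hi).1).1) k0
  · have g3 : 0 < γ ^ 3 := by positivity
    have lg : ∀ i ∈ V', γ ^ 3 ≤ dn (D ∩ A i) (A k) ∧ Real.log (dn (D ∩ A k) (A i)) +
        Real.log (dn D (A k)) = Real.log (dn (D ∩ A i) (A k)) + Real.log (dn D (A i)) :=
      fun i hi => by
        have a := (gd i (s2 (s3 hi)) k (s2 hk) (m i hi).1).2
        have b := (gd k (s2 hk) i (s2 (s3 hi)) (by rw [mul_comm (r k), inter_comm]; exact (m i hi).1)).2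
        refine ⟨b, ?_⟩
        rw [← Real.log_mul (g3.trans_le a).ne' (p k (s2 hk)).ne',
          ← Real.log_mul (g3.trans_le b).ne' (p i (s2 (s3 hi))).ne', dn_inter, dn_inter, inter_comm]
    have a := abs_log_sub g3 (lg i hi).1 (lg l hl).1
    have b : |dn (D ∩ A i) (A k) - dn (D ∩ A l) (A k)| ≤ 4 * (t / γ ^ 3) := by
      obtain ⟨b3, b4⟩ := abs_le.1 (m i hi).2
      obtain ⟨b5, b6⟩ := abs_le.1 (m l hl).2
      exact abs_le.2 ⟨by linarith, by linarith⟩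
    calc _ = |Real.log (dn (D ∩ A i) (A k)) - Real.log (dn (D ∩ A l) (A k))| := by
          congr 1; linarith [(lg i hi).2, (lg l hl).2]
      _ ≤ 4 * (t / γ ^ 3) / γ ^ 3 := a.trans (div_le_div_of_nonneg_right b g3.le)
      _ = _ := by field_simp

end Pool.Agent.MP_3df3be_co.So
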