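import Pool.Agent.MP_3df3be_co.So2

/-! The run of intersections. -/

set_option linter.unusedSectionVars false

namespace Pool.Agent.MP_3df3be_co.So

open Finset
open scoped BigOperators

variable {X ι : Type} [DecidableEq X] [DecidableEq ι]

/-- Greedy removal of clusters. -/
theorem extract (P : Finset ι → Prop) (F : ι → ι → ℝ) (F0 : ∀ i j, 0 ≤ F i j) (Θ : ℝ)
    (V : Finset ι) : (∀ S ⊆ V, P S → S.Nonempty ∧ Θ * #S ≤ ∑ i ∈ S, ∑ j ∈ S, F i j) →
    ∃ V' ⊆ V, (∀ S ⊆ V', ¬P S) ∧ Θ * (#V - #V') ≤ ∑ i ∈ V, ∑ j ∈ V, F i j := by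
  induction V using Finset.strongInduction with
  | H V ih =>
    intro h
    by_cases u : ∃ S ⊆ V, P S
    · obtain ⟨S, s, p⟩ := u
      obtain ⟨n, k⟩ := h S s p
      obtain ⟨V', a, b, c⟩ := ih (V \ S) (sdiff_ssubset s n) fun T t => h T (t.trans sdiff_subset)
      refine ⟨V', a.trans sdiff_subset, b, ?_⟩
      have d : (#(V \ S) : ℝ) + #S = #V := by exact_mod_cast card_sdiff_add_card_eq_card s
      have f : ∀ T ⊆ V, ∑ i ∈ T, ∑ j ∈ T, F i j ≤ ∑ i ∈ T, ∑ j ∈ V, F i j := fun T t =>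
        sum_le_sum fun i _ => sum_le_sum_of_subset_of_nonneg t fun j _ _ => F0 i j
      have y := sum_sdiff (f := fun i => ∑ j ∈ V, F i j) s
      rw [← d]
      linarith [f S s, f (V \ S) sdiff_subset]
    · refine ⟨V, Subset.rfl, fun S s p => u ⟨S, s, p⟩, ?_⟩
      rw [sub_self, mul_zero]
      exact sum_nonneg fun i _ => sum_nonneg fun j _ => F0 i j

variable {op : X → X → X} {A : ι → Finset X} {D : Finset X} {V U : Finset ι} {g : X → ℝ}

/-- Many pairs in a cluster are correlated. -/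
theorem pairs (ne : D.Nonempty) (hg : ip D g g ≤ 1) (g0 : 𝔼 x ∈ D, g x = 0) {e : ℝ} (e0 : 0 ≤ e)
    (h : ∀ i ∈ U, e ≤ ip D (one (A i)) g) :
    e ^ 2 / 2 * #U ^ 2 ≤ ∑ i ∈ U, ∑ j ∈ U, if e ^ 2 / 2 ≤ cov D (A i) (A j) then (1 : ℝ) else 0 := by
  have a := cs D g fun x => ∑ i ∈ U, 1 * bal D (A i) x
  have b : e * #U ≤ ip D g fun x => ∑ i ∈ U, 1 * bal D (A i) x := by
    rw [ip_sum, mul_comm, ← nsmul_eq_mul]
    exact card_nsmul_le_sum _ _ _ fun i hi => by
      rw [ip_bal, g0, ip_comm]; linarith [h i hi]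
  have c : ip D (fun x => ∑ i ∈ U, 1 * bal D (A i) x) (fun x => ∑ i ∈ U, 1 * bal D (A i) x) ≤
      ∑ i ∈ U, ∑ j ∈ U, (e ^ 2 / 2 + if e ^ 2 / 2 ≤ cov D (A i) (A j) then (1 : ℝ) else 0) := by
    rw [ip_sum]
    refine sum_le_sum fun i _ => ?_
    rw [one_mul, ip_comm, ip_sum]
    refine sum_le_sum fun j _ => ?_
    rw [one_mul, ip_bal_bal ne]
    split_ifs with u
    · nlinarith [(abs_le.1 (abs_cov ne (A i) (A j))).2]
    · linarith
  simp only [sum_add_distrib, sum_const, nsmul_eq_mul] at c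
  nlinarith [pow_le_pow_left₀ (by positivity) b 2, mul_le_mul_of_nonneg_right hg
    (ip_nonneg D fun x => ∑ i ∈ U, 1 * bal D (A i) x)]

/-- The weight of the correlated pairs. -/
noncomputable def wt (A : ι → Finset X) (w : ι → ι → ℝ) (D : Finset X) (V : Finset ι) (t : ℝ) : ℝ :=
  ∑ i ∈ V, ∑ j ∈ V, if t ≤ cov D (A i) (A j) then w i j else 0

theorem run (q : Qg op) (hA : ∀ i, Cl op (A i)) (hD : Cl op D) {m : ℕ} (hm : #D < 2 ^ m)
    (ne : V.Nonempty) {c e e' η δ ζ s s0 Ω wm Θ : ℝ} (w : ι → ι → ℝ) (w0 : ∀ i j, 0 ≤ w i j)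
    (w1 : ∀ i j, w i j ≤ wm) (wΩ : ∑ i ∈ V, ∑ j ∈ V, w i j ≤ Ω * #V ^ 2) (c0 : 0 < c)
    (e0 : 0 < e) (e1 : e ≤ c ^ 4 / 2) (e2 : e ≤ 1 / 2) (e3 : 0 ≤ e') (e4 : e' ≤ 1) (η0 : 0 < η)
    (δ0 : 0 < δ) (ζ0 : 0 < ζ) (s1 : 0 < s) (Θ0 : 0 < Θ) (Ω0 : 0 ≤ Ω)
    (lo : ∀ i ∈ V, c + m * η ≤ dn D (A i) ∧ e' ^ 2 + m * η ≤ dn D (A i) ∧ dn D (A i) + m * η < 1)
    (ini : ∀ k ∈ V, (#{i ∈ V | e ^ 2 / 4 ≤ cov D (A k) (A i)} : ℝ) ≤ s0 * #V)
    (cl : ∀ D', Cl op D' → #D' < 2 ^ m → ∀ S ⊆ V,
      (∀ i ∈ S, |dn D' (A i) - dn D (A i)| ≤ m * η) → St A D' S (e' + e ^ 2 / 6) →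
      ∃ U ⊆ S, ∃ ω, 0 ≤ ω ∧ (∀ i ∈ U, ∀ j ∈ U, ω ≤ w i j) ∧ Θ * #S ^ 2 ≤ ω * #U ^ 2)
    (n0 : m * δ ≤ e ^ 2 / 4) (n1 : 4 * η ≤ δ) (n2 : 4 * m * ζ ≤ 1) (n3 : 2 * s ≤ ζ * c ^ 6 * η ^ 2)
    (n4 : s0 * wm + m * (16 * Ω * s / (c ^ 6 * δ ^ 2)) ≤ ζ * e ^ 2 * Θ * s / 4) : False := by
  have N0 : (0 : ℝ) < #V := by exact_mod_cast ne.card_pos
  obtain ⟨B, hB⟩ : ∃ B, B = 16 * Ω * s / (c ^ 6 * δ ^ 2) := ⟨_, rfl⟩
  have B0 : 0 ≤ B := by rw [hB]; positivity
  rw [← hB] at n4
  have key : ∀ t ≤ m, ∃ (D' : Finset X) (V' : Finset ι), Cl op D' ∧ D'.Nonempty ∧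
      2 ^ t * #D' ≤ #D ∧ V' ⊆ V ∧ (1 - 2 * t * ζ) * #V ≤ #V' ∧
      (∀ i ∈ V', |dn D' (A i) - dn D (A i)| ≤ t * η) ∧
      wt A w D' V' (e ^ 2 / 4 + t * δ) ≤ (s0 * wm + t * B) * #V ^ 2 := fun t => by
    induction t with
    | zero =>
      intro _
      obtain ⟨i, hi⟩ := ne
      refine ⟨D, V, hD, (ne_of_dn (A := A i) ?_).mono inter_subset_left, by simp, Subset.rfl,
        by simp, by simp, ?_⟩
      · have : 0 ≤ m * η := by positivity
        linarith [(lo i hi).1]
      · have wm0 := (w0 i i).trans (w1 i i)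
        refine (sum_le_card_nsmul _ _ (s0 * #V * wm) fun k hk => ?_).trans_eq (by simp; ring)
        refine le_trans ?_ (mul_le_mul_of_nonneg_right (ini k hk) wm0)
        simp only [Nat.cast_zero, zero_mul, add_zero]
        rw [← sum_filter, ← nsmul_eq_mul]
        exact sum_le_card_nsmul _ _ _ fun j _ => w1 k j
    | succ t ih =>
      intro ht
      obtain ⟨E, V1, hE, nE, cE, s1', c1, d1, p1⟩ := ih (by omega)
      have tm : (t : ℝ) + 1 ≤ m := by exact_mod_cast ht
      have t0 : (0 : ℝ) ≤ t := Nat.cast_nonneg t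
      have tη : t * η ≤ m * η := mul_le_mul_of_nonneg_right (by linarith) η0.le
      have bd : ∀ i ∈ V1, c ≤ dn E (A i) ∧ e' ^ 2 ≤ dn E (A i) ∧ dn E (A i) < 1 := fun i hi => by
        obtain ⟨a1, a2, a3⟩ := lo i (s1' hi)
        obtain ⟨a4, a5⟩ := abs_le.1 (d1 i hi)
        exact ⟨by linarith, by linarith, by linarith⟩
      obtain ⟨V2, s2, nc, rm⟩ := extract (fun S => s * #V / 2 ≤ #S ∧ ∃ g : X → ℝ, ip E g g ≤ 1 ∧
          𝔼 x ∈ E, g x = 0 ∧ ∀ i ∈ S, e ≤ ip E (one (A i)) g)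
        (fun i j => if e ^ 2 / 4 + t * δ ≤ cov E (A i) (A j) then w i j else 0)
        (fun i j => by split_ifs; exacts [w0 i j, le_rfl]) (e ^ 2 * Θ * s * #V / 4) V1
        fun S sS ⟨cS, g, g1, g0, g2⟩ => by
          have S0 : (0 : ℝ) < #S := lt_of_lt_of_le (by positivity) cS
          refine ⟨card_pos.1 (by exact_mod_cast S0), ?_⟩
          obtain ⟨U, sU, ω, ω0, ω1, ω2⟩ := cl E hE
            (lt_of_le_of_lt ((Nat.le_mul_of_pos_left _ (by positivity)).trans cE) hm) S
            (sS.trans s1') (fun i hi => (d1 i (sS hi)).trans tη)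
            (boost (W := fun _ => 1) (ip_le_one fun _ => by simp) g1 e4 e0 e2 e3
              (fun i hi => by
                rw [ip_one_c]
                nlinarith [Real.mul_self_sqrt (dn_nonneg E (A i)), mul_le_mul_of_nonneg_right
                  (Real.le_sqrt_of_sq_le (bd i (sS hi)).2.1) (Real.sqrt_nonneg (dn E (A i)))])
              fun i hi => by
                have : ip E (fun _ => 1) g = 0 := by simpa only [ip, one_mul] using g0
                rw [this]
                nlinarith [g2 i hi, mul_le_mul_of_nonneg_left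
                  (Real.sqrt_le_one.2 (dn_le_one E (A i))) e0.le])
          have a := mul_le_mul_of_nonneg_left (pairs nE g1 g0 e0.le fun i hi => g2 i (sU hi)) ω0
          have b : ω * ∑ i ∈ U, ∑ j ∈ U, (if e ^ 2 / 2 ≤ cov E (A i) (A j) then (1 : ℝ) else 0) ≤
              ∑ i ∈ S, ∑ j ∈ S, if e ^ 2 / 4 + t * δ ≤ cov E (A i) (A j) then w i j else 0 := by
            have z : ∀ i j, 0 ≤ if e ^ 2 / 4 + t * δ ≤ cov E (A i) (A j) then w i j else 0 :=
              fun i j => by split_ifs; exacts [w0 i j, le_rfl]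
            rw [mul_sum]
            refine le_trans (sum_le_sum fun i hi => ?_)
              (sum_le_sum_of_subset_of_nonneg sU fun i _ _ => sum_nonneg fun j _ => z i j)
            rw [mul_sum]
            refine le_trans (sum_le_sum fun j hj => ?_)
              (sum_le_sum_of_subset_of_nonneg sU fun j _ _ => z i j)
            by_cases u : e ^ 2 / 2 ≤ cov E (A i) (A j)
            · rw [if_pos u, if_pos (by nlinarith), mul_one]
              exact ω1 i hi j hj
            · rw [if_neg u, mul_zero]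
              exact z i j
          have d := mul_le_mul_of_nonneg_left cS (show 0 ≤ e ^ 2 / 2 * Θ * #S by positivity)
          nlinarith [mul_le_mul_of_nonneg_left ω2 (show 0 ≤ e ^ 2 / 2 by positivity)]
      have c2 : (#V1 : ℝ) - #V2 ≤ ζ * #V := by
        refine le_of_mul_le_mul_left (rm.trans (p1.trans ?_)) (by positivity)
        have : s0 * wm + t * B ≤ ζ * e ^ 2 * Θ * s / 4 := by nlinarith
        nlinarith [mul_le_mul_of_nonneg_right this (sq_nonneg (#V : ℝ))]
      have c3 : (#V : ℝ) / 2 ≤ #V2 := by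
        have : (2 * t + 1) * ζ ≤ 1 / 2 := by nlinarith
        nlinarith
      have n2' : V2.Nonempty := card_pos.1 (by exact_mod_cast (by linarith : (0 : ℝ) < #V2))
      have bs := fun {t' : ℝ} (h : 0 < t') => besselC q hE nE A V2 hA c0
        (fun i hi => (bd i (s2 hi)).1) e0.le e1 (S := s * #V) (by positivity) (fun k _ => by
          have a := not_and.1 (nc {i ∈ V2 | e < cov E (A k) (A i)} (filter_subset _ _))
          have b := not_and.1 (nc {i ∈ V2 | e < -cov E (A k) (A i)} (filter_subset _ _))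
          have a' := lt_of_not_ge fun u => a u ⟨bal E (A k), ip_le_one (abs_bal _ _), ex_bal nE _,
            fun i hi => by rw [ip_one_bal, cov_comm]; exact (mem_filter.1 hi).2.le⟩
          have b' := lt_of_not_ge fun u => b u ⟨fun x => -1 * bal E (A k) x,
            ip_le_one fun x => by simpa using abs_bal _ _ x,
            by rw [← mul_expect, ex_bal nE, mul_zero], fun i hi => by
              rw [ip_smul, ip_one_bal, cov_comm]; linarith [(mem_filter.1 hi).2]⟩
          refine le_trans ?_ ((add_le_add a'.le b'.le).trans_eq (add_halves _))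
          rw [← Nat.cast_add, ← filter_congr fun i _ => lt_abs.symm, filter_or]
          exact Nat.cast_le.2 (card_union_le _ _)) h
      obtain ⟨k, hk, km⟩ : ∃ k ∈ V2, ∑ i ∈ V, ∑ j ∈ V,
          (if c * (δ / 2) < |cov E (A i ∩ A j) (A k)| then w i j else 0) ≤ B * #V ^ 2 := by
        refine exists_le_of_sum_le n2' ?_
        rw [sum_comm, sum_const, nsmul_eq_mul]
        have a : ∀ i ∈ V, ∑ k ∈ V2, ∑ j ∈ V,
            (if c * (δ / 2) < |cov E (A i ∩ A j) (A k)| then w i j else 0) ≤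
            2 * (s * #V) / (c ^ 4 * (c * (δ / 2)) ^ 2) * ∑ j ∈ V, w i j := fun i _ => by
          rw [sum_comm, mul_sum]
          refine sum_le_sum fun j _ => ?_
          rw [← sum_filter, sum_const, nsmul_eq_mul]
          exact mul_le_mul_of_nonneg_right (bs (by positivity) _) (w0 i j)
        refine (sum_le_sum a).trans ?_
        rw [← mul_sum]
        refine (mul_le_mul_of_nonneg_left wΩ (by positivity)).trans
          (le_trans (le_of_eq ?_) (mul_le_mul_of_nonneg_right c3 (by positivity)))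
        rw [hB]
        field_simp
        ring
      have k1 := bd k (s2 hk)
      have c4 : (#{i ∈ V2 | c * η < |cov E (A k) (A i)|} : ℝ) ≤ ζ * #V :=
        (bs (by positivity) _).trans (by
          rw [div_le_iff₀ (by positivity)]
          nlinarith [mul_le_mul_of_nonneg_right n3 N0.le])
      have dr : ∀ i ∈ {i ∈ V2 | ¬c * η < |cov E (A k) (A i)|},
          |dn (E ∩ A k) (A i) - dn E (A i)| ≤ η := fun i hi =>
        dn_step c0 k1.1 (by rw [cov_comm]; exact not_lt.1 (mem_filter.1 hi).2)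
      refine ⟨E ∩ A k, {i ∈ V2 | ¬c * η < |cov E (A k) (A i)|}, hE.inter (hA k),
        ne_of_dn (c0.trans_le k1.1), ?_, (filter_subset _ _).trans (s2.trans s1'), ?_,
        fun i hi => ?_, ?_⟩
      · have := half q (hE.inter (hA k)) hE inter_subset_left fun u => k1.2.2.ne (by
          rw [dn, u]
          exact div_self (by exact_mod_cast nE.card_pos.ne'))
        rw [pow_succ, mul_assoc]
        exact (Nat.mul_le_mul_left _ this).trans cE
      · have a := card_filter_add_card_filter_not (s := V2) fun i => c * η < |cov E (A k) (A i)|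
        have b : (#{i ∈ V2 | c * η < |cov E (A k) (A i)|} : ℝ) +
          #{i ∈ V2 | ¬c * η < |cov E (A k) (A i)|} = #V2 := by exact_mod_cast a
        push_cast
        nlinarith
      · have := abs_sub_le (dn (E ∩ A k) (A i)) (dn E (A i)) (dn D (A i))
        push_cast
        linarith [dr i hi, d1 i (s2 (mem_filter.1 hi).1)]
      · have sub : {i ∈ V2 | ¬c * η < |cov E (A k) (A i)|} ⊆ V1 := (filter_subset _ _).trans s2
        have mono : ∀ (F : ι → ι → ℝ) {S T : Finset ι}, S ⊆ T → (∀ i j, 0 ≤ F i j) →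
            ∑ i ∈ S, ∑ j ∈ S, F i j ≤ ∑ i ∈ T, ∑ j ∈ T, F i j := fun F S T h z =>
          (sum_le_sum fun i _ => sum_le_sum_of_subset_of_nonneg h fun j _ _ => z i j).trans
            (sum_le_sum_of_subset_of_nonneg h fun i _ _ => sum_nonneg fun j _ => z i j)
        have a := mono (fun i j => if e ^ 2 / 4 + t * δ ≤ cov E (A i) (A j) then w i j else 0) sub
          fun i j => by split_ifs; exacts [w0 i j, le_rfl]
        have b := mono (fun i j => if c * (δ / 2) < |cov E (A i ∩ A j) (A k)| then w i j else 0)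
          (sub.trans s1') fun i j => by split_ifs; exacts [w0 i j, le_rfl]
        refine le_trans ?_ ((add_le_add (a.trans p1) (b.trans km)).trans_eq (by push_cast; ring))
        rw [wt, ← sum_add_distrib]
        refine sum_le_sum fun i hi => ?_
        rw [← sum_add_distrib]
        refine sum_le_sum fun j hj => ?_
        have := w0 i j
        split_ifs with u1 u2 u3 u3 <;> try linarith
        exfalso
        obtain ⟨-, a1⟩ := abs_le.1 (dn_step c0 k1.1 (not_lt.1 u3))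
        obtain ⟨a2, -⟩ := abs_le.1 (dr i hi)
        obtain ⟨a3, -⟩ := abs_le.1 (dr j hj)
        rw [cov] at u1 u2
        push_cast at u1
        nlinarith [mul_nonneg (dn_nonneg (E ∩ A k) (A j)) (sub_nonneg.2 a2),
          mul_nonneg (dn_nonneg E (A i)) (sub_nonneg.2 a3),
          mul_le_mul_of_nonneg_left (dn_le_one (E ∩ A k) (A j)) η0.le,
          mul_le_mul_of_nonneg_left (dn_le_one E (A i)) η0.le]
  obtain ⟨E, -, -, nE, cE, -⟩ := key m le_rfl
  have := Nat.mul_le_mul_left (2 ^ m) nE.card_pos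
  omega

end Pool.Agent.MP_3df3be_co.So
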