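import Pool.Agent.MP_3df3be_co.So3

/-! The induction on the potential. -/

set_option linter.unusedSectionVars false

namespace Pool.Agent.MP_3df3be_co.So

open Finset
open scoped BigOperators

variable {X ι : Type} [DecidableEq X] [DecidableEq ι]

/-- A share `δ` of the family has logarithmic densities within `η`. -/
def Win (A : ι → Finset X) (D : Finset X) (V : Finset ι) (δ η : ℝ) : Prop :=
  ∃ U ⊆ V, δ * #V ≤ #U ∧
    ∀ i ∈ U, ∀ j ∈ U, |Real.log (dn D (A i)) - Real.log (dn D (A j))| ≤ η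

variable {op : X → X → X} {A : ι → Finset X} {D : Finset X} {V : Finset ι}

theorem core (q : Qg op) (hA : ∀ i, Cl op (A i)) (hD : Cl op D) {m M a C : ℕ} (hm : #D < 2 ^ m)
    (ne : V.Nonempty) {γ τ e x : ℝ} (γ0 : 0 < γ) (γ1 : γ ≤ 1 / 2) (τ0 : 0 < τ)
    (τ1 : 5 * τ / γ ^ 2 < γ ^ 16 / 16) (τ2 : τ / γ + τ ^ 2 / 6 ≤ γ ^ 16 / 24) (τ3 : τ ≤ γ ^ 2)
    (hc : ∀ i ∈ V, γ ^ 2 ≤ dn D (A i)) (he : 2 * γ ≤ e) (st : St A D V e) (aC : a + 1 ≤ C)
    (x0 : 0 < x) (xm : m * x ≤ 1) (x1 : 4 * x ≤ τ * γ ^ 2) (x2 : x * (2 + 8 / γ ^ 12) ≤ 1 / 4)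
    (x3 : 64 * x ≤ γ ^ 16) (x4 : x * ((C + 1) * (16 + 4096 / γ ^ 44)) ≤ γ ^ 16 / 64)
    (inner : ∀ (D' : Finset X) (S : Finset ι), Cl op D' → #D' < 2 ^ m →
      (∀ i ∈ S, γ ^ 2 ≤ dn D' (A i)) → St A D' S (e + τ ^ 2 / 6) →
      ∃ b, a + 1 ≤ b ∧ b ≤ C ∧ Win A D' S (x ^ b) (x ^ ((8 * M + 1) * b)))
    (no : ∀ S ⊆ V, St A D S (e + τ ^ 2 / 6) →
      (#S : ℝ) < x ^ (2 * ((8 * M + 1) * C + 2) + 2 * C + 8) * #V) :
    ∃ b, a ≤ b ∧ b ≤ 2 * C + 6 ∧ Win A D V (x ^ b) (x ^ (M * b)) := by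
  by_contra hw
  have g1 : γ ≤ 1 := by linarith
  have gp : ∀ {k l : ℕ}, k ≤ l → γ ^ l ≤ γ ^ k := fun h => pow_le_pow_of_le_one γ0.le g1 h
  have g2 : γ ^ 2 ≤ 1 / 4 := by nlinarith
  have g16 := gp (show 2 ≤ 16 by norm_num)
  have x8 : 8 * x ≤ 1 := by linarith
  have xp : ∀ {k l : ℕ}, k ≤ l → x ^ l ≤ x ^ k := fun h =>
    pow_le_pow_of_le_one x0.le (by linarith) h
  have xq : ∀ {k l : ℕ}, k + 1 ≤ l → x ^ l ≤ x * x ^ k := fun h => (xp h).trans_eq (pow_succ' _ _)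
  have xr : ∀ {l : ℕ}, 1 ≤ l → x ^ l ≤ x := fun h => (xp h).trans_eq (pow_one x)
  have N0 : (0 : ℝ) < #V := by exact_mod_cast ne.card_pos
  obtain ⟨P, hP⟩ : ∃ P, P = (8 * M + 1) * C := ⟨_, rfl⟩
  rw [← hP] at no
  have P0 : 0 < x ^ P := by positivity
  have e1 : e ≤ 1 := let ⟨i, hi⟩ := ne; st.le_one hi (lt_of_lt_of_le (by positivity) (hc i hi))
  obtain ⟨k, hk, V', s1, c1, l1, dg, dr⟩ := contract (t := x ^ (P + 2)) q hD hA γ0 γ1 hc ne he st τ0
    (by linarith [gp (show 12 ≤ 16 by norm_num), pow_pos γ0 12]) τ3 (by positivity) (by positivity)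
    (by linarith [xr (show 1 ≤ 2 * (P + 2) + 2 * C + 8 by omega)]) (by
      refine le_trans ?_ x2
      have a1 := xr (show 1 ≤ 2 * (P + 2) + 2 * C + 8 by omega)
      have a2 := xr (show 1 ≤ 2 * C + 8 by omega)
      have a3 : x ^ (2 * (P + 2) + 2 * C + 8) * (8 / (γ ^ 12 * (x ^ (P + 2)) ^ 2)) =
        x ^ (2 * C + 8) * (8 / γ ^ 12) := by field_simp; ring
      have a4 := mul_le_mul_of_nonneg_right a2 (show 0 ≤ 8 / γ ^ 12 by positivity)
      rw [mul_add (x ^ _), a3]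
      linarith) no
  have d0 : 4 * x ^ (P + 2) / γ ^ 6 ≤ x ^ P := by
    rw [div_le_iff₀ (by positivity)]
    have a1 := xq (show P + 1 ≤ P + 2 by omega)
    have a2 := mul_le_mul_of_nonneg_right (x3.trans (gp (show 6 ≤ 16 by norm_num))) P0.le
    have a3 := mul_pos x0 P0
    linarith
  have hE := hD.inter (hA k)
  have mE : #(D ∩ A k) < 2 ^ m := (card_le_card inter_subset_left).trans_lt hm
  generalize D ∩ A k = E at l1 dg dr hE mE
  have hw' : ∀ b, a ≤ b → b ≤ 2 * C + 6 → ∀ U ⊆ V', ∀ z, z + x ^ P ≤ x ^ (M * b) →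
      (∀ i ∈ U, ∀ j ∈ U, |Real.log (dn E (A i)) - Real.log (dn E (A j))| ≤ z) →
      (#U : ℝ) < x ^ b * #V := fun b b1 b2 U sU z hz h => by
    by_contra u
    refine hw ⟨b, b1, b2, U, sU.trans s1, not_lt.1 u, fun i hi j hj => ?_⟩
    obtain ⟨a1, a2⟩ := abs_le.1 (h i hi j hj)
    obtain ⟨a3, a4⟩ := abs_le.1 (dr i (sU hi) j (sU hj))
    exact abs_le.2 ⟨by linarith, by linarith⟩
  obtain ⟨V2, hV⟩ : ∃ V2, V2 = {i ∈ V' | dn E (A i) ≤ 1 / 2} := ⟨_, rfl⟩
  have s2 : V2 ⊆ V' := hV ▸ filter_subset _ _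
  have c2 : (#V : ℝ) ≤ 8 * #V2 := by
    have o : ∀ i ∈ {i ∈ V' | ¬dn E (A i) ≤ 1 / 2}, dn E (A i) = 1 := fun i hi => by
      have u := not_le.1 (mem_filter.1 hi).2
      have v : (0 : ℝ) < #E := by
        exact_mod_cast ((ne_of_dn (one_half_pos.trans u)).mono inter_subset_left).card_pos
      have w : E ∩ A i = E := by
        by_contra y
        have : (2 : ℝ) * #(E ∩ A i) ≤ #E := by
          exact_mod_cast half q (hE.inter (hA i)) hE inter_subset_left y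
        rw [dn, lt_div_iff₀ v] at u
        linarith
      rw [dn, w, div_self v.ne']
    have a1 := hw' (a + 1) (by omega) (by omega) _ (filter_subset _ _) 0
      (by rw [zero_add, hP]; exact xp (Nat.mul_le_mul (by omega) aC))
      fun i hi j hj => by rw [o i hi, o j hj]; simp
    have a2 := card_filter_add_card_filter_not (s := V') fun i => dn E (A i) ≤ 1 / 2
    rw [← hV] at a2
    have a3 : (#V2 : ℝ) + #{i ∈ V' | ¬dn E (A i) ≤ 1 / 2} = #V' := by exact_mod_cast a2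
    have a4 := mul_le_mul_of_nonneg_right ((xr (show 1 ≤ a + 1 by omega)).trans
      (show x ≤ 1 / 8 by linarith)) N0.le
    linarith
  have N2 : (0 : ℝ) < #V2 := by linarith
  have mη : m * x ^ (P + 2) ≤ x * x ^ P := by
    have := mul_le_mul_of_nonneg_right xm (mul_pos x0 P0).le
    calc _ = m * x * (x * x ^ P) := by ring
      _ ≤ _ := by linarith
  have xτ : x * x ^ P ≤ τ := by
    have a1 := mul_le_mul_of_nonneg_left (xp (Nat.zero_le P)) x0.le
    have a2 := mul_le_mul_of_nonneg_left g2 τ0.le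
    rw [pow_zero] at a1
    linarith
  have tγ : τ / γ ≤ γ := by rw [div_le_iff₀ γ0]; linarith
  have tγ0 : 0 < τ / γ := by positivity
  have e2 : 4 * γ ^ 2 ≤ e ^ 2 := by nlinarith
  have e3 : (e - τ / γ) ^ 2 ≤ e ^ 2 - 2 * τ := by
    have a1 : τ / γ * γ = τ := by field_simp
    nlinarith [mul_le_mul_of_nonneg_left he tγ0.le, mul_le_mul_of_nonneg_left tγ tγ0.le]
  refine run (V := V2) (c := γ ^ 2) (e := γ ^ 8 / 2) (e' := e - τ / γ) (η := x ^ (P + 2))
    (δ := γ ^ 16 / 16 * x) (ζ := x / 4) (s := x ^ (2 * (P + 2) + 2))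
    (s0 := 16 * x ^ (2 * (P + 2) + 2 * C + 8)) (Ω := C + 1) (wm := (C + 1) * (x ^ (2 * C + 5))⁻¹)
    (Θ := (x ^ 5)⁻¹) q hA hE mE (card_pos.1 (by exact_mod_cast N2))
    (fun i j => ∑ b ∈ range (C + 1), if a + 1 ≤ b ∧ |Real.log (dn E (A i)) -
      Real.log (dn E (A j))| ≤ 2 * x ^ ((8 * M + 1) * b) then (x ^ (2 * b + 5))⁻¹ else 0)
    (fun i j => sum_nonneg fun b _ => by positivity) (fun i j => ?_) ?_ (by positivity)
    (by positivity) (le_of_eq (by ring)) (by linarith [gp (Nat.zero_le 8), pow_zero γ])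
    (by linarith) (by linarith) (by positivity) (by positivity) (by positivity) (by positivity)
    (by positivity) (by positivity) (fun i hi => ?_) (fun l _ => ?_)
    (fun D' hD' mD' S sS dS sT => ?_) ?_ ?_ (by linarith) ?_ ?_
  · refine (sum_le_card_nsmul _ _ (x ^ (2 * C + 5))⁻¹ fun b hb => ?_).trans_eq (by simp)
    split_ifs
    · exact inv_anti₀ (by positivity) (xp (by linarith [mem_range.1 hb]))
    · positivity
  · refine (sum_le_card_nsmul _ _ ((C + 1) * #V2 : ℝ) fun i hi => ?_).trans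
      (le_of_eq (by rw [nsmul_eq_mul]; ring))
    rw [sum_comm]
    refine (sum_le_card_nsmul _ _ (#V2 : ℝ) fun b hb => ?_).trans_eq (by simp)
    by_cases u : a + 1 ≤ b
    · simp only [u, true_and]
      rw [← sum_filter, sum_const, nsmul_eq_mul, mul_inv_le_iff₀ (by positivity)]
      have b1 := mem_range.1 hb
      have a0 : 0 < x ^ (M * (2 * b + 6)) := by positivity
      have a1 := hw' (2 * b + 6) (by omega) (by omega) {j ∈ V2 | |Real.log (dn E (A i)) -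
        Real.log (dn E (A j))| ≤ 2 * x ^ ((8 * M + 1) * b)} ((filter_subset _ _).trans s2)
        (4 * x ^ ((8 * M + 1) * b)) (by
          have a2 : x ^ P ≤ x ^ ((8 * M + 1) * b) := xp (hP ▸ Nat.mul_le_mul_left _ (by omega))
          have a3 := xq (show M * (2 * b + 6) + 1 ≤ (8 * M + 1) * b by
            nlinarith [Nat.mul_le_mul_left M (show 1 ≤ b by omega)])
          have a4 := mul_le_mul_of_nonneg_right x8 a0.le
          have a5 := mul_pos x0 a0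
          linarith) fun j hj l hl => by
          obtain ⟨a2, a3⟩ := abs_le.1 (mem_filter.1 hj).2
          obtain ⟨a4, a5⟩ := abs_le.1 (mem_filter.1 hl).2
          exact abs_le.2 ⟨by linarith, by linarith⟩
      have a6 : 0 < x ^ (2 * b + 5) := by positivity
      have a7 := mul_le_mul_of_nonneg_left c2 (pow_pos x0 (2 * b + 6)).le
      have a8 := mul_le_mul_of_nonneg_right x8 (mul_pos N2 a6).le
      rw [pow_succ x (2 * b + 5)] at a1 a7
      linarith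
    · simp [u]
  · have a1 := l1 i (s2 hi)
    have a2 : dn E (A i) ≤ 1 / 2 := by rw [hV] at hi; exact (mem_filter.1 hi).2
    exact ⟨by linarith, by linarith, by linarith⟩
  · refine le_trans (Nat.cast_le.2 (card_le_card fun i hi => ?_)) ((dg (A l)).trans ?_)
    · obtain ⟨a1, a2⟩ := mem_filter.1 hi
      refine mem_filter.2 ⟨s1 (s2 a1), τ1.trans_le (le_trans ?_ (le_abs_self _))⟩
      exact le_trans (le_of_eq (by ring)) a2
    · have := mul_le_mul_of_nonneg_left c2 (pow_pos x0 (2 * (P + 2) + 2 * C + 8)).le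
      linarith
  · have lb : ∀ i ∈ S, γ ^ 2 ≤ dn D' (A i) ∧ γ ^ 2 ≤ dn E (A i) := fun i hi => by
      have a1 := l1 i (s2 (sS hi))
      have a2 := (abs_le.1 (dS i hi)).1
      exact ⟨by linarith, by linarith⟩
    obtain ⟨b, b1, b2, U, sU, cU, wU⟩ := inner D' S hD' mD' (fun i hi => (lb i hi).1)
      (sT.mono Subset.rfl (by linarith [show (γ ^ 8 / 2) ^ 2 / 6 = γ ^ 16 / 24 by ring]))
    have ld : ∀ i ∈ U, |Real.log (dn D' (A i)) - Real.log (dn E (A i))| ≤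
        x ^ ((8 * M + 1) * b) / 2 := fun i hi => by
      refine (abs_log_sub (by positivity) (lb i (sU hi)).1 (lb i (sU hi)).2).trans ?_
      have a2 : x ^ P ≤ x ^ ((8 * M + 1) * b) := xp (hP ▸ Nat.mul_le_mul_left _ b2)
      rw [div_le_iff₀ (by positivity)]
      have a3 := mul_le_mul_of_nonneg_left a2 x0.le
      have a4 := mul_le_mul_of_nonneg_right (show x ≤ γ ^ 2 / 2 by linarith)
        (pow_pos x0 ((8 * M + 1) * b)).le
      linarith [dS i (sU hi)]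
    refine ⟨U, sU, (x ^ (2 * b + 5))⁻¹, by positivity, fun i hi j hj => ?_, ?_⟩
    · refine le_trans (le_of_eq (if_pos ⟨b1, ?_⟩).symm) (single_le_sum (f := fun b =>
        if a + 1 ≤ b ∧ |Real.log (dn E (A i)) - Real.log (dn E (A j))| ≤ 2 * x ^ ((8 * M + 1) * b)
        then (x ^ (2 * b + 5))⁻¹ else 0) (fun b _ => by positivity) (mem_range.2 (by omega)))
      obtain ⟨a1, a2⟩ := abs_le.1 (ld i hi)
      obtain ⟨a3, a4⟩ := abs_le.1 (ld j hj)
      obtain ⟨a5, a6⟩ := abs_le.1 (wU i hi j hj)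
      exact abs_le.2 ⟨by linarith, by linarith⟩
    · refine le_trans (le_of_eq ?_) (mul_le_mul_of_nonneg_left
        (pow_le_pow_left₀ (by positivity) cU 2) (by positivity))
      field_simp
      ring
  · have := mul_le_mul_of_nonneg_left xm (show 0 ≤ γ ^ 16 / 16 by positivity)
    linarith [show (γ ^ 8 / 2) ^ 2 / 4 = γ ^ 16 / 16 by ring]
  · have a1 := xq (show 1 + 1 ≤ P + 2 by omega)
    have a2 := mul_le_mul_of_nonneg_right x3 x0.le
    rw [pow_one] at a1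
    linarith
  · have a1 : 0 < x * (x ^ (P + 2)) ^ 2 := by positivity
    have a2 := mul_le_mul_of_nonneg_right (x3.trans (gp (show 12 ≤ 16 by norm_num))) a1.le
    have a3 := mul_pos x0 a1
    calc _ = 2 * (x * (x * (x ^ (P + 2)) ^ 2)) := by ring
      _ ≤ γ ^ 12 * (x * (x ^ (P + 2)) ^ 2) / 4 := by linarith
      _ = _ := by ring
  · have s0 : 0 < x ^ (2 * (P + 2) + 2) / x ^ 4 := by positivity
    have a1 := mul_le_mul_of_nonneg_right x4 s0.le
    have a2 := mul_le_mul_of_nonneg_right xm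
      (show 0 ≤ x * ((C + 1) * (4096 / γ ^ 44)) * (x ^ (2 * (P + 2) + 2) / x ^ 4) by positivity)
    have a3 := mul_le_mul_of_nonneg_right (xr (show 1 ≤ 5 by norm_num))
      (show 0 ≤ (C + 1) * 16 * (x ^ (2 * (P + 2) + 2) / x ^ 4) by positivity)
    calc _ = x ^ 5 * ((C + 1) * 16 * (x ^ (2 * (P + 2) + 2) / x ^ 4)) + m * x *
          (x * ((C + 1) * (4096 / γ ^ 44)) * (x ^ (2 * (P + 2) + 2) / x ^ 4)) := by
          field_simp
          ring
      _ ≤ γ ^ 16 / 64 * (x ^ (2 * (P + 2) + 2) / x ^ 4) := by linarith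
      _ = _ := by
          field_simp
          ring

/-- The statement of the induction. -/
def Tm (γ ε : ℝ) (j M a C : ℕ) (x0 : ℝ) : Prop :=
  a ≤ C ∧ 0 < x0 ∧ ∀ (X : Type) [DecidableEq X] (op : X → X → X) (A : ℕ → Finset X), Qg op →
    (∀ i, Cl op (A i)) → ∀ (x : ℝ) (m : ℕ), 0 < x → x ≤ x0 → m * x ≤ 1 →
    ∀ (e : ℝ) (D : Finset X) (V : Finset ℕ), 2 * γ ≤ e → 1 < e + j * ε → Cl op D → #D < 2 ^ m →
    (∀ i ∈ V, γ ^ 2 ≤ dn D (A i)) → St A D V e →
    ∃ b, a ≤ b ∧ b ≤ C ∧ Win A D V (x ^ b) (x ^ (M * b))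

theorem tm {γ τ : ℝ} (γ0 : 0 < γ) (γ1 : γ ≤ 1 / 2) (τ0 : 0 < τ)
    (τ1 : 5 * τ / γ ^ 2 < γ ^ 16 / 16) (τ2 : τ / γ + τ ^ 2 / 6 ≤ γ ^ 16 / 24) (τ3 : τ ≤ γ ^ 2)
    (j : ℕ) : ∀ M a, ∃ C x0, Tm γ (τ ^ 2 / 6) j M a C x0 := by
  induction j with
  | zero =>
    refine fun M a => ⟨a, 1, le_rfl, one_pos, fun X _ op A _ _ x m _ _ _ e D V _ h _ _ hc st =>
      ⟨a, le_rfl, le_rfl, ∅, empty_subset _, ?_, by simp⟩⟩
    rcases V.eq_empty_or_nonempty with rfl | ⟨i, hi⟩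
    · simp
    · have := st.le_one hi (lt_of_lt_of_le (by positivity) (hc i hi))
      simp only [Nat.cast_zero, zero_mul, add_zero] at h
      linarith
  | succ j ih =>
    intro M a
    obtain ⟨C, y, aC, y0, h1⟩ := ih (8 * M + 1) (a + 1)
    obtain ⟨F, hF⟩ : ∃ F, F = 2 * ((8 * M + 1) * C + 2) + 2 * C + 8 := ⟨_, rfl⟩
    obtain ⟨C', y', aC', y0', h2⟩ := ih (2 * M) (a + F)
    refine ⟨C' + F + (2 * C + 6), min (min (min y y') 1) (min (min (τ * γ ^ 2 / 4)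
      (1 / 4 / (2 + 8 / γ ^ 12))) (min (γ ^ 16 / 64)
      (γ ^ 16 / 64 / ((C + 1) * (16 + 4096 / γ ^ 44))))), by omega, by positivity,
      fun X _ op A q hA x m x0 hx xm e D V he hj hD hm hc st => ?_⟩
    simp only [le_min_iff] at hx
    obtain ⟨⟨⟨x1, x2⟩, x3⟩, ⟨x4, x5⟩, x6, x7⟩ := hx
    have he' : 2 * γ ≤ e + τ ^ 2 / 6 := by linarith [sq_nonneg τ]
    have hj' : 1 < e + τ ^ 2 / 6 + j * (τ ^ 2 / 6) := by push_cast at hj; linarith
    rcases V.eq_empty_or_nonempty with rfl | ne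
    · exact ⟨a, le_rfl, by omega, ∅, Subset.rfl, by simp, by simp⟩
    by_cases no : ∀ S ⊆ V, St A D S (e + τ ^ 2 / 6) → (#S : ℝ) < x ^ F * #V
    · obtain ⟨b, b1, b2, w⟩ := core q hA hD hm ne γ0 γ1 τ0 τ1 τ2 τ3 hc he st aC x0 xm (by linarith)
        ((le_div_iff₀ (by positivity)).1 x5) (by linarith) ((le_div_iff₀ (by positivity)).1 x7)
        (fun D' S => h1 X op A q hA x m x0 x1 xm _ D' S he' hj') (hF ▸ no)
      exact ⟨b, b1, by omega, w⟩
    · push Not at no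
      obtain ⟨S, s, sT, cS⟩ := no
      obtain ⟨b, b1, b2, U, sU, cU, w⟩ := h2 X op A q hA x m x0 x2 xm _ D S he' hj' hD hm
        (fun i hi => hc i (s hi)) sT
      refine ⟨b + F, by omega, by omega, U, sU.trans s, le_trans ?_ cU, fun i hi l hl =>
        (w i hi l hl).trans (pow_le_pow_of_le_one x0.le x3 ?_)⟩
      · rw [pow_add, mul_assoc]
        exact mul_le_mul_of_nonneg_left cS (by positivity)
      · nlinarith [Nat.mul_le_mul_left M (show F ≤ b by omega)]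

end Pool.Agent.MP_3df3be_co.So
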