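import Pool.Agent.MP_3df3be_co.So4
import Pool.Agent.MP_3df3be_co.Top3

/-! Few orders at every scale are orders of subsquares. -/

namespace Pool.Agent.MP_3df3be_co.So

open Finset

/-- Subsquares through one cell. -/
theorem cell {γ ε y0 : ℝ} {j C n m : ℕ} (t : Tm γ ε j 2 1 C y0) (hj : 1 < 2 * γ + j * ε)
    (γ0 : 0 < γ) {L : Fin n → Fin n → Fin n} (h1 : ∀ i, Function.Bijective (L i))
    (h2 : ∀ j, Function.Bijective fun i => L i j) (R C' S : ℕ → Finset (Fin n)) (V : Finset ℕ)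
    (r c : Fin n) {x : ℝ} (x0 : 0 < x) (x1 : x ≤ 1) (x2 : x ≤ y0) (xm : m * x ≤ 1) (hm : n < 2 ^ m)
    (h : ∀ k ∈ V, (#(R k) = k ∧ #(C' k) = k ∧ #(S k) = k ∧ ∀ r ∈ R k, ∀ c ∈ C' k, L r c ∈ S k) ∧
      4 * γ ^ 2 * n ≤ k ∧ r ∈ R k ∧ c ∈ C' k) : (#V : ℝ) ≤ 2 * n * x + (x ^ C)⁻¹ := by
  have n0 : (0 : ℝ) < n := by exact_mod_cast r.pos
  let ρ := (Equiv.ofBijective _ (h2 c)).symm
  let κ := (Equiv.ofBijective _ (h1 r)).symm
  have q : Qg fun x y => L (ρ x) (κ y) :=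
    ⟨fun x => (h1 _).1.comp κ.injective, fun y => (h2 (κ y)).1.comp ρ.injective⟩
  have d : ∀ k ∈ V, dn univ (if k ∈ V then S k else ∅) = k / n := fun k hk => by
    rw [if_pos hk, dn, univ_inter, (h k hk).1.2.2.1, card_univ, Fintype.card_fin]
  have d' : ∀ k ∈ V, (2 * γ) ^ 2 ≤ dn univ (if k ∈ V then S k else ∅) := fun k hk => by
    rw [d k hk, le_div_iff₀ n0]
    linarith [(h k hk).2.1]
  obtain ⟨b, b1, b2, U, sU, cU, w⟩ := t.2.2 _ _ (fun k => if k ∈ V then S k else ∅) q (fun k => by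
      split_ifs with hk
      · intro u hu v hv
        obtain ⟨⟨a1, a2, a3, a4⟩, -, a7, a8⟩ := h k hk
        obtain ⟨i, hi, rfl⟩ := surjOn_of_injOn_of_card_le (s := R k) (t := S k) (fun i => L i c)
          (fun i hi => a4 i hi c a8) (h2 c).1.injOn (by omega) hu
        obtain ⟨j, hj, rfl⟩ := surjOn_of_injOn_of_card_le (s := C' k) (t := S k) (L r)
          (fun j hj => a4 r a7 j hj) (h1 r).1.injOn (by omega) hv
        have e1 : ρ (L i c) = i := (Equiv.ofBijective _ (h2 c)).symm_apply_apply i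
        have e2 : κ (L r j) = j := (Equiv.ofBijective _ (h1 r)).symm_apply_apply j
        dsimp only
        rw [e1, e2]
        exact a4 i hi j hj
      · exact fun u hu => absurd hu (notMem_empty u)) x m x0 x2 xm (2 * γ) univ V le_rfl hj
    (fun _ _ _ _ => mem_univ _) (by rwa [card_univ, Fintype.card_fin])
    (fun k hk => by nlinarith [d' k hk, sq_nonneg γ]) ⟨fun _ => 1, ip_le_one fun _ => by simp,
      fun k hk => by
        rw [ip_one_c]
        nlinarith [Real.mul_self_sqrt (dn_nonneg univ (if k ∈ V then S k else ∅)),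
          mul_le_mul_of_nonneg_right (Real.le_sqrt_of_sq_le (d' k hk))
            (Real.sqrt_nonneg (dn univ (if k ∈ V then S k else ∅)))]⟩
  have p : 0 < x ^ b := by positivity
  have cl : ∀ k ∈ U, ∀ l ∈ U, (l : ℝ) - k ≤ n * x ^ (2 * b) := fun k hk l hl => by
    have k0 : (0 : ℝ) < k := lt_of_lt_of_le (by positivity) (h k (sU hk)).2.1
    have l0 : (0 : ℝ) < l := lt_of_lt_of_le (by positivity) (h l (sU hl)).2.1
    have l1 : (l : ℝ) ≤ n := by
      exact_mod_cast (h l (sU hl)).1.1 ▸ (card_le_univ (R l)).trans_eq (Fintype.card_fin n)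
    have a := (abs_le.1 (w k hk l hl)).1
    dsimp only at a
    rw [d k (sU hk), d l (sU hl), ← Real.log_div (by positivity) (by positivity),
      div_div_div_cancel_right₀ n0.ne'] at a
    have e := Real.log_le_sub_one_of_pos (div_pos k0 l0)
    have f : 1 - x ^ (2 * b) ≤ k / l := by linarith
    rw [le_div_iff₀ l0] at f
    nlinarith [mul_le_mul_of_nonneg_right l1 (pow_pos x0 (2 * b)).le]
  have cw : (#U : ℝ) ≤ 2 * (n * x ^ (2 * b)) + 1 := by
    rcases U.eq_empty_or_nonempty with rfl | ⟨k, hk⟩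
    · simp; positivity
    · exact window U (u := k - n * x ^ (2 * b)) (by positivity) fun l hl =>
        ⟨by linarith [cl l hl k hk], by linarith [cl k hk l hl]⟩
  have a1 : x ^ b ≤ x := (pow_le_pow_of_le_one x0.le x1 b1).trans_eq (pow_one x)
  have a2 : (x ^ b)⁻¹ ≤ (x ^ C)⁻¹ := inv_anti₀ (by positivity) (pow_le_pow_of_le_one x0.le x1 b2)
  refine le_of_mul_le_mul_left (cU.trans (cw.trans ?_)) p
  have a3 := mul_le_mul_of_nonneg_left a2 p.le
  have a4 := mul_le_mul_of_nonneg_left a1 (mul_pos n0 p).le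
  rw [mul_inv_cancel₀ p.ne'] at a3
  rw [two_mul b, pow_add]
  linarith

theorem few {c : ℝ} (c0 : 0 < c) : ∃ δ K : ℝ, 0 < δ ∧ ∀ (n : ℕ) (L : Fin n → Fin n → Fin n),
    (∀ i, Function.Bijective (L i)) → (∀ j, Function.Bijective fun i => L i j) →
    ∀ M : Finset ℕ, (∀ m ∈ M, 1 ≤ m ∧ c * n ≤ m ∧ ∃ R C S : Finset (Fin n), #R = m ∧ #C = m ∧
      #S = m ∧ ∀ r ∈ R, ∀ c ∈ C, L r c ∈ S) → (#M : ℝ) ≤ K * (n : ℝ) ^ (1 - δ) := by
  obtain ⟨γ, γ0, γ1, γ2⟩ : ∃ γ : ℝ, 0 < γ ∧ γ ≤ 1 / 2 ∧ 4 * γ ^ 2 ≤ c :=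
    ⟨min (1 / 2) (c / 2), by positivity, min_le_left _ _, by
      nlinarith [min_le_left (1 / 2 : ℝ) (c / 2), min_le_right (1 / 2 : ℝ) (c / 2),
        lt_min one_half_pos (half_pos c0)]⟩
  have gp : ∀ {k l : ℕ}, k ≤ l → γ ^ l ≤ γ ^ k := fun h =>
    pow_le_pow_of_le_one γ0.le (by linarith) h
  have g16 := pow_pos γ0 16
  obtain ⟨j, hj⟩ := exists_nat_gt (1 / ((γ ^ 18 / 100) ^ 2 / 6))
  obtain ⟨C, y0, t⟩ := tm (τ := γ ^ 18 / 100) γ0 γ1 (by positivity)
    (by rw [show 5 * (γ ^ 18 / 100) / γ ^ 2 = γ ^ 16 / 20 by field_simp; ring]; linarith)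
    (by
      rw [show γ ^ 18 / 100 / γ = γ ^ 17 / 100 by field_simp,
        show (γ ^ 18 / 100) ^ 2 / 6 = γ ^ 36 / 60000 by ring]
      linarith [gp (show 16 ≤ 17 by norm_num), gp (show 16 ≤ 36 by norm_num)])
    (by linarith [gp (show 2 ≤ 18 by norm_num), sq_nonneg γ]) j 2 1
  rw [div_lt_iff₀ (by positivity)] at hj
  obtain ⟨k0, hk0⟩ := Filter.eventually_atTop.1 ((tendsto_pow_const_div_const_pow_of_one_lt
    (C + 1) (r := 2) one_lt_two).eventually (gt_mem_nhds one_half_pos))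
  refine ⟨1 / (C + 1), 3 / c ^ 2 + (k0 + y0⁻¹), by positivity, fun n L h1 h2 M h => ?_⟩
  have y1 := t.2.1
  rcases M.eq_empty_or_nonempty with rfl | ⟨m₀, hm₀⟩
  · simp; positivity
  have le : ∀ m ∈ M, m ≤ n := fun m hm =>
    let ⟨_, _, R, _, _, a, _⟩ := h m hm
    a ▸ (card_le_univ R).trans_eq (Fintype.card_fin n)
  have hn : 0 < n := (h m₀ hm₀).1.trans (le m₀ hm₀)
  have n0 : (0 : ℝ) < n := Nat.cast_pos.2 hn
  obtain ⟨y, y2, e1, e2⟩ : ∃ y : ℝ, 1 ≤ y ∧ (n : ℝ) = y ^ (C + 1) ∧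
      (n : ℝ) ^ (1 - 1 / (C + 1) : ℝ) = y ^ C :=
    ⟨(n : ℝ) ^ (1 / (C + 1) : ℝ), Real.one_le_rpow (mod_cast hn) (by positivity), by
      rw [← Real.rpow_natCast, ← Real.rpow_mul n0.le]
      push_cast
      rw [one_div_mul_cancel (by positivity), Real.rpow_one], by
      rw [← Real.rpow_natCast, ← Real.rpow_mul n0.le]
      congr 1
      field_simp
      ring⟩
  have y3 : 0 < y := by linarith
  have yC := pow_pos y3 C
  have c3 : 0 ≤ 3 / c ^ 2 * y ^ C := by positivity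
  have c4 : 0 ≤ (k0 + y0⁻¹) * y ^ C := by positivity
  rw [e2, add_mul]
  rcases lt_or_ge y (k0 + y0⁻¹) with u | u
  · have a : #M ≤ n := (card_le_card fun m hm => mem_Icc.2 ⟨(h m hm).1, le m hm⟩).trans_eq (by simp)
    have b : (#M : ℝ) ≤ y ^ C * y := by rw [← pow_succ, ← e1]; exact_mod_cast a
    nlinarith
  have i0 : 0 < y0⁻¹ := by positivity
  have hm : n < 2 ^ ⌊y⌋₊ := by
    have a := hk0 (⌊y⌋₊ + 1) ((Nat.le_floor (by linarith)).trans (Nat.le_succ _))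
    have b := pow_le_pow_left₀ y3.le (Nat.lt_floor_add_one y).le (C + 1)
    rw [div_lt_iff₀ (by positivity), pow_succ (2 : ℝ)] at a
    push_cast at a
    exact_mod_cast (by linarith : (n : ℝ) < 2 ^ ⌊y⌋₊)
  have ex : ∀ m, ∃ R C S : Finset (Fin n), m ∈ M → #R = m ∧ #C = m ∧ #S = m ∧
      ∀ r ∈ R, ∀ c ∈ C, L r c ∈ S := fun m => by
    by_cases k : m ∈ M
    · obtain ⟨R, C, S, p⟩ := (h m k).2.2
      exact ⟨R, C, S, fun _ => p⟩
    · exact ⟨∅, ∅, ∅, fun p => absurd p k⟩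
  choose R C' S hT using ex
  have d := sum_card_bipartiteAbove_eq_sum_card_bipartiteBelow (s := M)
    (t := (univ : Finset (Fin n × Fin n))) (r := fun m p => p.1 ∈ R m ∧ p.2 ∈ C' m)
  have d1 := card_nsmul_le_sum M (fun m => (#(bipartiteAbove
      (fun m (p : Fin n × Fin n) => p.1 ∈ R m ∧ p.2 ∈ C' m) univ m) : ℝ)) ((c * n) ^ 2)
    fun m hm => by
      have : bipartiteAbove (fun m (p : Fin n × Fin n) => p.1 ∈ R m ∧ p.2 ∈ C' m) univ m =
          R m ×ˢ C' m := by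
        ext p; simp [bipartiteAbove]
      rw [this, card_product, (hT m hm).1, (hT m hm).2.1, Nat.cast_mul, ← sq]
      exact pow_le_pow_left₀ (by positivity) (h m hm).2.1 2
  have d2 := sum_le_card_nsmul (univ : Finset (Fin n × Fin n)) (fun p => (#(bipartiteBelow
      (fun m (p : Fin n × Fin n) => p.1 ∈ R m ∧ p.2 ∈ C' m) M p) : ℝ)) (3 * y ^ C) fun p _ =>
    (cell t (by linarith) γ0 h1 h2 R C' S _ p.1 p.2 (inv_pos.2 y3) (inv_le_one_of_one_le₀ y2)
      (inv_le_of_inv_le₀ y1 (by linarith [(Nat.cast_nonneg k0 : (0 : ℝ) ≤ k0)]))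
      (mul_inv_le_one_of_le₀ (Nat.floor_le y3.le) y3.le) hm fun m hm =>
        have k := mem_filter.1 hm
        ⟨hT m k.1, (mul_le_mul_of_nonneg_right γ2 n0.le).trans (h m k.1).2.1, k.2⟩).trans_eq (by
      rw [e1, inv_pow, inv_inv]
      field_simp
      ring)
  rw [← Nat.cast_sum, ← d, Nat.cast_sum, card_univ, Fintype.card_prod, Fintype.card_fin,
    nsmul_eq_mul, Nat.cast_mul] at d2
  rw [nsmul_eq_mul] at d1
  have d3 : (#M : ℝ) ≤ 3 / c ^ 2 * y ^ C := by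
    rw [div_mul_eq_mul_div, le_div_iff₀ (by positivity)]
    refine le_of_mul_le_mul_left ?_ (mul_pos n0 n0)
    linarith
  linarith

end Pool.Agent.MP_3df3be_co.So
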