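import Mathlib

/-! Closed subsets of a finite quasigroup: halving, cell counts, sunflowers. -/

set_option linter.unusedSectionVars false

namespace Pool.Agent.MP_3df3be_co

open Finset

variable {X : Type} [DecidableEq X]

/-- Both cancellation laws. -/
structure Qg (op : X → X → X) : Prop where
  l : ∀ x, Function.Injective (op x)
  r : ∀ y, Function.Injective fun x => op x y

/-- Closed sets. -/
def Cl (op : X → X → X) (A : Finset X) : Prop := ∀ x ∈ A, ∀ y ∈ A, op x y ∈ A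

variable {op : X → X → X} {A A' B W D T : Finset X} {x y e : X}

theorem Cl.div (q : Qg op) (h : Cl op A) (hx : x ∈ A) {s : X} (hs : s ∈ A) :
    ∃ y ∈ A, op x y = s :=
  surjOn_of_injOn_of_card_le (op x) (fun a ha => h x hx a ha) (q.l x).injOn le_rfl hs

theorem Cl.right (q : Qg op) (h : Cl op A) (hx : x ∈ A) (hs : op x y ∈ A) : y ∈ A := by
  obtain ⟨z, hz, e⟩ := h.div q hx hs
  exact q.l x e ▸ hz

theorem Cl.left (q : Qg op) (h : Cl op A) (hy : y ∈ A) (hs : op x y ∈ A) : x ∈ A := by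
  obtain ⟨z, hz, e⟩ := surjOn_of_injOn_of_card_le (fun x => op x y) (fun a ha => h a ha y hy)
    (q.r y).injOn le_rfl hs
  exact q.r y e ▸ hz

theorem Cl.inter (h : Cl op A) (h' : Cl op B) : Cl op (A ∩ B) := fun x hx y hy =>
  mem_inter.2 ⟨h x (mem_inter.1 hx).1 y (mem_inter.1 hy).1,
    h' x (mem_inter.1 hx).2 y (mem_inter.1 hy).2⟩

/-- A proper nonempty closed subset has at most half of the elements. -/
theorem half (q : Qg op) (h : Cl op A) (h' : Cl op B) (s : A ⊆ B) (n : A ≠ B) :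
    2 * #A ≤ #B := by
  obtain ⟨z, hz, hz'⟩ := exists_of_ssubset (Finset.ssubset_iff_subset_ne.2 ⟨s, n⟩)
  have := card_le_card_of_injOn (s := A) (t := B \ A) (fun a => op a z)
    (fun a ha => mem_coe.2 (mem_sdiff.2 ⟨h' a (s ha) z hz, fun k => hz' (h.right q ha k)⟩))
    (q.r z).injOn
  have := card_sdiff_add_card_eq_card s
  omega

/-- The count of the cells in the rows outside two closed sets. -/
theorem cells (q : Qg op) (hW : Cl op W) (h : Cl op A) (h' : Cl op B) (s : A ⊆ W) (s' : B ⊆ W) :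
    #(W \ (A ∪ B)) * #(A ∪ B) ≤
      #(W \ (A ∪ B)) * #(W \ (A ∪ B)) + #(A \ B) * #(B \ A) + #(B \ A) * #(A \ B) := by
  have u : A ∪ B ⊆ W := union_subset s s'
  have ex : ∀ p : X × X, ∃ y, p ∈ (W \ (A ∪ B)) ×ˢ (A ∪ B) → y ∈ W ∧ op p.1 y = p.2 := fun p => by
    by_cases k : p ∈ (W \ (A ∪ B)) ×ˢ (A ∪ B)
    · obtain ⟨y, hy⟩ := hW.div q (mem_sdiff.1 (mem_product.1 k).1).1 (u (mem_product.1 k).2)
      exact ⟨y, fun _ => hy⟩
    · exact ⟨p.1, fun m => absurd m k⟩
  choose f hf using ex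
  simp only [← card_product]
  refine le_trans (card_le_card_of_injOn
    (t := (W \ (A ∪ B)) ×ˢ (W \ (A ∪ B)) ∪ (A \ B) ×ˢ (B \ A) ∪ (B \ A) ×ˢ (A \ B))
    (fun p => if f p ∈ A ∪ B then (f p, p.2) else (p.1, f p)) (fun p hp => ?_) fun p hp r hr e => ?_)
    ((card_union_le _ _).trans (Nat.add_le_add_right (card_union_le _ _) _))
  · obtain ⟨h1, h2⟩ := hf p hp
    obtain ⟨h3, h4⟩ := mem_product.1 (mem_coe.1 hp)
    have a1 : f p ∈ A → p.2 ∉ A := fun k m =>
      (mem_sdiff.1 h3).2 (mem_union_left _ (h.left q k (h2 ▸ m)))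
    have a2 : f p ∈ B → p.2 ∉ B := fun k m =>
      (mem_sdiff.1 h3).2 (mem_union_right _ (h'.left q k (h2 ▸ m)))
    simp only [mem_coe, mem_union, mem_product, mem_sdiff] at *
    split_ifs with k <;> tauto
  · obtain ⟨h1, h2⟩ := hf p hp
    obtain ⟨k1, k2⟩ := hf r hr
    have h3 := (mem_sdiff.1 (mem_product.1 (mem_coe.1 hp)).1).2
    have k3 := (mem_sdiff.1 (mem_product.1 (mem_coe.1 hr)).1).2
    dsimp only at e
    split_ifs at e with a b b <;> obtain ⟨e1, e2⟩ := Prod.mk.inj e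
    · exact Prod.ext (q.r (f p) (by dsimp only; rw [h2, e1, k2, e2])) e2
    · exact absurd (e1 ▸ a) k3
    · exact absurd (e1 ▸ b) h3
    · exact Prod.ext e1 (by rw [← h2, ← k2, e1, e2])

/-- Three closed sets with the same pairwise intersections. -/
theorem sun (q : Qg op) (hW : Cl op W) (h : Cl op A) (h' : Cl op A') (hB : Cl op B) (s : A ⊆ W)
    (s' : A' ⊆ W) (sB : B ⊆ W) (e1 : A ∩ B = D) (e2 : A' ∩ B = D) (e3 : A ∩ A' = D) :
    #W + 2 * #D = #A + #A' + #B ∨ #A + #A' + #B ≤ #W + #D := by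
  have u : A ∪ A' ∪ B ⊆ W := union_subset (union_subset s s') sB
  have c1 := card_union_add_card_inter A A'
  have c2 := card_union_add_card_inter (A ∪ A') B
  have c3 := card_sdiff_add_card_eq_card u
  rw [union_inter_distrib_right, e1, e2, union_self] at c2
  rw [e3] at c1
  rcases (W \ (A ∪ A' ∪ B)).eq_empty_or_nonempty with k | ⟨z, hz⟩
  · rw [k, card_empty] at c3
    omega
  · have d1 : D ⊆ A := e1 ▸ inter_subset_left
    have d2 : D ⊆ A' := e2 ▸ inter_subset_left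
    have d3 : D ⊆ B := e1 ▸ inter_subset_right
    obtain ⟨z1, z2⟩ := mem_sdiff.1 hz
    have := card_le_card_of_injOn (s := D) (t := W \ (A ∪ A' ∪ B)) (fun a => op a z)
      (fun a ha => mem_coe.2 (mem_sdiff.2 ⟨hW a (s (d1 ha)) z z1, fun k => z2 (by
        simp only [mem_union] at k ⊢
        exact k.imp (Or.imp (h.right q (d1 ha)) (h'.right q (d2 ha))) (hB.right q (d3 ha)))⟩))
      (q.r z).injOn
    omega

/-- Cauchy and Schwarz: some member is not negatively correlated with the family. -/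
theorem pick (F : Finset (Finset X)) (hF : F.Nonempty) (s : ∀ A ∈ F, A ⊆ W) (α : Finset X → ℝ)
    (p : ∀ A ∈ F, 0 < α A) :
    ∃ B ∈ F, ∑ A ∈ F, α A * (#A * #B) ≤ ∑ A ∈ F, α A * (#W * #(A ∩ B)) := by
  by_contra! k
  have h1 := sum_lt_sum_of_nonempty hF fun B hB => mul_lt_mul_of_pos_left (k B hB) (p B hB)
  have h2 := sq_sum_le_card_mul_sum_sq (s := W)
    (f := fun x => ∑ A ∈ F, α A * if x ∈ A then (1 : ℝ) else 0)
  have c : ∀ A, A ⊆ W → ∑ x ∈ W, (if x ∈ A then (1 : ℝ) else 0) = #A := fun A h => by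
    rw [sum_ite_mem, inter_eq_right.2 h]
    simp
  have e1 : (∑ x ∈ W, ∑ A ∈ F, α A * if x ∈ A then (1 : ℝ) else 0) ^ 2 =
      ∑ B ∈ F, α B * ∑ A ∈ F, α A * (#A * #B) := by
    rw [sum_comm, sum_congr rfl fun A hA => by rw [← mul_sum, c A (s A hA)], sq, sum_mul_sum]
    refine sum_congr rfl fun B _ => ?_
    rw [mul_sum]
    exact sum_congr rfl fun A _ => by ring
  have e2 : #W * ∑ x ∈ W, (∑ A ∈ F, α A * if x ∈ A then (1 : ℝ) else 0) ^ 2 =
      ∑ B ∈ F, α B * ∑ A ∈ F, α A * (#W * #(A ∩ B)) := by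
    simp only [sq, sum_mul_sum]
    rw [sum_comm, mul_sum]
    refine sum_congr rfl fun B hB => ?_
    rw [sum_comm, mul_sum, mul_sum]
    refine sum_congr rfl fun A hA => ?_
    rw [← c _ (inter_subset_left.trans (s A hA)), mul_sum, mul_sum, mul_sum, mul_sum]
    refine sum_congr rfl fun x _ => ?_
    by_cases a : x ∈ A <;> by_cases b : x ∈ B <;> simp [a, b]
    ring
  linarith

end Pool.Agent.MP_3df3be_co
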