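import Pool.Agent.MP_3df3be_co.Top1

/-! The potential argument for closed sets of density between `2 / 5` and `1 / 2`. -/

set_option linter.unusedSectionVars false

namespace Pool.Agent.MP_3df3be_co

open Finset

theorem low {μ ξ β z w a b c d : ℝ} (hw : 0 < w) (m0 : 0 < μ) (m1 : μ ≤ 1 / 1000) (h1 : μ ≤ ξ)
    (h2 : ξ + μ ≤ 1 / 5) (b0 : 0 ≤ β) (b1 : β ≤ 1 / 5) (z0 : 0 ≤ z) (ea : a = w * (1 - ξ) / 2)
    (eb : b = w * (1 - β) / 2) (ec : c = b * (1 - z) / 2) (ed : d = w - a - b + c)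
    (h : d * (w - d) ≤ d * d + (a - c) * (b - c) + (b - c) * (a - c)) : 0.62 * μ ≤ z := by
  by_contra! k
  obtain ⟨y, ey⟩ : ∃ y, y = (1 - β) * z / 2 := ⟨_, rfl⟩
  have e : w ^ 2 * ((1 - β) ^ 2 * z + y * (4 * y - 6 * ξ) - ξ * (1 - 3 * β - 2 * ξ)) =
      4 * (d * d + (a - c) * (b - c) + (b - c) * (a - c) - d * (w - d)) := by
    subst ed ec eb ea ey
    ring
  have h3 : 0 ≤ (1 - β) ^ 2 * z + y * (4 * y - 6 * ξ) - ξ * (1 - 3 * β - 2 * ξ) :=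
    nonneg_of_mul_nonneg_right (by rw [e]; linarith) (pow_pos hw 2)
  have y0 : 0 ≤ y := by rw [ey]; have := mul_nonneg (show 0 ≤ 1 - β by linarith) z0; linarith
  have y1 : y ≤ z := by rw [ey]; nlinarith [mul_nonneg b0 z0]
  have h4 : y * (4 * y - 6 * ξ) ≤ 0 := mul_nonpos_of_nonneg_of_nonpos y0 (by linarith)
  have h5 : 5 / 8 * (1 - 5 * ξ) * (1 - β) ^ 2 ≤ 1 - 3 * β - 2 * ξ := by
    have p1 : 0 ≤ 1 - 5 * ξ := by linarith
    have p2 : 0 ≤ 1 - 5 * β := by linarith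
    nlinarith [mul_nonneg (mul_nonneg p1 p2) b0, mul_nonneg p2 (m0.le.trans h1)]
  have h6 : 0.995 * μ ≤ ξ * (1 - 5 * ξ) := by
    nlinarith [mul_nonneg (sub_nonneg.2 h1) (show 0 ≤ 1 - 5 * (ξ + μ) by linarith),
      mul_nonneg m0.le (sub_nonneg.2 m1)]
  have q : 0 < (1 - β) ^ 2 := pow_pos (by linarith) 2
  have h7 := mul_le_mul_of_nonneg_left h5 (m0.le.trans h1)
  have h8 := mul_le_mul_of_nonneg_right h6 q.le
  have h9 := mul_lt_mul_of_pos_left k q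
  nlinarith [mul_pos m0 q]

variable {X : Type} [DecidableEq X] {op : X → X → X} {A A' B W : Finset X} {e : X}

/-- The defect of `A` in `W`. -/
noncomputable def xi (W A : Finset X) : ℝ := 1 - 2 * #A / #W

theorem xi_eq (h : (0 : ℝ) < #W) (A : Finset X) : (#A : ℝ) = #W * (1 - xi W A) / 2 := by
  unfold xi
  field_simp
  ring

/-- Members of the family. -/
structure Mem (op : X → X → X) (e : X) (μ ξ₀ : ℝ) (W A : Finset X) : Prop where
  s : A ⊆ W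
  e : e ∈ A
  cl : Cl op A
  lo : μ ≤ xi W A
  hi : xi W A < ξ₀

variable {μ ξ₀ : ℝ}

theorem Mem.pos (h : Mem op e μ ξ₀ W A) : (0 : ℝ) < #A := Nat.cast_pos.2 (card_pos.2 ⟨e, h.e⟩)

theorem Mem.wpos (h : Mem op e μ ξ₀ W A) : (0 : ℝ) < #W :=
  Nat.cast_pos.2 (card_pos.2 ⟨e, h.s h.e⟩)

theorem Mem.bd (m0 : 0 < μ) (m2 : ξ₀ + μ ≤ 1 / 5) (h : Mem op e μ ξ₀ W A) :
    2 * (#W : ℝ) < 5 * #A ∧ 2 * (#A : ℝ) < #W := by
  rw [xi_eq h.wpos A]
  constructor <;> nlinarith [h.wpos, h.lo, h.hi]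

theorem Mem.half (q : Qg op) (m0 : 0 < μ) (m2 : ξ₀ + μ ≤ 1 / 5) (h : Mem op e μ ξ₀ W A)
    (hB : Mem op e μ ξ₀ W B) (n : A ≠ B) : 2 * (#(A ∩ B) : ℝ) ≤ #B := by
  refine mod_cast MP_3df3be_co.half q (h.cl.inter hB.cl) hB.cl inter_subset_right fun k => ?_
  have : 2 * (#B : ℝ) ≤ #A := mod_cast
    MP_3df3be_co.half q hB.cl h.cl (k ▸ inter_subset_left) n.symm
  linarith [(h.bd m0 m2).2, (hB.bd m0 m2).1, h.wpos]

theorem Mem.low (q : Qg op) (hW : Cl op W) (m0 : 0 < μ) (m1 : μ ≤ 1 / 1000)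
    (m2 : ξ₀ + μ ≤ 1 / 5) (h : Mem op e μ ξ₀ W A) (hB : Mem op e μ ξ₀ W B) (n : A ≠ B) :
    0.62 * μ ≤ xi B (A ∩ B) := by
  have c1 : (#(A ∪ B) : ℝ) + #(A ∩ B) = #A + #B := mod_cast card_union_add_card_inter A B
  have c2 : (#(W \ (A ∪ B)) : ℝ) + #(A ∪ B) = #W :=
    mod_cast card_sdiff_add_card_eq_card (union_subset h.s hB.s)
  have c3 : (#(A \ B) : ℝ) + #(A ∩ B) = #A := mod_cast card_sdiff_add_card_inter A B
  have c4 : (#(B \ A) : ℝ) + #(A ∩ B) = #B := by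
    rw [inter_comm]; exact mod_cast card_sdiff_add_card_inter B A
  have c5 : (#(W \ (A ∪ B)) : ℝ) * #(A ∪ B) ≤ #(W \ (A ∪ B)) * #(W \ (A ∪ B)) +
      #(A \ B) * #(B \ A) + #(B \ A) * #(A \ B) := mod_cast cells q hW h.cl hB.cl h.s hB.s
  refine MP_3df3be_co.low (d := #(W \ (A ∪ B))) h.wpos m0 m1 h.lo (by linarith [h.hi])
    (m0.le.trans hB.lo) (by linarith [hB.hi]) ?_ (xi_eq h.wpos A) (xi_eq h.wpos B)
    (xi_eq hB.pos (A ∩ B)) (by linarith) ?_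
  · exact sub_nonneg.2 ((div_le_one hB.pos).2 (h.half q m0 m2 hB n))
  · rwa [eq_sub_of_add_eq c3, eq_sub_of_add_eq c4, eq_sub_of_add_eq' c2] at c5

theorem Mem.inj (q : Qg op) (hW : Cl op W) (m0 : 0 < μ) (m2 : ξ₀ + μ ≤ 1 / 5)
    (h : Mem op e μ ξ₀ W A) (h' : Mem op e μ ξ₀ W A') (hB : Mem op e μ ξ₀ W B) (n : A ≠ B)
    (k : A' ∩ B = A ∩ B) (k0 : xi B (A ∩ B) < ξ₀) (k1 : xi B (A ∩ B) < 2 * xi W A)
    (k2 : xi B (A ∩ B) < 2 * xi W A') : A = A' := by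
  by_contra m
  obtain ⟨a1, a2⟩ := h.bd m0 m2
  obtain ⟨a3, a4⟩ := h'.bd m0 m2
  obtain ⟨b1, b2⟩ := hB.bd m0 m2
  have c := xi_eq hB.pos (A ∩ B)
  have w := h.wpos
  have e3 : A ∩ A' = A ∩ B := by
    by_contra m'
    have h1 : 2 * (#(A ∩ B) : ℝ) ≤ #(A ∩ A') := mod_cast MP_3df3be_co.half q (h.cl.inter hB.cl)
      (h.cl.inter h'.cl) (subset_inter inter_subset_left (k ▸ inter_subset_left)) (Ne.symm m')
    have h2 := h.half q m0 m2 h' m
    nlinarith [hB.pos]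
  have h3 := h.half q m0 m2 hB n
  rcases sun q hW h.cl h'.cl hB.cl h.s h'.s hB.s rfl k e3 with s | s
  · have s : (#W : ℝ) + 2 * #(A ∩ B) = #A + #A' + #B := mod_cast s
    have h4 := xi_eq w A
    have h5 := xi_eq w A'
    have h6 : 0 ≤ xi B (A ∩ B) := sub_nonneg.2 ((div_le_one hB.pos).2 h3)
    nlinarith
  · have s : (#A : ℝ) + #A' + #B ≤ #W + #(A ∩ B) := mod_cast s
    linarith

theorem tang {x z : ℝ} (hx : 0 < x) (hz : 0 < z) : 2 / x - z / x ^ 2 ≤ 1 / z := by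
  have : 1 / z - (2 / x - z / x ^ 2) = (x - z) ^ 2 / (z * x ^ 2) := by field_simp; ring
  have h : 0 ≤ (x - z) ^ 2 / (z * x ^ 2) := by positivity
  linarith

theorem pot (q : Qg op) (e : X) (ξ₀ : ℝ) (n : ℕ) : ∀ W : Finset X, #W = n → Cl op W →
    ∀ μ g : ℝ, 0 < μ → μ ≤ 1 / 1000 → ξ₀ + μ ≤ 1 / 5 → 0 ≤ g → (#W : ℝ) ^ 5 ≤ g ^ 6 * μ ^ 7 →
    ∀ F : Finset (Finset X), (∀ A ∈ F, Mem op e μ ξ₀ W A) →
      ∑ A ∈ F, (1 / xi W A - 1 / ξ₀) ≤ 200 * g := by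
  induction n using Nat.strong_induction_on with
  | _ n ih =>
  intro W hn hW μ g m0 m1 m2 g0 hg F hF
  rcases F.eq_empty_or_nonempty with rfl | ne
  · rw [sum_empty]; positivity
  have xp : ∀ A ∈ F, 0 < xi W A := fun A hA => m0.trans_le (hF A hA).lo
  obtain ⟨B, hB, cs⟩ := pick (W := W) F ne (fun A hA => (hF A hA).s) (fun A => 1 / xi W A ^ 2)
    fun A hA => one_div_pos.2 (pow_pos (xp A hA) 2)
  have mB := hF B hB
  have w := mB.wpos
  have b := mB.pos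
  obtain ⟨b1, b2⟩ := mB.bd m0 m2
  have x0 : 0 < ξ₀ := (xp B hB).trans mB.hi
  set τ : Finset X → ℝ := fun A => 2 / xi W A - xi B (A ∩ B) / xi W A ^ 2 - 1 / ξ₀ with hτ
  have s1 : ∑ A ∈ F, (1 / xi W A - 1 / ξ₀) ≤ ∑ A ∈ F, τ A := by
    rw [← sub_nonneg, ← sum_sub_distrib] at cs ⊢
    refine (mul_nonneg (show 0 ≤ 2 / ((#W : ℝ) * #B) by positivity) cs).trans_eq ?_
    rw [mul_sum]
    refine sum_congr rfl fun A hA => ?_
    have := (xp A hA).ne'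
    simp only [hτ]
    rw [xi_eq w A, xi_eq b (A ∩ B)]
    field_simp
    ring
  have s2 : τ B ≤ 2 * g := by
    have β0 := xp B hB
    have h1 : 1 ≤ #W * xi W B := by
      have : (2 * #B + 1 : ℝ) ≤ #W := mod_cast (show 2 * #B < #W from mod_cast b2)
      linarith [xi_eq w B]
    have h2 : 1 ≤ g * xi W B ^ 2 := by
      refine le_of_pow_le_pow_left₀ (n := 6) (by norm_num) (by positivity) ?_
      calc (1 : ℝ) ^ 6 ≤ (#W * xi W B) ^ 5 := by rw [one_pow]; exact one_le_pow₀ h1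
        _ = #W ^ 5 * xi W B ^ 5 := mul_pow _ _ _
        _ ≤ g ^ 6 * xi W B ^ 7 * xi W B ^ 5 := by
          refine mul_le_mul_of_nonneg_right (hg.trans ?_) (by positivity)
          gcongr
          exact mB.lo
        _ = _ := by ring
    have h3 : xi B (B ∩ B) = -1 := by
      rw [inter_self, xi, mul_div_assoc, div_self b.ne']; norm_num
    have h4 : 1 / xi W B ^ 2 ≤ g := by rwa [div_le_iff₀ (by positivity)]
    have h5 : 2 / xi W B ≤ 1 / xi W B ^ 2 := by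
      rw [div_le_div_iff₀ β0 (by positivity)]
      nlinarith [mB.hi]
    have h6 := one_div_pos.2 x0
    simp only [hτ]
    rw [h3, neg_div]
    linarith
  set F' := (F.erase B).filter fun A => 0 < τ A with hF'
  have f1 : ∀ A ∈ F', A ∈ F ∧ A ≠ B ∧ 0 < τ A := fun A hA =>
    ⟨mem_of_mem_erase (mem_filter.1 hA).1, ne_of_mem_erase (mem_filter.1 hA).1, (mem_filter.1 hA).2⟩
  have f2 : ∀ A ∈ F', 0.62 * μ ≤ xi B (A ∩ B) := fun A hA =>
    (hF A (f1 A hA).1).low q hW m0 m1 m2 mB (f1 A hA).2.1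
  have f3 : ∀ A ∈ F', 0 < xi B (A ∩ B) := fun A hA => lt_of_lt_of_le (by positivity) (f2 A hA)
  have f4 : ∀ A ∈ F', τ A ≤ 1 / xi B (A ∩ B) - 1 / ξ₀ := fun A hA =>
    sub_le_sub_right (tang (xp A (f1 A hA).1) (f3 A hA)) _
  have f5 : ∀ A ∈ F', xi B (A ∩ B) < ξ₀ := fun A hA =>
    (one_div_lt_one_div x0 (f3 A hA)).1 (by linarith [f4 A hA, (f1 A hA).2.2])
  have f6 : ∀ A ∈ F', xi B (A ∩ B) < 2 * xi W A := fun A hA => by
    have h1 := xp A (f1 A hA).1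
    have h2 : xi B (A ∩ B) / xi W A ^ 2 < 2 / xi W A := by
      have := (f1 A hA).2.2
      simp only [hτ] at this
      linarith [one_div_pos.2 x0]
    rw [div_lt_div_iff₀ (by positivity) h1] at h2
    nlinarith
  have s3 := ih #B (by rw [← hn]; exact_mod_cast (by linarith : (#B : ℝ) < #W)) B rfl mB.cl
    (0.62 * μ) (0.99 * g) (by positivity) (by linarith) (by linarith) (by positivity) (by
      have h1 : (#B : ℝ) ^ 5 ≤ (#W / 2) ^ 5 := by gcongr; linarith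
      have h2 : 0 ≤ g ^ 6 * μ ^ 7 := by positivity
      rw [mul_pow, mul_pow]
      rw [div_pow] at h1
      nlinarith) (F'.image (· ∩ B)) fun D hD => by
      obtain ⟨A, hA, rfl⟩ := mem_image.1 hD
      have := hF A (f1 A hA).1
      exact ⟨inter_subset_right, mem_inter.2 ⟨this.e, mB.e⟩, this.cl.inter mB.cl, f2 A hA, f5 A hA⟩
  rw [sum_image fun A hA A' hA' k => (hF A (f1 A hA).1).inj q hW m0 m2 (hF A' (f1 A' hA').1) mB
    (f1 A hA).2.1 k.symm (f5 A hA) (f6 A hA) (by rw [show A ∩ B = A' ∩ B from k]; exact f6 A' hA')]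
    at s3
  have s4 := sum_le_sum f4
  have s5 : ∑ A ∈ F.erase B, τ A ≤ ∑ A ∈ F', τ A := by
    rw [hF', sum_filter]
    exact sum_le_sum fun A _ => by split_ifs with k; exacts [le_rfl, not_lt.1 k]
  have s6 := add_sum_erase F τ hB
  linarith

end Pool.Agent.MP_3df3be_co
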